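import Pool.Agent.Lib.MP_0546f5_an.PN.Big

/-!
The approximate embeddings `J_i : M → X` and the resulting approximate implementation of the
derivation.
-/

namespace Pool.Agent.Lib.MP_0546f5_an.PN

universe u

open Filter Topology

namespace Sys

variable {M : Type u} [AddCommGroup M] [Module ℂ M] [UniformSpace M] (S : Sys M)

/-- exact identities -/
structure Exact : Prop where
  c_one : ∀ i, S.c i 1 = LinearMap.id
  c_th : ∀ i s, S.lam i • ∑ j, S.c i (S.g i s j) = S.b i s
  c_thth : ∀ i s t, S.lam i • ∑ j', S.lam i • ∑ j, S.c i (S.g i s j * S.g i t j') =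
    (S.b i t).comp (S.b i s)

/-- estimates at the index `i`, for a chain of seminorms -/
structure Est (i : S.ι) (μ : ℕ → CS M) (K del : ℝ) : Prop where
  K_nonneg : 0 ≤ K
  del_nonneg : 0 ≤ del
  eps_le : S.eps i ≤ 1
  del_le : (1 + K) ^ 2 * del ≤ S.eps i ^ 2
  mono : ∀ k y, (μ k).1 y ≤ (μ (k + 1)).1 y
  b_le : ∀ k, k < 4 → ∀ s y, (μ k).1 (S.b i s y) ≤ K * (μ (k + 1)).1 y
  c_small : ∀ k, k < 2 → ∀ h : S.G i, h ≠ 1 → ∀ y, (μ k).1 (S.c i h y) ≤ del * (μ (k + 2)).1 y
  c_right : ∀ k, k < 2 → ∀ (h : S.G i) s, h ≠ 1 → ∀ y,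
    (μ k).1 ((S.lam i • ∑ j, S.c i (h * S.g i s j)) y) ≤ del * (μ (k + 2)).1 y
  c_left : ∀ k, k < 2 → ∀ (h : S.G i) s, h ≠ 1 → ∀ y,
    (μ k).1 ((S.lam i • ∑ j, S.c i (S.g i s j * h)) y) ≤ del * (μ (k + 2)).1 y
  c_both : ∀ k, k < 2 → ∀ (h : S.G i) s t, h ≠ 1 → ∀ y,
    (μ k).1 ((S.lam i • ∑ j', S.lam i • ∑ j, S.c i (S.g i s j * h * S.g i t j')) y) ≤
      del * (μ (k + 2)).1 y

variable {S}

lemma Est.mono' {i : S.ι} {μ : ℕ → CS M} {K del : ℝ} (E : S.Est i μ K del) {k n : ℕ} (h : k ≤ n)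
    (y : M) : (μ k).1 y ≤ (μ n).1 y := by
  induction h with
  | refl => exact le_rfl
  | step _ ih => exact ih.trans (E.mono _ _)

variable (H : S.Exact)

/-- coordinates of `J_i m` -/
noncomputable def Jc (S : Sys M) (i : S.ι) (m : M) (p : S.G i × Option (S.σ i)) : M :=
  match p with
  | (h, none) => S.c i h m
  | (h, some s) => (S.eps i : ℂ)⁻¹ • ((S.lam i • ∑ j, S.c i (h * S.g i s j)) m -
      S.b i s (S.c i h m))

lemma Jc_none (i : S.ι) (m : M) (h : S.G i) : Jc S i m (h, none) = S.c i h m := rfl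

lemma Jc_some (i : S.ι) (m : M) (h : S.G i) (s : S.σ i) : Jc S i m (h, some s) =
    (S.eps i : ℂ)⁻¹ • ((S.lam i • ∑ j, S.c i (h * S.g i s j)) m - S.b i s (S.c i h m)) := rfl

lemma Jc_add (i : S.ι) (m m' : M) (p : S.G i × Option (S.σ i)) :
    Jc S i (m + m') p = Jc S i m p + Jc S i m' p := by
  obtain ⟨h, o⟩ := p
  cases o with
  | none => simp [Jc_none]
  | some s =>
    simp only [Jc_some, map_add]
    rw [← smul_add]
    congr 1
    abel

lemma Jc_smul (i : S.ι) (a : ℂ) (m : M) (p : S.G i × Option (S.σ i)) :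
    Jc S i (a • m) p = a • Jc S i m p := by
  obtain ⟨h, o⟩ := p
  cases o with
  | none => simp [Jc_none]
  | some s =>
    simp only [Jc_some, map_smul]
    rw [← smul_sub, smul_comm]

lemma Jc_zero (i : S.ι) (p : S.G i × Option (S.σ i)) : Jc S i 0 p = 0 := by
  have := Jc_smul i 0 (0 : M) p
  simpa using this

section est

variable {i : S.ι} {μ : ℕ → CS M} {K del : ℝ} (E : S.Est i μ K del)

include H E in
lemma Jc_le (m : M) (p : S.G i × Option (S.σ i)) : (μ 0).1 (Jc S i m p) ≤ (μ 4).1 m := by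
  have he := S.eps_pos i
  have hK := E.K_nonneg
  have hd := E.del_nonneg
  have hdel : (1 + K) * del ≤ S.eps i ^ 2 := by
    refine le_trans ?_ E.del_le
    rw [sq]
    nlinarith [mul_nonneg hK hd, mul_nonneg hK (mul_nonneg hK hd)]
  have he1 := E.eps_le
  have hdel1 : del ≤ 1 := by nlinarith [mul_nonneg hK hd]
  have hm := apply_nonneg (μ 4).1 m
  have h24 : (μ 2).1 m ≤ (μ 4).1 m := E.mono' (by norm_num) m
  have h34 : (μ 3).1 m ≤ (μ 4).1 m := E.mono' (by norm_num) m
  obtain ⟨h, o⟩ := p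
  by_cases hh : h = 1
  · subst hh
    cases o with
    | none =>
      rw [Jc_none, H.c_one]
      exact E.mono' (by norm_num) m
    | some s =>
      rw [Jc_some]
      simp only [one_mul]
      rw [H.c_th, H.c_one]
      simp
  · cases o with
    | none =>
      rw [Jc_none]
      refine (E.c_small 0 (by norm_num) h hh m).trans ?_
      calc del * (μ (0 + 2)).1 m ≤ 1 * (μ 4).1 m :=
            mul_le_mul hdel1 h24 (apply_nonneg _ _) zero_le_one
        _ = (μ 4).1 m := one_mul _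
    | some s =>
      rw [Jc_some, map_smul_eq_mul, norm_inv, Complex.norm_real, Real.norm_of_nonneg he.le,
        inv_mul_le_iff₀ he]
      refine (map_sub_le_add _ _ _).trans ?_
      have e1 : (μ 0).1 ((S.lam i • ∑ j, S.c i (h * S.g i s j)) m) ≤ del * (μ 4).1 m :=
        (E.c_right 0 (by norm_num) h s hh m).trans (mul_le_mul_of_nonneg_left h24 hd)
      have e2 : (μ 0).1 (S.b i s (S.c i h m)) ≤ K * (del * (μ 4).1 m) := by
        refine (E.b_le 0 (by norm_num) s _).trans ?_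
        refine mul_le_mul_of_nonneg_left ?_ hK
        exact (E.c_small 1 (by norm_num) h hh m).trans (mul_le_mul_of_nonneg_left h34 hd)
      have e3 : ((1 + K) * del) * (μ 4).1 m ≤ S.eps i ^ 2 * (μ 4).1 m :=
        mul_le_mul_of_nonneg_right hdel hm
      have e4 : S.eps i ^ 2 * (μ 4).1 m ≤ S.eps i * (μ 4).1 m := by
        refine mul_le_mul_of_nonneg_right ?_ hm
        nlinarith
      nlinarith

include H E in
lemma Jc_diff (s : S.σ i) (m : M) (h : S.G i) (o : Option (S.σ i)) :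
    (μ 0).1 (S.lam i • ∑ j, Jc S i m (S.g i s j * h, o) - Jc S i (S.b i s m) (h, o)) ≤
      S.eps i * (μ 4).1 m := by
  have he := S.eps_pos i
  have hK := E.K_nonneg
  have hd := E.del_nonneg
  have he1 := E.eps_le
  have hm := apply_nonneg (μ 4).1 m
  have h24 : (μ 2).1 m ≤ (μ 4).1 m := E.mono' (by norm_num) m
  have h34 : (μ 3).1 m ≤ (μ 4).1 m := E.mono' (by norm_num) m
  have hdel := E.del_le
  have hdm : ((1 + K) ^ 2 * del) * (μ 4).1 m ≤ S.eps i ^ 2 * (μ 4).1 m :=
    mul_le_mul_of_nonneg_right hdel hm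
  cases o with
  | none =>
    simp only [Jc_none]
    have e0 : S.lam i • ∑ j, (S.c i (S.g i s j * h)) m =
        (S.lam i • ∑ j, S.c i (S.g i s j * h)) m := by
      simp [LinearMap.sum_apply]
    rw [e0]
    by_cases hh : h = 1
    · subst hh
      simp only [mul_one]
      rw [H.c_th, H.c_one]
      simp only [LinearMap.id_apply, sub_self, map_zero]
      positivity
    · refine (map_sub_le_add _ _ _).trans ?_
      have e1 : (μ 0).1 ((S.lam i • ∑ j, S.c i (S.g i s j * h)) m) ≤ del * (μ 4).1 m :=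
        (E.c_left 0 (by norm_num) h s hh m).trans (mul_le_mul_of_nonneg_left h24 hd)
      have e2 : (μ 0).1 (S.c i h (S.b i s m)) ≤ del * (K * (μ 4).1 m) := by
        refine (E.c_small 0 (by norm_num) h hh _).trans ?_
        refine mul_le_mul_of_nonneg_left ?_ hd
        exact (E.b_le 2 (by norm_num) s m).trans (mul_le_mul_of_nonneg_left h34 hK)
      have e4 : S.eps i ^ 2 * (μ 4).1 m ≤ S.eps i * (μ 4).1 m := by
        refine mul_le_mul_of_nonneg_right ?_ hm
        nlinarith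
      nlinarith [mul_nonneg (mul_nonneg hK hd) hm,
        mul_nonneg (mul_nonneg hK (mul_nonneg hK hd)) hm]
  | some t =>
    simp only [Jc_some]
    have e0 : S.lam i • ∑ j, (S.eps i : ℂ)⁻¹ •
          ((S.lam i • ∑ j', S.c i (S.g i s j * h * S.g i t j')) m -
            S.b i t (S.c i (S.g i s j * h) m)) -
        (S.eps i : ℂ)⁻¹ • ((S.lam i • ∑ j', S.c i (h * S.g i t j')) (S.b i s m) -
          S.b i t (S.c i h (S.b i s m))) =
        (S.eps i : ℂ)⁻¹ • ((S.lam i • ∑ j', S.lam i • ∑ j,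
            S.c i (S.g i s j * h * S.g i t j')) m -
          S.b i t ((S.lam i • ∑ j, S.c i (S.g i s j * h)) m) -
          (S.lam i • ∑ j', S.c i (h * S.g i t j')) (S.b i s m) +
          S.b i t (S.c i h (S.b i s m))) := by
      rw [← Finset.smul_sum, smul_comm, ← smul_sub]
      congr 1
      rw [Finset.sum_sub_distrib, smul_sub]
      have a1 : S.lam i • ∑ j, (S.lam i • ∑ j', S.c i (S.g i s j * h * S.g i t j')) m =
          (S.lam i • ∑ j', S.lam i • ∑ j, S.c i (S.g i s j * h * S.g i t j')) m := by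
        simp only [LinearMap.smul_apply, LinearMap.sum_apply, ← Finset.smul_sum]
        rw [Finset.sum_comm]
      have a2 : S.lam i • ∑ j, S.b i t (S.c i (S.g i s j * h) m) =
          S.b i t ((S.lam i • ∑ j, S.c i (S.g i s j * h)) m) := by
        simp only [LinearMap.smul_apply, LinearMap.sum_apply, map_smul, map_sum]
      rw [a1, a2]
      abel
    rw [e0, map_smul_eq_mul, norm_inv, Complex.norm_real, Real.norm_of_nonneg he.le,
      inv_mul_le_iff₀ he]
    by_cases hh : h = 1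
    · subst hh
      simp only [mul_one, one_mul]
      rw [H.c_th, H.c_th, H.c_thth, H.c_one]
      simp only [LinearMap.id_apply, LinearMap.comp_apply, sub_self, zero_sub, neg_add_cancel,
        map_zero]
      positivity
    · have e1 : (μ 0).1 ((S.lam i • ∑ j', S.lam i • ∑ j, S.c i (S.g i s j * h * S.g i t j')) m) ≤
          del * (μ 4).1 m :=
        (E.c_both 0 (by norm_num) h s t hh m).trans (mul_le_mul_of_nonneg_left h24 hd)
      have e2 : (μ 0).1 (S.b i t ((S.lam i • ∑ j, S.c i (S.g i s j * h)) m)) ≤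
          K * (del * (μ 4).1 m) := by
        refine (E.b_le 0 (by norm_num) t _).trans ?_
        refine mul_le_mul_of_nonneg_left ?_ hK
        exact (E.c_left 1 (by norm_num) h s hh m).trans (mul_le_mul_of_nonneg_left h34 hd)
      have e3 : (μ 0).1 ((S.lam i • ∑ j', S.c i (h * S.g i t j')) (S.b i s m)) ≤
          del * (K * (μ 4).1 m) := by
        refine (E.c_right 0 (by norm_num) h t hh _).trans ?_
        refine mul_le_mul_of_nonneg_left ?_ hd
        exact (E.b_le 2 (by norm_num) s m).trans (mul_le_mul_of_nonneg_left h34 hK)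
      have e4 : (μ 0).1 (S.b i t (S.c i h (S.b i s m))) ≤ K * (del * (K * (μ 4).1 m)) := by
        refine (E.b_le 0 (by norm_num) t _).trans ?_
        refine mul_le_mul_of_nonneg_left ?_ hK
        refine (E.c_small 1 (by norm_num) h hh _).trans ?_
        exact mul_le_mul_of_nonneg_left (E.b_le 3 (by norm_num) s m) hd
      have e5 : (1 + K) ^ 2 * del * (μ 4).1 m = del * (μ 4).1 m + K * (del * (μ 4).1 m) +
          del * (K * (μ 4).1 m) + K * (del * (K * (μ 4).1 m)) := by ring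
      have e6 : S.eps i * (S.eps i * (μ 4).1 m) = S.eps i ^ 2 * (μ 4).1 m := by ring
      rw [e6]
      refine le_trans ?_ hdm
      rw [e5]
      refine (map_add_le_add _ _ _).trans (add_le_add ?_ e4)
      refine (map_sub_le_add _ _ _).trans (add_le_add ?_ e3)
      exact (map_sub_le_add _ _ _).trans (add_le_add e1 e2)

end est

/-- the map `J_i` -/
noncomputable def Jfun (i : S.ι) (m : M) (k : S.κ) : M :=
  Jc S k.1 ((Pi.single i m : S.ι → M) k.1) k.2

lemma Jfun_rel (i : S.ι) (m : M) : S.Rel (Jfun i m) := by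
  intro i' h s
  unfold Jfun
  simp only [Jc_some, Jc_none]
  rw [smul_smul, mul_inv_cancel₀, one_smul]
  · simp [LinearMap.sum_apply]
  · exact_mod_cast (S.eps_pos i').ne'

lemma Jfun_ne {i i' : S.ι} (hi : i' ≠ i) (m : M) (p : S.G i' × Option (S.σ i')) :
    Jfun (S := S) i m ⟨i', p⟩ = 0 := by
  unfold Jfun
  simp only
  rw [Pi.single_eq_of_ne hi]
  exact Jc_zero i' p

lemma Jfun_self (i : S.ι) (m : M) (p : S.G i × Option (S.σ i)) :
    Jfun (S := S) i m ⟨i, p⟩ = Jc S i m p := by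
  unfold Jfun
  simp only [Pi.single_eq_same]

lemma Jfun_bdd (i : S.ι) (y : M) (m : CS M) :
    BddAbove (Set.range fun k => m.1 (Jfun (S := S) i y k)) := by
  have hfin : (Set.range fun p : S.G i × Option (S.σ i) => m.1 (Jc S i y p)).Finite :=
    Set.finite_range _
  refine ((hfin.insert 0).subset ?_).bddAbove
  rintro _ ⟨⟨i', p⟩, rfl⟩
  by_cases hi : i' = i
  · subst hi
    right
    exact ⟨p, by simp only [Jfun_self]⟩
  · left
    simp only [Jfun_ne hi, map_zero]

variable [IsPolynormed M]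

/-- the map `J_i : M → X` -/
noncomputable def J0 (i : S.ι) : M →ₗ[ℂ] S.X where
  toFun := fun m => S.mkX (Jfun i m) (Jfun_bdd i m) (Jfun_rel i m)
  map_add' := by
    intro m m'
    apply S.ext
    intro k
    simp only [ev_mkX, map_add, Jfun, Pi.single_add, Pi.add_apply, Jc_add]
  map_smul' := by
    intro a m
    apply S.ext
    intro k
    simp only [ev_mkX, map_smul, Jfun, Pi.single_smul, Pi.smul_apply, Jc_smul, RingHom.id_apply]

lemma ev_J0 (i : S.ι) (m : M) (k : S.κ) : S.ev k (J0 i m) = Jfun i m k := rfl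

section est2

variable {i : S.ι} {μ : ℕ → CS M} {K del : ℝ} (E : S.Est i μ K del)

include H E in
lemma q_J0_le (m : M) : (S.q (μ 0)).1 (J0 i m) ≤ (μ 4).1 m := by
  refine S.q_le (apply_nonneg _ _) fun k => ?_
  obtain ⟨i', p⟩ := k
  rw [ev_J0]
  by_cases hi : i' = i
  · subst hi
    rw [Jfun_self]
    exact Jc_le H E m p
  · rw [Jfun_ne hi, map_zero]
    exact apply_nonneg _ _

include H E in
lemma J0_diff (s : S.σ i) (m : M) :
    (S.q (μ 0)).1 (S.lam i • ∑ j, S.tau (S.sg i (S.g i s j)) (J0 i m) - J0 i (S.b i s m)) ≤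
      S.eps i * (μ 4).1 m := by
  have hpos : 0 ≤ S.eps i * (μ 4).1 m := mul_nonneg (S.eps_pos i).le (apply_nonneg _ _)
  refine S.q_le hpos fun k => ?_
  obtain ⟨i', h, o⟩ := k
  rw [map_sub, map_smul, map_sum]
  simp only [ev_tau, ev_J0]
  by_cases hi : i' = i
  · subst hi
    simp only [Jfun_self, Pi.mulSingle_eq_same]
    exact Jc_diff H E s m h o
  · simp only [Jfun_ne hi, Finset.sum_const_zero, smul_zero, sub_self, map_zero]
    exact hpos

end est2

include H in
lemma ev_one_J0 (i : S.ι) (m : M) : S.ev ⟨i, (1, none)⟩ (J0 i m) = m := by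
  rw [ev_J0, Jfun_self, Jc_none, H.c_one]
  rfl

section main

variable {A : Type u} [NonUnitalRing A] [Module ℂ A] [IsScalarTower ℂ A A]
  [SMulCommClass ℂ A A] [UniformSpace A] [IsPolynormed A] [ContinuousMul A]
variable {l r : A → M → M} (hM : IsBimodule l r)
  (hlb : ∀ i s a m, l a (S.b i s m) = S.b i s (l a m))
  (hlc : ∀ i h a m, l a (S.c i h m) = S.c i h (l a m))
  (D : A → M → ℂ)
  (β : (S.Zd hM hlb).Sp →ₗ[ℂ] S.X →ₗ[ℂ] ℂ) {C : ℝ} (hC : 0 ≤ C)

omit [IsScalarTower ℂ A A] [SMulCommClass ℂ A A] [ContinuousMul A] in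
include hlc in
lemma J0_lX (hl : IsLeftModule l) (i : S.ι) (a : A) (m : M) :
    J0 i (l a m) = S.lX hl hlb a (J0 i m) := by
  apply S.ext
  intro k
  rw [S.ev_lX, ev_J0, ev_J0]
  obtain ⟨i', h, o⟩ := k
  by_cases hi : i' = i
  · subst hi
    rw [Jfun_self, Jfun_self]
    cases o with
    | none => rw [Jc_none, Jc_none, hlc]
    | some s =>
      rw [Jc_some, Jc_some, hl.smul_right]
      have hsub : ∀ y z, l a (y - z) = l a y - l a z := fun y z => map_sub (hl.lin a) y z
      rw [hsub, ← hlc, hlb]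
      congr 2
      have hsum : ∀ u : S.J i' → M, l a (∑ j, u j) = ∑ j, l a (u j) := fun u =>
        map_sum (hl.lin a) u Finset.univ
      simp only [LinearMap.smul_apply, LinearMap.sum_apply, hl.smul_right, hsum, hlc]
  · rw [Jfun_ne hi, Jfun_ne hi]
    exact ((hl.lin a).map_zero).symm

variable {i : S.ι} {μ : ℕ → CS M} {K del : ℝ} (E : S.Est i μ K del)
  (hβC : ∀ i o γ x, ‖β (S.Tz hM hlb i o γ) x‖ ≤ C * (S.q (μ 0)).1 x)
  (hβ : ∀ z b x, β z (S.lX hM.left hlb b x) =
    D b (S.zv hM hlb x z) + β ((S.Zd hM hlb).act b z) x)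

include H hlc hC hβC hβ E in
/-- the approximate implementation -/
theorem approx (s : S.σ i) (a : A) (ha : ∀ y, r a y = S.b i s y) (m : M) :
    ‖S.Fav hM hlb β i (J0 i (l a m)) - D a m - S.Fav hM hlb β i (J0 i (r a m))‖ ≤
      2 * C * S.eps i * (μ 4).1 m := by
  have h1 := S.Fav_key hM hlb D β hC hβC hβ i s a ha (J0 i m)
  rw [ev_one_J0 H, ← J0_lX hlb hlc hM.left] at h1
  have h2 : ‖S.Fav hM hlb β i (S.lam i • ∑ j, S.tau (S.sg i (S.g i s j)) (J0 i m) -
      J0 i (S.b i s m))‖ ≤ C * (S.eps i * (μ 4).1 m) :=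
    (S.Fav_bound hM hlb β hC hβC i _).trans
      (mul_le_mul_of_nonneg_left (J0_diff H E s m) hC)
  have h3 : S.Fav hM hlb β i (J0 i (l a m)) - D a m - S.Fav hM hlb β i (J0 i (r a m)) =
      (S.Fav hM hlb β i (J0 i (l a m)) - D a m -
        S.lam i * ∑ j, S.Fav hM hlb β i (S.tau (S.sg i (S.g i s j)) (J0 i m))) +
      S.Fav hM hlb β i (S.lam i • ∑ j, S.tau (S.sg i (S.g i s j)) (J0 i m) -
        J0 i (S.b i s m)) := by
    rw [map_sub, map_smul, map_sum, smul_eq_mul, ha]
    ring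
  rw [h3]
  refine (norm_add_le _ _).trans ?_
  have h4 : C * S.eps i * (S.q (μ 0)).1 (J0 i m) ≤ C * S.eps i * (μ 4).1 m :=
    mul_le_mul_of_nonneg_left (q_J0_le H E m) (mul_nonneg hC (S.eps_pos i).le)
  calc _ ≤ C * S.eps i * (S.q (μ 0)).1 (J0 i m) + C * (S.eps i * (μ 4).1 m) := add_le_add h1 h2
    _ ≤ C * S.eps i * (μ 4).1 m + C * (S.eps i * (μ 4).1 m) := by linarith
    _ = 2 * C * S.eps i * (μ 4).1 m := by ring

end main

end Sys

end Pool.Agent.Lib.MP_0546f5_an.PN
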