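import Pool.Agent.Lib.MP_0546f5_an.PN.Semi

/-!
The topology of the (uncompleted) module tensor products.
-/

namespace Pool.Agent.Lib.MP_0546f5_an.PN

universe u

open Filter Topology
open scoped TensorProduct

section basic

variable {Λ Y X : Type u} [AddCommGroup Y] [Module ℂ Y] [UniformSpace Y]
  [AddCommGroup X] [Module ℂ X] [UniformSpace X] (R : Λ → Y → Y) (L : Λ → X → X)

instance : IsUniformAddGroup (PreTensor R L) :=
  isUniformAddGroup_iInf fun P : {P : Seminorm ℂ (Y ⊗[ℂ] X) // IsBalanced R L P} =>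
    @SeminormedAddCommGroup.to_isUniformAddGroup _ P.1.toSeminormedAddCommGroup

/-- the balanced seminorms as seminorms on `PreTensor` -/
def bsn (P : {P : Seminorm ℂ (Y ⊗[ℂ] X) // IsBalanced R L P}) : Seminorm ℂ (PreTensor R L) := P.1

lemma preTensor_withSeminorms : WithSeminorms (bsn R L) :=
  (SeminormFamily.withSeminorms_iff_uniformSpace_eq_iInf (bsn R L)).2 rfl

instance : PolynormableSpace ℂ (PreTensor R L) :=
  (preTensor_withSeminorms R L).toPolynormableSpace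

lemma continuous_bsn (P : Seminorm ℂ (Y ⊗[ℂ] X)) (hP : IsBalanced R L P) :
    Continuous (show Seminorm ℂ (PreTensor R L) from P) :=
  (preTensor_withSeminorms R L).continuous_seminorm ⟨P, hP⟩

lemma isBalanced_zero : IsBalanced R L (0 : Seminorm ℂ (Y ⊗[ℂ] X)) where
  cont := ⟨0, 0, continuous_const, continuous_const, fun y x => by simp⟩
  bal a y x := rfl

lemma IsBalanced.add {R : Λ → Y → Y} {L : Λ → X → X} {P Q : Seminorm ℂ (Y ⊗[ℂ] X)}
    (hP : IsBalanced R L P) (hQ : IsBalanced R L Q) : IsBalanced R L (P + Q) where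
  cont := by
    obtain ⟨p, q, hp, hq, h⟩ := hP.cont
    obtain ⟨p', q', hp', hq', h'⟩ := hQ.cont
    refine ⟨p + p', q + q', hp.add hp', hq.add hq', fun y x => ?_⟩
    refine (add_le_add (h y x) (h' y x)).trans ?_
    change p y * q x + p' y * q' x ≤ (p y + p' y) * (q x + q' x)
    nlinarith [mul_nonneg (apply_nonneg p y) (apply_nonneg q' x),
      mul_nonneg (apply_nonneg p' y) (apply_nonneg q x)]
  bal a y x := by
    change P _ + Q _ = 0
    rw [hP.bal, hQ.bal, add_zero]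

lemma IsBalanced.mono {R : Λ → Y → Y} {L : Λ → X → X} {P Q : Seminorm ℂ (Y ⊗[ℂ] X)}
    (hP : IsBalanced R L P) (h : ∀ t, Q t ≤ P t) : IsBalanced R L Q where
  cont := by
    obtain ⟨p, q, hp, hq, h'⟩ := hP.cont
    exact ⟨p, q, hp, hq, fun y x => (h _).trans (h' y x)⟩
  bal a y x := le_antisymm ((h _).trans (hP.bal a y x).le) (apply_nonneg _ _)

lemma IsBalanced.smul {R : Λ → Y → Y} {L : Λ → X → X} {P : Seminorm ℂ (Y ⊗[ℂ] X)}
    (hP : IsBalanced R L P) (c : NNReal) : IsBalanced R L (c • P) where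
  cont := by
    obtain ⟨p, q, hp, hq, h'⟩ := hP.cont
    refine ⟨c • p, q, Continuous.const_smul hp _, hq, fun y x => ?_⟩
    change (c : ℝ) * P _ ≤ (c : ℝ) * p y * q x
    rw [mul_assoc]
    exact mul_le_mul_of_nonneg_left (h' y x) c.2
  bal a y x := by
    change (c : ℝ) * P _ = 0
    rw [hP.bal, mul_zero]

lemma isBalanced_sum (s : Finset {P : Seminorm ℂ (Y ⊗[ℂ] X) // IsBalanced R L P}) :
    IsBalanced R L (∑ Q ∈ s, Q.1 : Seminorm ℂ (Y ⊗[ℂ] X)) := by
  classical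
  induction s using Finset.induction_on with
  | empty => rw [Finset.sum_empty]; exact isBalanced_zero R L
  | insert Q s hQ ih =>
    rw [Finset.sum_insert hQ]
    exact Q.2.add ih

/-- continuous seminorms on `PreTensor` are balanced -/
lemma isBalanced_of_continuous (P : Seminorm ℂ (Y ⊗[ℂ] X))
    (hP : Continuous (show Seminorm ℂ (PreTensor R L) from P)) : IsBalanced R L P := by
  obtain ⟨s, C, -, hC⟩ := Seminorm.bound_of_continuous (preTensor_withSeminorms R L)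
    (show Seminorm ℂ (PreTensor R L) from P) hP
  refine ((isBalanced_sum R L s).smul C).mono fun t => ?_
  refine (hC t).trans ?_
  change (C : ℝ) * (s.sup (bsn R L)) t ≤ (C : ℝ) * (∑ Q ∈ s, Q.1 : Seminorm ℂ (Y ⊗[ℂ] X)) t
  refine mul_le_mul_of_nonneg_left ?_ C.2
  exact Seminorm.finset_sup_le_sum (bsn R L) s t

end basic

section maps

variable {Λ X Y₁ Y₂ : Type u} [AddCommGroup X] [Module ℂ X] [UniformSpace X]
  [AddCommGroup Y₁] [Module ℂ Y₁] [UniformSpace Y₁]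
  [AddCommGroup Y₂] [Module ℂ Y₂] [UniformSpace Y₂]
  (R₁ : Λ → Y₁ → Y₁) (R₂ : Λ → Y₂ → Y₂) (L : Λ → X → X) (i : Y₁ →L[ℂ] Y₂)

/-- the map `i ⊗ 1` -/
noncomputable def preMap : PreTensor R₁ L →ₗ[ℂ] PreTensor R₂ L :=
  (TensorProduct.map (i : Y₁ →ₗ[ℂ] Y₂) (LinearMap.id : X →ₗ[ℂ] X) : Y₁ ⊗[ℂ] X →ₗ[ℂ] Y₂ ⊗[ℂ] X)

lemma ctMap_eq : ctMap R₁ R₂ L i = UniformSpace.Completion.map (preMap R₁ R₂ L i) := rfl

variable {R₁ R₂} in
lemma isBalanced_comp (hi : ∀ a y, i (R₁ a y) = R₂ a (i y)) {P : Seminorm ℂ (Y₂ ⊗[ℂ] X)}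
    (hP : IsBalanced R₂ L P) :
    IsBalanced R₁ L (P.comp (TensorProduct.map (i : Y₁ →ₗ[ℂ] Y₂) (LinearMap.id : X →ₗ[ℂ] X))) where
  cont := by
    obtain ⟨p, q, hp, hq, h⟩ := hP.cont
    exact ⟨p.comp (i : Y₁ →ₗ[ℂ] Y₂), q, hp.comp i.continuous, hq, fun y x => h (i y) x⟩
  bal a y x := by
    rw [Seminorm.comp_apply, map_sub, TensorProduct.map_tmul, TensorProduct.map_tmul]
    simp only [ContinuousLinearMap.coe_coe, LinearMap.id_apply]
    rw [hi, hP.bal]

variable {R₁ R₂} in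
lemma continuous_preMap (hi : ∀ a y, i (R₁ a y) = R₂ a (i y)) :
    Continuous (preMap R₁ R₂ L i) := by
  have key := continuous_of_bound (E := ℂ) (F := PreTensor R₁ L) (G := PreTensor R₂ L)
    (preTensor_withSeminorms R₂ L)
    (fun c y => c • preMap R₁ R₂ L i y) (fun c c' y => add_smul _ _ _)
    (fun c y y' => by rw [map_add, smul_add])
    (fun P => by
      refine ⟨normSeminorm ℂ ℂ, (bsn R₂ L P).comp (preMap R₁ R₂ L i), continuous_norm, ?_,
        fun a y => ?_⟩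
      · exact continuous_bsn R₁ L _ (isBalanced_comp L i hi P.2)
      · rw [map_smul_eq_mul]
        exact le_rfl)
  have : (preMap R₁ R₂ L i : PreTensor R₁ L → PreTensor R₂ L) =
      fun y => (1 : ℂ) • preMap R₁ R₂ L i y := by ext y; simp
  rw [this]
  exact key.comp (Continuous.prodMk continuous_const continuous_id)

variable {R₁ R₂} in
lemma uniformContinuous_preMap (hi : ∀ a y, i (R₁ a y) = R₂ a (i y)) :
    UniformContinuous (preMap R₁ R₂ L i) :=
  uniformContinuous_addMonoidHom_of_continuous (f := (preMap R₁ R₂ L i).toAddMonoidHom)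
    (continuous_preMap L i hi)

variable {R₁ R₂} in
lemma ctMap_coe (hi : ∀ a y, i (R₁ a y) = R₂ a (i y)) (t : PreTensor R₁ L) :
    ctMap R₁ R₂ L i (t : CTensor R₁ L) = (preMap R₁ R₂ L i t : CTensor R₂ L) := by
  rw [ctMap_eq, UniformSpace.Completion.map_coe (uniformContinuous_preMap L i hi)]

variable {R₁ R₂} in
lemma isInducing_preMap (hi : ∀ a y, i (R₁ a y) = R₂ a (i y))
    (h : IsEmbedding (ctMap R₁ R₂ L i)) : IsInducing (preMap R₁ R₂ L i) := by
  have h1 : IsInducing ((fun t : PreTensor R₂ L => (t : CTensor R₂ L)) ∘ preMap R₁ R₂ L i) := by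
    have : (fun t : PreTensor R₂ L => (t : CTensor R₂ L)) ∘ preMap R₁ R₂ L i =
        ctMap R₁ R₂ L i ∘ (fun t : PreTensor R₁ L => (t : CTensor R₁ L)) := by
      ext t
      exact (ctMap_coe L i hi t).symm
    rw [this]
    exact h.isInducing.comp (UniformSpace.Completion.isUniformInducing_coe _).isInducing
  exact IsInducing.of_comp (continuous_preMap L i hi)
    (UniformSpace.Completion.continuous_coe _) h1

variable {R₁ R₂} in
/-- domination of balanced seminorms -/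
lemma exists_dominating (hi : ∀ a y, i (R₁ a y) = R₂ a (i y))
    (h : IsEmbedding (ctMap R₁ R₂ L i)) {P : Seminorm ℂ (Y₁ ⊗[ℂ] X)} (hP : IsBalanced R₁ L P) :
    ∃ Q : Seminorm ℂ (Y₂ ⊗[ℂ] X), IsBalanced R₂ L Q ∧
      ∀ t, P t ≤ Q (TensorProduct.map (i : Y₁ →ₗ[ℂ] Y₂) (LinearMap.id : X →ₗ[ℂ] X) t) := by
  obtain ⟨Q, hQ, hPQ⟩ := Seminorm.exists_le_comp_of_isInducing (continuous_bsn R₁ L P hP)
    (isInducing_preMap L i hi h)
  exact ⟨Q, isBalanced_of_continuous R₂ L Q hQ, fun t => hPQ t⟩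

end maps

section extension

variable {Λ X Y₁ Y₂ : Type u} [AddCommGroup X] [Module ℂ X] [UniformSpace X]
  [AddCommGroup Y₁] [Module ℂ Y₁] [UniformSpace Y₁]
  [AddCommGroup Y₂] [Module ℂ Y₂] [UniformSpace Y₂]
  {R₁ : Λ → Y₁ → Y₁} {R₂ : Λ → Y₂ → Y₂} {L : Λ → X → X}

/-- extension of uniformly bounded families of balanced bilinear forms -/
theorem exists_extension_family (i : Y₁ →L[ℂ] Y₂) (r : Y₂ →L[ℂ] Y₁) (hr : ∀ y, r (i y) = y)
    (hi : ∀ a y, i (R₁ a y) = R₂ a (i y)) (h : IsEmbedding (ctMap R₁ R₂ L i)) {S : Type u}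
    (B : S → Y₁ →ₗ[ℂ] X →ₗ[ℂ] ℂ) (p : CS Y₁) (q : CS X)
    (hB : ∀ s y x, ‖B s y x‖ ≤ p.1 y * q.1 x) (hbal : ∀ s a y x, B s (R₁ a y) x = B s y (L a x)) :
    ∃ (B' : S → Y₂ →ₗ[ℂ] X →ₗ[ℂ] ℂ) (p' : CS Y₂) (q' : CS X),
      (∀ s y x, ‖B' s y x‖ ≤ p'.1 y * q'.1 x) ∧ (∀ s a y x, B' s (R₂ a y) x = B' s y (L a x)) ∧
      ∀ s y x, B' s (i y) x = B s y x := by
  -- the seminorm on `Y₁ ⊗ X`
  have hbdd : ∀ t : Y₁ ⊗[ℂ] X, BddAbove (Set.range fun s => ‖TensorProduct.lift (B s) t‖) := by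
    intro t
    induction t using TensorProduct.induction_on with
    | zero => exact ⟨0, by rintro _ ⟨s, rfl⟩; simp⟩
    | tmul y x => exact ⟨p.1 y * q.1 x, by rintro _ ⟨s, rfl⟩; simpa using hB s y x⟩
    | add t t' ht ht' =>
      obtain ⟨a, ha⟩ := ht
      obtain ⟨b, hb⟩ := ht'
      refine ⟨a + b, ?_⟩
      rintro _ ⟨s, rfl⟩
      simp only [map_add]
      exact (norm_add_le _ _).trans (add_le_add (ha ⟨s, rfl⟩) (hb ⟨s, rfl⟩))
  let P : Seminorm ℂ (Y₁ ⊗[ℂ] X) := Seminorm.of (fun t => ⨆ s, ‖TensorProduct.lift (B s) t‖)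
    (by
      intro t t'
      refine Real.iSup_le (fun s => ?_) (add_nonneg (Real.iSup_nonneg fun _ => norm_nonneg _)
        (Real.iSup_nonneg fun _ => norm_nonneg _))
      rw [map_add]
      exact (norm_add_le _ _).trans (add_le_add (le_ciSup (hbdd t) s) (le_ciSup (hbdd t') s)))
    (by
      intro c t
      rw [Real.mul_iSup_of_nonneg (norm_nonneg _)]
      congr 1
      ext s
      rw [map_smul, norm_smul])
  have hP : ∀ t s, ‖TensorProduct.lift (B s) t‖ ≤ P t := fun t s => le_ciSup (hbdd t) s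
  have hPb : IsBalanced R₁ L P := by
    refine ⟨⟨p.1, q.1, p.2, q.2, fun y x => ?_⟩, fun a y x => ?_⟩
    · refine Real.iSup_le (fun s => ?_) (mul_nonneg (apply_nonneg _ _) (apply_nonneg _ _))
      simpa using hB s y x
    · refine le_antisymm (Real.iSup_le (fun s => ?_) le_rfl) (apply_nonneg _ _)
      rw [map_sub, TensorProduct.lift.tmul, TensorProduct.lift.tmul, hbal, sub_self, norm_zero]
  obtain ⟨Q, hQ, hPQ⟩ := exists_dominating L i hi h hPb
  obtain ⟨p', q', hp', hq', hpq'⟩ := hQ.cont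
  -- extension of each functional
  have hext : ∀ s, ∃ g : Y₂ ⊗[ℂ] X →ₗ[ℂ] ℂ, (∀ t, g (TensorProduct.map (i : Y₁ →ₗ[ℂ] Y₂)
      (LinearMap.id : X →ₗ[ℂ] X) t) = TensorProduct.lift (B s) t) ∧ ∀ t, ‖g t‖ ≤ Q t := by
    intro s
    let I := TensorProduct.map (i : Y₁ →ₗ[ℂ] Y₂) (LinearMap.id : X →ₗ[ℂ] X)
    let J := TensorProduct.map (r : Y₂ →ₗ[ℂ] Y₁) (LinearMap.id : X →ₗ[ℂ] X)
    have hJI : ∀ t, J (I t) = t := by
      intro t
      have : J ∘ₗ I = LinearMap.id := by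
        refine TensorProduct.ext' fun y x => ?_
        simp only [I, J, LinearMap.comp_apply, TensorProduct.map_tmul, LinearMap.id_apply,
          ContinuousLinearMap.coe_coe, hr]
      exact congrArg (fun f => f t) this
    obtain ⟨g, hg, hgQ⟩ := Module.Dual.exists_extension_of_le_seminorm (LinearMap.range I)
      ((TensorProduct.lift (B s)).comp (J.comp (LinearMap.range I).subtype)) (p := Q) (by
        rintro ⟨_, ⟨t, rfl⟩⟩
        change ‖TensorProduct.lift (B s) (J (I t))‖ ≤ Q (I t)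
        rw [hJI]
        exact (hP t s).trans (hPQ t))
    refine ⟨g, fun t => ?_, hgQ⟩
    have := hg ⟨I t, ⟨t, rfl⟩⟩
    rw [this]
    change TensorProduct.lift (B s) (J (I t)) = _
    rw [hJI]
  choose g hg hgQ using hext
  refine ⟨fun s => TensorProduct.curry (g s), ⟨p', hp'⟩, ⟨q', hq'⟩, fun s y x => ?_,
    fun s a y x => ?_, fun s y x => ?_⟩
  · rw [TensorProduct.curry_apply]
    exact (hgQ s _).trans (hpq' y x)
  · rw [TensorProduct.curry_apply, TensorProduct.curry_apply, ← sub_eq_zero, ← map_sub,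
      ← norm_le_zero_iff]
    exact (hgQ s _).trans (hQ.bal a y x).le
  · rw [TensorProduct.curry_apply]
    have := hg s (y ⊗ₜ[ℂ] x)
    rw [TensorProduct.map_tmul, TensorProduct.lift.tmul] at this
    exact this

end extension

end Pool.Agent.Lib.MP_0546f5_an.PN
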