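import Pool.Agent.Lib.MP_0546f5_an.PN.Twist
import Pool.Agent.Lib.MP_0546f5_an.PN.Tensor

/-!
Use of flatness.
-/

namespace Pool.Agent.Lib.MP_0546f5_an.PN

universe u v

open Filter Topology
open scoped TensorProduct

instance {E : Type u} {F : Type v} [AddCommGroup E] [Module ℂ E] [UniformSpace E] [IsPolynormed E]
    [AddCommGroup F] [Module ℂ F] [UniformSpace F] [IsPolynormed F] : IsPolynormed (E × F) where

instance : IsPolynormed ℂ where

variable {A : Type u} [NonUnitalRing A] [Module ℂ A] [IsScalarTower ℂ A A]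
  [SMulCommClass ℂ A A] [UniformSpace A] [IsPolynormed A] [ContinuousMul A]
variable {M : Type u} [AddCommGroup M] [Module ℂ M] [UniformSpace M] [IsPolynormed M]
variable {lM rM : A → M → M}
variable {X : Type u} [AddCommGroup X] [Module ℂ X] [UniformSpace X] [IsPolynormed X]
variable {lX : A → X → X} (hlX : IsLeftModule lX) (hM : IsBimodule lM rM) (q : CS M → CS X)
variable {S : Type u} {D : S → A → M → ℂ} {pD : CS A} {μ : CS M} (hD : DerFam lM rM D pD μ)

omit [IsPolynormed X] in
include hlX hD in
/-- consequence of flatness -/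
theorem exists_beta (hflat : IsFlatLeft A X lX) :
    ∃ (β : S → (zData lX hM q).Sp →ₗ[ℂ] X →ₗ[ℂ] ℂ) (ζ : CS (zData lX hM q).Sp) (ρ : CS X),
      (∀ s z x, ‖β s z x‖ ≤ ζ.1 z * ρ.1 x) ∧
      ∀ s z b x, β s z (lX b x) = D s b (zev lX hM q x z) + β s ((zData lX hM q).act b z) x := by
  let V := (vD S hlX hM q pD μ).Sp
  let Z := (zData lX hM q).Sp
  let B : S → V →ₗ[ℂ] X →ₗ[ℂ] ℂ := fun s =>
    LinearMap.mk₂ ℂ (fun (v : V) (x : X) => vev S hlX (q (mR hM.right μ)) pD s x v)
      (fun v v' x => map_add _ _ _) (fun c v x => map_smul _ _ _)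
      (fun v x x' => vev_add S hlX _ pD s x x' v) (fun c v x => vev_smul S hlX _ pD s c x v)
  have hexact := hflat V (V × Z) Z (vD S hlX hM q pD μ).act (act2 hlX hM q hD)
    (zData lX hM q).act (ContinuousLinearMap.inl ℂ V Z) (ContinuousLinearMap.snd ℂ V Z)
    (vD S hlX hM q pD μ).isRightModule (isRightModule_act2 hlX hM q hD)
    (zData lX hM q).isRightModule
    (by
      intro a v
      have h0 : delta hlX hM q hD a 0 = 0 := by
        have := delta_smul_right hlX hM q hD 0 a 0
        rwa [zero_smul, zero_smul] at this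
      have h1 : (zData lX hM q).act a 0 = 0 := by
        have := (zData lX hM q).isRightModule.smul_right 0 a 0
        rwa [zero_smul, zero_smul] at this
      refine Prod.ext ?_ ?_
      · change _ = (vD S hlX hM q pD μ).act a v + delta hlX hM q hD a 0
        rw [h0, add_zero]
        rfl
      · exact h1.symm)
    (by intro a y; rfl)
    ⟨ContinuousLinearMap.fst ℂ V Z, ContinuousLinearMap.inr ℂ V Z, fun _ => rfl, fun _ => rfl,
      fun _ => rfl, fun y => by
        refine Prod.ext ?_ ?_
        · simp
        · simp⟩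
  obtain ⟨B', p', q', hB', hbal', hext'⟩ := exists_extension_family
    (R₁ := (vD S hlX hM q pD μ).act) (R₂ := act2 hlX hM q hD) (L := lX)
    (ContinuousLinearMap.inl ℂ V Z) (ContinuousLinearMap.fst ℂ V Z) (fun _ => rfl)
    (by
      intro a v
      have h0 : delta hlX hM q hD a 0 = 0 := by
        have := delta_smul_right hlX hM q hD 0 a 0
        rwa [zero_smul, zero_smul] at this
      have h1 : (zData lX hM q).act a 0 = 0 := by
        have := (zData lX hM q).isRightModule.smul_right 0 a 0
        rwa [zero_smul, zero_smul] at this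
      refine Prod.ext ?_ ?_
      · change _ = (vD S hlX hM q pD μ).act a v + delta hlX hM q hD a 0
        rw [h0, add_zero]
        rfl
      · exact h1.symm)
    hexact.isEmbedding B ⟨vp S hlX (q (mR hM.right μ)) pD, continuous_vp S hlX _ pD⟩
    (q (mR hM.right μ)) (fun s v x => vev_le S hlX _ pD s x v) (fun s a v x => rfl)
  refine ⟨fun s => (B' s).comp (LinearMap.inr ℂ V Z),
    ⟨p'.1.comp (LinearMap.inr ℂ V Z), p'.2.comp (ContinuousLinearMap.inr ℂ V Z).continuous⟩, q',
    fun s z x => hB' s (0, z) x, fun s z b x => ?_⟩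
  have h1 := hbal' s b ((0, z) : V × Z) x
  have h2 : act2 hlX hM q hD b ((0, z) : V × Z) =
      ContinuousLinearMap.inl ℂ V Z (delta hlX hM q hD b z) +
        LinearMap.inr ℂ V Z ((zData lX hM q).act b z) := by
    have h0 : (vD S hlX hM q pD μ).act b 0 = 0 := by
      have := (vD S hlX hM q pD μ).isRightModule.smul_right 0 b 0
      rwa [zero_smul, zero_smul] at this
    refine Prod.ext ?_ ?_
    · change (vD S hlX hM q pD μ).act b 0 + delta hlX hM q hD b z = delta hlX hM q hD b z + 0
      rw [h0, zero_add, add_zero]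
    · change (zData lX hM q).act b z = 0 + (zData lX hM q).act b z
      rw [zero_add]
  rw [h2, map_add, LinearMap.add_apply, hext'] at h1
  exact h1.symm

end Pool.Agent.Lib.MP_0546f5_an.PN
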