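import Pool.Agent.Lib.MP_0546f5_an.PN.Beta

/-!
The big left module: a space of bounded `M`-valued functions.
-/

namespace Pool.Agent.Lib.MP_0546f5_an.PN

universe u

open Filter Topology

/-- approximation data -/
structure Sys (M : Type u) [AddCommGroup M] [Module ℂ M] [UniformSpace M] where
  /-- index set -/
  ι : Type u
  /-- finite groups -/
  G : ι → Type u
  grp : ∀ i, Group (G i)
  fin : ∀ i, Fintype (G i)
  /-- finite sets of algebra elements -/
  σ : ι → Type u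
  finσ : ∀ i, Finite (σ i)
  /-- copies -/
  J : ι → Type
  finJ : ∀ i, Fintype (J i)
  /-- generators -/
  g : ∀ i, σ i → J i → G i
  /-- right multiplications -/
  b : ∀ i, σ i → M →ₗ[ℂ] M
  b_cont : ∀ i s, Continuous (b i s)
  lam : ι → ℂ
  eps : ι → ℝ
  eps_pos : ∀ i, 0 < eps i
  c : ∀ i, G i → M →ₗ[ℂ] M

namespace Sys

variable {M : Type u} [AddCommGroup M] [Module ℂ M] [UniformSpace M] (S : Sys M)

instance (i : S.ι) : Group (S.G i) := S.grp i
instance (i : S.ι) : Fintype (S.G i) := S.fin i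
instance (i : S.ι) : Finite (S.σ i) := S.finσ i
instance (i : S.ι) : Fintype (S.J i) := S.finJ i
noncomputable instance : DecidableEq S.ι := Classical.decEq _

/-- index set of coordinates -/
abbrev κ : Type u := Σ i : S.ι, S.G i × Option (S.σ i)

/-- the defining relation -/
def Rel (f : S.κ → M) : Prop :=
  ∀ (i : S.ι) (h : S.G i) (s : S.σ i),
    (S.eps i : ℂ) • f ⟨i, (h, some s)⟩ =
      S.lam i • ∑ j, f ⟨i, (h * S.g i s j, none)⟩ - S.b i s (f ⟨i, (h, none)⟩)

/-- functions satisfying the relation -/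
def Csub : Submodule ℂ (S.κ → M) where
  carrier := {φ | S.Rel φ}
  add_mem' := by
    intro φ ψ hφ hψ i h s
    have h1 := hφ i h s
    have h2 := hψ i h s
    simp only [Pi.add_apply, smul_add, Finset.sum_add_distrib, map_add] at *
    rw [h1, h2]
    abel
  zero_mem' := by
    intro i h s
    simp
  smul_mem' := by
    intro c φ hφ i h s
    have h1 := hφ i h s
    simp only [Pi.smul_apply, map_smul, ← Finset.smul_sum] at *
    rw [smul_comm, h1, smul_sub, smul_comm c]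

variable [IsPolynormed M]

lemma isClosed_Csub : IsClosed (S.Csub : Set (S.κ → M)) := by
  have : (S.Csub : Set (S.κ → M)) = ⋂ i, ⋂ h, ⋂ s, {φ | (S.eps i : ℂ) • φ ⟨i, (h, some s)⟩ =
      S.lam i • ∑ j, φ ⟨i, (h * S.g i s j, none)⟩ - S.b i s (φ ⟨i, (h, none)⟩)} := by
    ext φ
    simp only [Set.mem_iInter]
    rfl
  have hsm : ContinuousSMul ℂ M := (PolynormableSpace.withSeminorms ℂ M).continuousSMul
  rw [this]
  refine isClosed_iInter fun i => isClosed_iInter fun h => isClosed_iInter fun s =>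
    isClosed_eq ?_ ?_
  · exact (continuous_apply _).const_smul _
  · refine Continuous.sub (Continuous.const_smul ?_ _) ?_
    · exact continuous_finsetSum _ fun j _ => continuous_apply _
    · exact (S.b_cont i s).comp (continuous_apply _)

/-- the data of the big module -/
noncomputable def dat : SupData S.κ M where
  C := S.Csub
  closed := S.isClosed_Csub
  J := CS M
  T _ := S.κ
  sn m k := m.1.comp (LinearMap.proj k)
  cont m k := m.2.comp (continuous_apply k)
  dom := by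
    intro k m hm
    refine ⟨{⟨m, hm⟩}, 1, fun y _ hb => ?_⟩
    rw [Finset.sum_singleton, one_mul]
    exact le_ciSup (hb ⟨m, hm⟩) k

/-- the big module -/
abbrev X : Type u := S.dat.Sp

/-- its seminorms -/
noncomputable def q (m : CS M) : CS S.X := ⟨S.dat.p m, S.dat.continuous_p m⟩

/-- evaluation -/
noncomputable def ev (k : S.κ) : S.X →ₗ[ℂ] M := S.dat.ev k

lemma ev_le (m : CS M) (k : S.κ) (x : S.X) : m.1 (S.ev k x) ≤ (S.q m).1 x := S.dat.sn_le m k x

lemma q_le {m : CS M} {x : S.X} {C : ℝ} (hC : 0 ≤ C) (h : ∀ k, m.1 (S.ev k x) ≤ C) :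
    (S.q m).1 x ≤ C := S.dat.p_le hC h

lemma ext {x y : S.X} (h : ∀ k, S.ev k x = S.ev k y) : x = y := S.dat.ext h

lemma rel (x : S.X) (i : S.ι) (h : S.G i) (s : S.σ i) :
    (S.eps i : ℂ) • S.ev ⟨i, (h, some s)⟩ x =
      S.lam i • ∑ j, S.ev ⟨i, (h * S.g i s j, none)⟩ x - S.b i s (S.ev ⟨i, (h, none)⟩ x) :=
  S.dat.fn_mem x i h s

/-- constructor -/
noncomputable def mkX (f : S.κ → M) (hb : ∀ m : CS M, BddAbove (Set.range fun k => m.1 (f k)))
    (hr : S.Rel f) : S.X := S.dat.mkSp f hr hb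

@[simp] lemma ev_mkX (f : S.κ → M) (hb : ∀ m : CS M, BddAbove (Set.range fun k => m.1 (f k)))
    (hr : S.Rel f) (k : S.κ) : S.ev k (S.mkX f hb hr) = f k := rfl

section action

variable {A : Type u} [NonUnitalRing A] [Module ℂ A] [IsScalarTower ℂ A A]
  [SMulCommClass ℂ A A] [UniformSpace A] [IsPolynormed A] [ContinuousMul A]
variable {l : A → M → M} (hl : IsLeftModule l)
  (hlb : ∀ i s a m, l a (S.b i s m) = S.b i s (l a m))

omit [IsScalarTower ℂ A A] [SMulCommClass ℂ A A] [ContinuousMul A] in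
lemma exists_left (hl : IsLeftModule l) (m : CS M) : ∃ (p : CS A) (m' : CS M),
    ∀ a x, m.1 (l a x) ≤ p.1 a * m'.1 x := by
  obtain ⟨p, q, hp, hq, h⟩ := exists_bound_map l hl.smul_left hl.smul_right hl.continuous m.1 m.2
  exact ⟨⟨p, hp⟩, ⟨q, hq⟩, h⟩

/-- the left action, pointwise -/
noncomputable def lX (hl : IsLeftModule l) (hlb : ∀ i s a m, l a (S.b i s m) = S.b i s (l a m))
    (a : A) (x : S.X) : S.X :=
  S.mkX (fun k => l a (S.ev k x))
    (fun m => by
      obtain ⟨p, m', h⟩ := exists_left hl m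
      refine ⟨p.1 a * (S.q m').1 x, ?_⟩
      rintro _ ⟨k, rfl⟩
      exact (h a _).trans (mul_le_mul_of_nonneg_left (S.ev_le m' k x) (apply_nonneg _ _)))
    (by
      intro i h s
      have := congrArg (hl.lin a) (S.rel x i h s)
      rw [map_smul, map_sub, map_smul, map_sum] at this
      simp only [IsLeftModule.lin_apply] at this
      rw [hlb] at this
      exact this)

omit [IsScalarTower ℂ A A] [SMulCommClass ℂ A A] [ContinuousMul A] in
@[simp] lemma ev_lX (a : A) (x : S.X) (k : S.κ) : S.ev k (S.lX hl hlb a x) = l a (S.ev k x) :=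
  rfl

omit [IsScalarTower ℂ A A] [SMulCommClass ℂ A A] [ContinuousMul A] in
theorem isLeftModule_lX : IsLeftModule (S.lX hl hlb) where
  add_left a b x := by
    apply S.ext; intro k; simp only [ev_lX, map_add, hl.add_left]
  smul_left c a x := by
    apply S.ext; intro k; simp only [ev_lX, map_smul, hl.smul_left]
  add_right a x y := by
    apply S.ext; intro k; simp only [ev_lX, map_add, hl.add_right]
  smul_right c a x := by
    apply S.ext; intro k; simp only [ev_lX, map_smul, hl.smul_right]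
  mul a b x := by
    apply S.ext; intro k; simp only [ev_lX, hl.mul]
  continuous := by
    refine continuous_of_bound S.dat.withSeminorms (S.lX hl hlb)
      (fun a b x => by apply S.ext; intro k; simp only [ev_lX, map_add, hl.add_left])
      (fun a x y => by apply S.ext; intro k; simp only [ev_lX, map_add, hl.add_right]) ?_
    intro m
    obtain ⟨p, m', h⟩ := exists_left hl m
    refine ⟨p.1, (S.q m').1, p.2, (S.q m').2, fun a x => ?_⟩
    refine S.q_le (m := m) (mul_nonneg (apply_nonneg _ _) (apply_nonneg _ _)) fun k => ?_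
    rw [ev_lX]
    exact (h a _).trans (mul_le_mul_of_nonneg_left (S.ev_le m' k x) (apply_nonneg _ _))

end action

/-- translation by an element of the product group -/
noncomputable def tau (γ : ∀ i, S.G i) : S.X →ₗ[ℂ] S.X where
  toFun x := S.mkX (fun k => S.ev ⟨k.1, (γ k.1 * k.2.1, k.2.2)⟩ x)
    (fun m => ⟨(S.q m).1 x, by rintro _ ⟨k, rfl⟩; exact S.ev_le m _ x⟩)
    (by
      intro i h s
      have := S.rel x i (γ i * h) s
      simpa [mul_assoc] using this)
  map_add' := by intro x y; apply S.ext; intro k; simp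
  map_smul' := by intro c x; apply S.ext; intro k; simp

@[simp] lemma ev_tau (γ : ∀ i, S.G i) (x : S.X) (k : S.κ) :
    S.ev k (S.tau γ x) = S.ev ⟨k.1, (γ k.1 * k.2.1, k.2.2)⟩ x := rfl

lemma q_tau_le (m : CS M) (γ : ∀ i, S.G i) (x : S.X) : (S.q m).1 (S.tau γ x) ≤ (S.q m).1 x :=
  S.q_le (apply_nonneg _ _) fun _ => S.ev_le m _ x

lemma tau_tau (γ γ' : ∀ i, S.G i) (x : S.X) : S.tau γ (S.tau γ' x) = S.tau (γ' * γ) x := by
  apply S.ext
  intro k
  simp [mul_assoc]

@[simp] lemma tau_one (x : S.X) : S.tau 1 x = x := by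
  apply S.ext
  intro k
  simp

/-- single element of the product group -/
noncomputable abbrev sg (i : S.ι) (h : S.G i) : ∀ i, S.G i := Pi.mulSingle i h

section main

variable {A : Type u} [NonUnitalRing A] [Module ℂ A] [IsScalarTower ℂ A A]
  [SMulCommClass ℂ A A] [UniformSpace A] [IsPolynormed A] [ContinuousMul A]
variable {l r : A → M → M} (hM : IsBimodule l r)
  (hlb : ∀ i s a m, l a (S.b i s m) = S.b i s (l a m))

omit [IsScalarTower ℂ A A] [SMulCommClass ℂ A A] [ContinuousMul A] in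
lemma tau_lX (hl : IsLeftModule l) (hlb : ∀ i s a m, l a (S.b i s m) = S.b i s (l a m))
    (γ : ∀ i, S.G i) (a : A) (x : S.X) :
    S.tau γ (S.lX hl hlb a x) = S.lX hl hlb a (S.tau γ x) := by
  apply S.ext
  intro k
  simp

/-- the right module of maps from the big module -/
noncomputable abbrev Zd : SmData A S.X M := zData (S.lX hM.left hlb) hM S.q

/-- evaluation of elements of `Z` -/
noncomputable abbrev zv (x : S.X) : (S.Zd hM hlb).Sp →ₗ[ℂ] M := zev (S.lX hM.left hlb) hM S.q x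

/-- evaluation at `(1, o)` after a translation, as an element of `Z` -/
noncomputable def Tz (i : S.ι) (o : Option (S.σ i)) (γ : ∀ i, S.G i) : (S.Zd hM hlb).Sp :=
  zmk hM S.q (fun x => S.ev ⟨i, (1, o)⟩ (S.tau γ x))
    ⟨fun x y => by simp only [map_add], fun c x => by simp only [map_smul],
      fun a x => by simp only [S.tau_lX hM.left hlb, ev_lX]⟩
    (fun m x => (S.ev_le m _ _).trans (S.q_tau_le m γ x))

lemma zv_Tz (i : S.ι) (o : Option (S.σ i)) (γ : ∀ i, S.G i) (x : S.X) :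
    S.zv hM hlb x (S.Tz hM hlb i o γ) = S.ev ⟨i, (1, o)⟩ (S.tau γ x) := rfl

lemma p_Tz_le (j : (S.Zd hM hlb).sup.J) (i : S.ι) (o : Option (S.σ i)) (γ : ∀ i, S.G i) :
    (S.Zd hM hlb).sup.p j (S.Tz hM hlb i o γ) ≤ 1 := by
  obtain ⟨m, ⟨n⟩⟩ := j
  exact zp_zmk_le hM S.q _ _ _ m n

lemma exists_Tz_bound (ζ : CS (S.Zd hM hlb).Sp) : ∃ C : ℝ, 0 ≤ C ∧
    ∀ i o γ, ζ.1 (S.Tz hM hlb i o γ) ≤ C := by
  obtain ⟨s, C, -, hC⟩ := Seminorm.bound_of_continuous (S.Zd hM hlb).sup.withSeminorms ζ.1 ζ.2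
  refine ⟨C, C.2, fun i o γ => (hC _).trans ?_⟩
  change (C : ℝ) * (s.sup (S.Zd hM hlb).sup.p) (S.Tz hM hlb i o γ) ≤ C
  refine mul_le_of_le_one_right C.2 ?_
  exact Seminorm.finset_sup_apply_le zero_le_one fun j _ => S.p_Tz_le hM hlb j i o γ

lemma exists_rho_bound (ρ : CS S.X) : ∃ (C : ℝ) (m₀ : CS M), 0 ≤ C ∧
    ∀ x, ρ.1 x ≤ C * (S.q m₀).1 x := by
  obtain ⟨s, C, -, hC⟩ := Seminorm.bound_of_continuous S.dat.withSeminorms ρ.1 ρ.2
  refine ⟨C, ⟨∑ m ∈ s, m.1, Seminorm.continuous_finsetSum fun m _ => m.2⟩, C.2,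
    fun x => (hC _).trans ?_⟩
  change (C : ℝ) * (s.sup S.dat.p) x ≤ (C : ℝ) * _
  refine mul_le_mul_of_nonneg_left ?_ C.2
  refine Seminorm.finset_sup_apply_le (apply_nonneg _ _) fun m hm => ?_
  refine S.q_le (m := m) (apply_nonneg _ _) fun k => ?_
  refine le_trans ?_ (S.ev_le _ k x)
  change m.1 (S.ev k x) ≤ (∑ m ∈ s, m.1) (S.ev k x)
  rw [sum_apply]
  exact Finset.single_le_sum (f := fun m : CS M => m.1 (S.ev k x)) (fun _ _ => apply_nonneg _ _) hm

end main

section fav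

variable {A : Type u} [NonUnitalRing A] [Module ℂ A] [IsScalarTower ℂ A A]
  [SMulCommClass ℂ A A] [UniformSpace A] [IsPolynormed A] [ContinuousMul A]
variable {l r : A → M → M} (hM : IsBimodule l r)
  (hlb : ∀ i s a m, l a (S.b i s m) = S.b i s (l a m))
  (D : A → M → ℂ)
  (β : (S.Zd hM hlb).Sp →ₗ[ℂ] S.X →ₗ[ℂ] ℂ) {C : ℝ} {m₀ : CS M} (hC : 0 ≤ C)
  (hβC : ∀ i o γ x, ‖β (S.Tz hM hlb i o γ) x‖ ≤ C * (S.q m₀).1 x)
  (hβ : ∀ z b x, β z (S.lX hM.left hlb b x) =
    D b (S.zv hM hlb x z) + β ((S.Zd hM hlb).act b z) x)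

/-- the averaged functional -/
noncomputable def Fav (i : S.ι) : S.X →ₗ[ℂ] ℂ :=
  ((Fintype.card (S.G i) : ℂ))⁻¹ • ∑ h : S.G i,
    (β (S.Tz hM hlb i none (S.sg i h⁻¹))).comp (S.tau (S.sg i h))

lemma Fav_apply (i : S.ι) (x : S.X) :
    S.Fav hM hlb β i x = ((Fintype.card (S.G i) : ℂ))⁻¹ * ∑ h : S.G i,
      β (S.Tz hM hlb i none (S.sg i h⁻¹)) (S.tau (S.sg i h) x) := by
  simp [Fav]

omit [IsPolynormed M] in
lemma card_ne (i : S.ι) : (Fintype.card (S.G i) : ℂ) ≠ 0 := by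
  have : Fintype.card (S.G i) ≠ 0 := Fintype.card_ne_zero
  exact_mod_cast this

omit [IsPolynormed M] in
/-- average of bounded terms is bounded -/
lemma avg_bound (i : S.ι) (u : S.G i → ℂ) {K : ℝ} (hu : ∀ h, ‖u h‖ ≤ K) :
    ‖((Fintype.card (S.G i) : ℂ))⁻¹ * ∑ h, u h‖ ≤ K := by
  have hc : (0 : ℝ) < Fintype.card (S.G i) := by exact_mod_cast Fintype.card_pos
  rw [norm_mul, norm_inv, Complex.norm_natCast, inv_mul_le_iff₀ hc]
  refine (norm_sum_le _ _).trans ((Finset.sum_le_sum fun h _ => hu h).trans ?_)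
  simp

include hC hβC in
lemma beta_bound (i : S.ι) (o : Option (S.σ i)) (γ γ' : ∀ i, S.G i) (x : S.X) :
    ‖β (S.Tz hM hlb i o γ) (S.tau γ' x)‖ ≤ C * (S.q m₀).1 x :=
  (hβC _ _ _ _).trans (mul_le_mul_of_nonneg_left (S.q_tau_le m₀ γ' x) hC)

include hC hβC in
lemma Fav_bound (i : S.ι) (x : S.X) : ‖S.Fav hM hlb β i x‖ ≤ C * (S.q m₀).1 x := by
  rw [Fav_apply]
  exact S.avg_bound i _ fun h => S.beta_bound hM hlb β hC hβC i none _ _ x

include hβ hC hβC in
/-- the key identity -/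
lemma Fav_key (i : S.ι) (s : S.σ i) (a : A) (ha : ∀ y, r a y = S.b i s y) (x : S.X) :
    ‖S.Fav hM hlb β i (S.lX hM.left hlb a x) - D a (S.ev ⟨i, (1, none)⟩ x) -
      S.lam i * ∑ j, S.Fav hM hlb β i (S.tau (S.sg i (S.g i s j)) x)‖ ≤
      C * S.eps i * (S.q m₀).1 x := by
  have hN := S.card_ne i
  -- decomposition of the twisted functional
  have hdec : ∀ h : S.G i, (S.Zd hM hlb).act a (S.Tz hM hlb i none (S.sg i h⁻¹)) =
      S.lam i • ∑ j, S.Tz hM hlb i none (S.sg i (h⁻¹ * S.g i s j)) -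
        (S.eps i : ℂ) • S.Tz hM hlb i (some s) (S.sg i h⁻¹) := by
    intro h
    refine (S.Zd hM hlb).sup.ext fun y => ?_
    change S.zv hM hlb y _ = S.zv hM hlb y _
    have e1 := S.rel (S.tau (S.sg i h⁻¹) y) i 1 s
    rw [map_sub, map_smul, map_smul, map_sum]
    simp only [zv_Tz]
    change r a (S.zv hM hlb y (S.Tz hM hlb i none (S.sg i h⁻¹))) = _
    rw [ha, zv_Tz, e1]
    simp [Pi.mulSingle_eq_same]
  have hterm : ∀ h : S.G i,
      β (S.Tz hM hlb i none (S.sg i h⁻¹)) (S.tau (S.sg i h) (S.lX hM.left hlb a x)) =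
      D a (S.ev ⟨i, (1, none)⟩ x) +
      (S.lam i * ∑ j, β (S.Tz hM hlb i none (S.sg i (h⁻¹ * S.g i s j))) (S.tau (S.sg i h) x) -
       (S.eps i : ℂ) * β (S.Tz hM hlb i (some s) (S.sg i h⁻¹)) (S.tau (S.sg i h) x)) := by
    intro h
    rw [S.tau_lX, hβ, hdec]
    congr 1
    · rw [zv_Tz, S.tau_tau]
      congr 2
      have : (S.sg i h * S.sg i h⁻¹ : ∀ i, S.G i) = 1 := by
        unfold sg
        rw [← Pi.mulSingle_mul, mul_inv_cancel, Pi.mulSingle_one]
      rw [this, S.tau_one]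
    · simp [map_sub, map_smul, map_sum, LinearMap.sum_apply]
  have hreidx : ∀ k : S.G i,
      ∑ h : S.G i, β (S.Tz hM hlb i none (S.sg i (h⁻¹ * k))) (S.tau (S.sg i h) x) =
      ∑ h : S.G i, β (S.Tz hM hlb i none (S.sg i h⁻¹)) (S.tau (S.sg i h) (S.tau (S.sg i k) x)) := by
    intro k
    rw [← Equiv.sum_comp (Equiv.mulLeft k) (fun h : S.G i =>
      β (S.Tz hM hlb i none (S.sg i (h⁻¹ * k))) (S.tau (S.sg i h) x))]
    refine Finset.sum_congr rfl fun h _ => ?_
    rw [S.tau_tau]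
    have e1 : (Equiv.mulLeft k h)⁻¹ * k = h⁻¹ := by simp
    have e2 : (S.sg i k * S.sg i h : ∀ i, S.G i) = S.sg i (Equiv.mulLeft k h) := by
      unfold sg
      rw [← Pi.mulSingle_mul]
      rfl
    rw [e1, e2]
  have hmain : S.Fav hM hlb β i (S.lX hM.left hlb a x) - D a (S.ev ⟨i, (1, none)⟩ x) -
      S.lam i * ∑ j, S.Fav hM hlb β i (S.tau (S.sg i (S.g i s j)) x) =
      ((Fintype.card (S.G i) : ℂ))⁻¹ * ∑ h : S.G i,
        (-((S.eps i : ℂ) * β (S.Tz hM hlb i (some s) (S.sg i h⁻¹)) (S.tau (S.sg i h) x))) := by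
    simp only [Fav_apply, hterm, Finset.sum_add_distrib, Finset.sum_sub_distrib,
      Finset.sum_const, Finset.card_univ, nsmul_eq_mul, Finset.sum_neg_distrib,
      ← Finset.mul_sum]
    rw [Finset.sum_comm]
    simp only [hreidx]
    field_simp
    ring
  rw [hmain]
  refine S.avg_bound i _ fun h => ?_
  rw [norm_neg, norm_mul, Complex.norm_real, Real.norm_of_nonneg (S.eps_pos i).le]
  calc S.eps i * ‖β (S.Tz hM hlb i (some s) (S.sg i h⁻¹)) (S.tau (S.sg i h) x)‖
      ≤ S.eps i * (C * (S.q m₀).1 x) := mul_le_mul_of_nonneg_left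
        (S.beta_bound hM hlb β hC hβC i (some s) _ _ x) (S.eps_pos i).le
    _ = C * S.eps i * (S.q m₀).1 x := by ring

end fav

end Sys

end Pool.Agent.Lib.MP_0546f5_an.PN
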