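import Pool.Agent.Lib.MP_0546f5_an.Comb

/-!
The almost multiplicative function `c` with values in endomorphisms of a vector space, and
seminorm estimates.
-/

namespace Pool.Agent.Lib.MP_0546f5_an.PN

open Finset

variable {I : Type*} [DecidableEq I] [Fintype I]
variable {M : Type*} [AddCommGroup M] [Module ℂ M]

/-- `c 1 = 1`, `c (gen a) = lam b_a`, `c (gen a gen a') = lam² b_{a'} b_a`, zero elsewhere -/
noncomputable def cvec (lam : ℂ) (b : I → M →ₗ[ℂ] M) (h : I → Equiv.Perm (Fin 3)) : M →ₗ[ℂ] M :=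
  (if h = 1 then LinearMap.id else 0) + (∑ a : I, if h = gen a then lam • b a else 0) +
    ∑ p : I × I, if h = gen p.1 * gen p.2 then lam ^ 2 • ((b p.2).comp (b p.1)) else 0

variable (hI : 4 ≤ Fintype.card I) (lam : ℂ) (b : I → M →ₗ[ℂ] M)

include hI in
lemma cvec_one : cvec lam b 1 = LinearMap.id := by
  unfold cvec
  rw [if_pos rfl, Finset.sum_eq_zero, Finset.sum_eq_zero]
  · simp
  · intro p _
    rw [if_neg (gen_mul_ne_one hI _ _).symm]
  · intro a _
    rw [if_neg (gen_ne_one hI _).symm]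

include hI in
lemma cvec_gen (a : I) : cvec lam b (gen a) = lam • b a := by
  unfold cvec
  rw [if_neg (gen_ne_one hI a), Finset.sum_eq_single a, if_pos rfl, Finset.sum_eq_zero]
  · simp
  · intro p _
    rw [if_neg (gen_mul_ne_gen hI _ _ _).symm]
  · intro a' _ h'
    rw [if_neg]
    intro h
    exact h' (gen_inj h).symm
  · simp

include hI in
lemma cvec_gen_mul (a a' : I) : cvec lam b (gen a * gen a') =
    lam ^ 2 • ((b a').comp (b a)) := by
  unfold cvec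
  rw [if_neg (gen_mul_ne_one hI a a'), Finset.sum_eq_zero, Finset.sum_eq_single (a, a'), if_pos rfl]
  · simp
  · intro p _ h'
    rw [if_neg]
    intro h
    obtain ⟨h1, h2⟩ := gen_mul_inj h
    exact h' (Prod.ext h1.symm h2.symm)
  · simp
  · intro c _
    rw [if_neg (gen_mul_ne_gen hI _ _ _)]

section est

variable (m : Seminorm ℂ M) {K w : ℝ} (y : M) (h0 : m y ≤ w) (h1 : ∀ a, m (b a y) ≤ K * w)
  (h2 : ∀ a a', m (b a' (b a y)) ≤ K ^ 2 * w)

lemma map_sum_le {T : Type*} (m : Seminorm ℂ M) (s : Finset T) (u : T → M) :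
    m (∑ t ∈ s, u t) ≤ ∑ t ∈ s, m (u t) := by
  classical
  induction s using Finset.induction_on with
  | empty => simp
  | insert a s ha ih =>
    rw [Finset.sum_insert ha, Finset.sum_insert ha]
    exact (map_add_le_add _ _ _).trans (add_le_add le_rfl ih)

include h0 h1 h2 in
lemma cvec_le (h : I → Equiv.Perm (Fin 3)) :
    m (cvec lam b h y) ≤ (N0 h + ‖lam‖ * K * N1 h + ‖lam‖ ^ 2 * K ^ 2 * N2 h) * w := by
  unfold cvec
  simp only [LinearMap.add_apply, LinearMap.sum_apply]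
  rw [add_mul, add_mul]
  refine (map_add_le_add _ _ _).trans (add_le_add ((map_add_le_add _ _ _).trans
    (add_le_add ?_ ?_)) ?_)
  · unfold N0
    split_ifs
    · simpa using h0
    · simp
  · refine (map_sum_le _ _ _).trans ?_
    unfold N1
    rw [mul_assoc, Finset.sum_mul, Finset.mul_sum]
    refine Finset.sum_le_sum fun a _ => ?_
    split_ifs
    · rw [LinearMap.smul_apply, map_smul_eq_mul, one_mul, mul_assoc]
      exact mul_le_mul_of_nonneg_left (h1 a) (norm_nonneg _)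
    · simp
  · refine (map_sum_le _ _ _).trans ?_
    unfold N2
    rw [mul_assoc, Finset.sum_mul, Finset.mul_sum]
    refine Finset.sum_le_sum fun p _ => ?_
    split_ifs
    · rw [LinearMap.smul_apply, LinearMap.comp_apply, map_smul_eq_mul, one_mul, norm_pow, mul_assoc]
      exact mul_le_mul_of_nonneg_left (h2 _ _) (by positivity)
    · simp

variable {J : Type*} [Fintype J] {f f' : J → I} (hf : Function.Injective f)
  (hf' : Function.Injective f') (hK0 : 0 ≤ K) (hw : 0 ≤ w)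
  (hlam : ‖lam‖ ^ 2 * Fintype.card J = 1) (hlam1 : ‖lam‖ ≤ 1)

include h0 h1 h2 hK0 hw hlam1 in
lemma cvec_small {h : I → Equiv.Perm (Fin 3)} (hh : h ≠ 1) :
    m (cvec lam b h y) ≤ ‖lam‖ * (2 + 3 * K + 5 * K ^ 2) * w := by
  refine (cvec_le lam b m y h0 h1 h2 h).trans (mul_le_mul_of_nonneg_right ?_ hw)
  have e0 : N0 h = 0 := by unfold N0; rw [if_neg hh]
  have e1 := N1_le h
  have e2 := N2_le h
  have p1 := N1_nonneg h
  have p2 := N2_nonneg h
  have hl := norm_nonneg lam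
  rw [e0]
  have a1 : ‖lam‖ * K * N1 h ≤ ‖lam‖ * K * 1 := mul_le_mul_of_nonneg_left e1 (by positivity)
  have a2 : ‖lam‖ ^ 2 * K ^ 2 * N2 h ≤ ‖lam‖ ^ 2 * K ^ 2 * 1 :=
    mul_le_mul_of_nonneg_left e2 (by positivity)
  have a3 : ‖lam‖ ^ 2 ≤ ‖lam‖ := by nlinarith
  have a4 : ‖lam‖ ^ 2 * K ^ 2 ≤ ‖lam‖ * K ^ 2 := mul_le_mul_of_nonneg_right a3 (by positivity)
  nlinarith [mul_nonneg hl hK0, mul_nonneg hl (sq_nonneg K)]

include h0 h1 h2 hK0 hw in
/-- general bound for a sum of values of `c` -/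
lemma sum_bound {T : Type*} [Fintype T] (v : T → I → Equiv.Perm (Fin 3))
    (n0 n1 n2 : ℝ) (hn0 : ∑ j, N0 (v j) ≤ n0) (hn1 : ∑ j, N1 (v j) ≤ n1)
    (hn2 : ∑ j, N2 (v j) ≤ n2) :
    m ((∑ j, cvec lam b (v j)) y) ≤ (n0 + ‖lam‖ * K * n1 + ‖lam‖ ^ 2 * K ^ 2 * n2) * w := by
  rw [LinearMap.sum_apply]
  refine (map_sum_le _ _ _).trans ((Finset.sum_le_sum fun j _ =>
    cvec_le lam b m y h0 h1 h2 (v j)).trans ?_)
  rw [← Finset.sum_mul, Finset.sum_add_distrib, Finset.sum_add_distrib, ← Finset.mul_sum,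
    ← Finset.mul_sum]
  refine mul_le_mul_of_nonneg_right ?_ hw
  have a1 := mul_le_mul_of_nonneg_left hn1 (by positivity : 0 ≤ ‖lam‖ * K)
  have a2 := mul_le_mul_of_nonneg_left hn2 (by positivity : 0 ≤ ‖lam‖ ^ 2 * K ^ 2)
  linarith

include hf h0 h1 h2 hK0 hw hlam hlam1 in
lemma cvec_right {h : I → Equiv.Perm (Fin 3)} (hh : h ≠ 1) :
    m ((lam • ∑ j, cvec lam b (h * gen (f j))) y) ≤ ‖lam‖ * (2 + 3 * K + 5 * K ^ 2) * w := by
  rw [LinearMap.smul_apply, map_smul_eq_mul, mul_assoc]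
  refine mul_le_mul_of_nonneg_left ?_ (norm_nonneg _)
  refine (sum_bound lam b m y h0 h1 h2 hK0 hw _ 1 2 (Fintype.card J) (B0 hf h) (B1 hf hh)
    (sumN2_le _)).trans (mul_le_mul_of_nonneg_right ?_ hw)
  have hl := norm_nonneg lam
  have : ‖lam‖ ^ 2 * K ^ 2 * Fintype.card J = K ^ 2 := by
    rw [mul_right_comm, hlam, one_mul]
  rw [this]
  nlinarith [mul_le_mul_of_nonneg_right hlam1 hK0, sq_nonneg K]

include hf h0 h1 h2 hK0 hw hlam hlam1 in
lemma cvec_left {h : I → Equiv.Perm (Fin 3)} (hh : h ≠ 1) :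
    m ((lam • ∑ j, cvec lam b (gen (f j) * h)) y) ≤ ‖lam‖ * (2 + 3 * K + 5 * K ^ 2) * w := by
  rw [LinearMap.smul_apply, map_smul_eq_mul, mul_assoc]
  refine mul_le_mul_of_nonneg_left ?_ (norm_nonneg _)
  refine (sum_bound lam b m y h0 h1 h2 hK0 hw _ 1 2 (Fintype.card J) (C0 hf h) (C1 hf hh)
    (sumN2_le _)).trans (mul_le_mul_of_nonneg_right ?_ hw)
  have hl := norm_nonneg lam
  have : ‖lam‖ ^ 2 * K ^ 2 * Fintype.card J = K ^ 2 := by
    rw [mul_right_comm, hlam, one_mul]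
  rw [this]
  nlinarith [mul_le_mul_of_nonneg_right hlam1 hK0, sq_nonneg K]

include hf hf' h0 h1 h2 hK0 hw hlam hlam1 in
lemma cvec_both {h : I → Equiv.Perm (Fin 3)} (hh : h ≠ 1) :
    m ((lam • ∑ i, lam • ∑ j, cvec lam b (gen (f j) * h * gen (f' i))) y) ≤
      ‖lam‖ * (2 + 3 * K + 5 * K ^ 2) * w := by
  rw [← Finset.smul_sum, smul_smul, LinearMap.smul_apply, map_smul_eq_mul, Finset.sum_comm]
  have hs : ∑ j, ∑ i, cvec lam b (gen (f j) * h * gen (f' i)) =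
      ∑ p : J × J, cvec lam b (gen (f p.1) * h * gen (f' p.2)) := by
    rw [Fintype.sum_prod_type]
  rw [hs]
  have key := sum_bound lam b m y h0 h1 h2 hK0 hw
    (fun p : J × J => gen (f p.1) * h * gen (f' p.2)) 2 (3 * Fintype.card J)
    (5 * Fintype.card J)
    (by rw [Fintype.sum_prod_type]; exact D0 hf hf' h)
    (by rw [Fintype.sum_prod_type]; exact D1 hf hf' h)
    (by rw [Fintype.sum_prod_type]; exact D2 hf hf' hh)
  have hl := norm_nonneg lam
  have hll : ‖lam * lam‖ = ‖lam‖ ^ 2 := by rw [norm_mul, sq]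
  rw [hll]
  refine (mul_le_mul_of_nonneg_left key (by positivity)).trans ?_
  rw [← mul_assoc]
  refine mul_le_mul_of_nonneg_right ?_ hw
  have e1 : ‖lam‖ ^ 2 * (2 + ‖lam‖ * K * (3 * Fintype.card J) +
      ‖lam‖ ^ 2 * K ^ 2 * (5 * Fintype.card J)) =
      2 * ‖lam‖ ^ 2 + 3 * ‖lam‖ * K * (‖lam‖ ^ 2 * Fintype.card J) +
      5 * ‖lam‖ ^ 2 * K ^ 2 * (‖lam‖ ^ 2 * Fintype.card J) := by ring
  rw [e1, hlam]
  have a3 : ‖lam‖ ^ 2 ≤ ‖lam‖ := by nlinarith
  have a4 : ‖lam‖ ^ 2 * K ^ 2 ≤ ‖lam‖ * K ^ 2 := mul_le_mul_of_nonneg_right a3 (by positivity)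
  nlinarith

end est

end Pool.Agent.Lib.MP_0546f5_an.PN
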