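import Pool.Agent.Lib.MP_0546f5_an.PN.Approx
import Pool.Agent.Lib.MP_0546f5_an.PN.CVec

/-!
The concrete approximation data and the core theorem: derivations are inner.
-/

namespace Pool.Agent.Lib.MP_0546f5_an.PN

universe u

open Filter Topology

lemma exists_m (K e : ℝ) (he : 0 < e) :
    ∃ m : ℕ, 4 ≤ m ∧ (1 + K) ^ 2 * ((Real.sqrt m)⁻¹ * (2 + 3 * K + 5 * K ^ 2)) ≤ e ^ 2 := by
  have h1 : Tendsto (fun m : ℕ => (1 + K) ^ 2 * ((Real.sqrt m)⁻¹ * (2 + 3 * K + 5 * K ^ 2))) atTop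
      (𝓝 ((1 + K) ^ 2 * (0 * (2 + 3 * K + 5 * K ^ 2)))) := by
    refine Tendsto.const_mul _ (Tendsto.mul_const _ ?_)
    exact (Real.tendsto_sqrt_atTop.comp tendsto_natCast_atTop_atTop).inv_tendsto_atTop
  have h2 : (1 + K) ^ 2 * (0 * (2 + 3 * K + 5 * K ^ 2)) < e ^ 2 := by
    rw [zero_mul, mul_zero]
    positivity
  have h3 := (h1.eventually (eventually_lt_nhds h2)).and (eventually_ge_atTop 4)
  obtain ⟨m, hm1, hm2⟩ := h3.exists
  exact ⟨m, hm2, hm1.le⟩

section concrete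

variable {A : Type u} [NonUnitalRing A] [Module ℂ A] [IsScalarTower ℂ A A]
  [SMulCommClass ℂ A A] [UniformSpace A] [IsPolynormed A] [ContinuousMul A]
variable {M : Type u} [AddCommGroup M] [Module ℂ M] [UniformSpace M] [IsPolynormed M]
variable {l r : A → M → M} (hr : IsRightModule r)

/-- chain of seminorms on `M` -/
noncomputable def chain (m : CS M) : ℕ → CS M
  | 0 => m
  | k + 1 => mR hr (chain m k)

lemma chain_mono (m : CS M) (k : ℕ) (y : M) : (chain hr m k).1 y ≤ (chain hr m (k + 1)).1 y :=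
  le_mR hr _ y

/-- index set of generators -/
abbrev II (T : Finset A) (m : ℕ) : Type u := Option T × Fin m

noncomputable instance (T : Finset A) (m : ℕ) : DecidableEq (II T m) := Classical.decEq _

/-- the right multiplications -/
noncomputable def bb (T : Finset A) (n : ℕ) (p : II T n) : M →ₗ[ℂ] M :=
  p.1.elim 0 fun a => hr.lin a

/-- the bound -/
noncomputable def KK (T : Finset A) (m : CS M) : ℝ :=
  ∑ a ∈ T, ∑ k ∈ Finset.range 4, (prR hr (chain hr m k)).1 a

lemma KK_nonneg (T : Finset A) (m : CS M) : 0 ≤ KK hr T m :=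
  Finset.sum_nonneg fun _ _ => Finset.sum_nonneg fun _ _ => apply_nonneg _ _

lemma le_KK (T : Finset A) (m : CS M) (a : T) (k : ℕ) (hk : k < 4) :
    (prR hr (chain hr m k)).1 a.1 ≤ KK hr T m := by
  have h1 : (prR hr (chain hr m k)).1 a.1 ≤ ∑ k ∈ Finset.range 4, (prR hr (chain hr m k)).1 a.1 :=
    Finset.single_le_sum (f := fun k => (prR hr (chain hr m k)).1 a.1)
      (fun _ _ => apply_nonneg _ _) (Finset.mem_range.2 hk)
  refine h1.trans ?_
  exact Finset.single_le_sum (f := fun a => ∑ k ∈ Finset.range 4, (prR hr (chain hr m k)).1 a)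
    (fun _ _ => Finset.sum_nonneg fun _ _ => apply_nonneg _ _) a.2

lemma r_le_KK (T : Finset A) (m : CS M) (a : T) (k : ℕ) (hk : k < 4) (y : M) :
    (chain hr m k).1 (r a.1 y) ≤ KK hr T m * (chain hr m (k + 1)).1 y :=
  (right_le hr _ _ _).trans (mul_le_mul_of_nonneg_right (le_KK hr T m a k hk) (apply_nonneg _ _))

lemma bb_le (T : Finset A) (m : CS M) (n : ℕ) (p : II T n) (k : ℕ) (hk : k < 4) (y : M) :
    (chain hr m k).1 (bb hr T n p y) ≤ KK hr T m * (chain hr m (k + 1)).1 y := by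
  obtain ⟨o, j⟩ := p
  cases o with
  | none =>
    simp only [bb, Option.elim_none, LinearMap.zero_apply, map_zero]
    exact mul_nonneg (KK_nonneg hr T m) (apply_nonneg _ _)
  | some a => exact r_le_KK hr T m a k hk y

/-- number of copies -/
noncomputable def mm (T : Finset A) (m : CS M) (n : ℕ) : ℕ :=
  Classical.choose (exists_m (KK hr T m) (1 / ((n : ℝ) + 1)) (by positivity))

lemma mm_ge (T : Finset A) (m : CS M) (n : ℕ) : 4 ≤ mm hr T m n :=
  (Classical.choose_spec (exists_m (KK hr T m) (1 / ((n : ℝ) + 1)) (by positivity))).1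

lemma mm_le (T : Finset A) (m : CS M) (n : ℕ) :
    (1 + KK hr T m) ^ 2 * ((Real.sqrt (mm hr T m n))⁻¹ *
      (2 + 3 * KK hr T m + 5 * KK hr T m ^ 2)) ≤ (1 / ((n : ℝ) + 1)) ^ 2 :=
  (Classical.choose_spec (exists_m (KK hr T m) (1 / ((n : ℝ) + 1)) (by positivity))).2

/-- the scalar -/
noncomputable def ll (T : Finset A) (m : CS M) (n : ℕ) : ℂ := ((Real.sqrt (mm hr T m n))⁻¹ : ℝ)

lemma norm_ll (T : Finset A) (m : CS M) (n : ℕ) :
    ‖ll hr T m n‖ = (Real.sqrt (mm hr T m n))⁻¹ := by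
  unfold ll
  rw [Complex.norm_real, Real.norm_of_nonneg (by positivity)]

lemma mm_pos (T : Finset A) (m : CS M) (n : ℕ) : (0 : ℝ) < mm hr T m n := by
  have := mm_ge hr T m n
  exact_mod_cast (by omega : 0 < mm hr T m n)

lemma ll_sq (T : Finset A) (m : CS M) (n : ℕ) : ll hr T m n ^ 2 * (mm hr T m n : ℂ) = 1 := by
  have h1 := mm_pos hr T m n
  have h2 : ((Real.sqrt (mm hr T m n))⁻¹) ^ 2 * (mm hr T m n : ℝ) = 1 := by
    rw [inv_pow, Real.sq_sqrt h1.le, inv_mul_cancel₀ h1.ne']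
  unfold ll
  exact_mod_cast h2

lemma norm_ll_sq (T : Finset A) (m : CS M) (n : ℕ) :
    ‖ll hr T m n‖ ^ 2 * (Fintype.card (Fin (mm hr T m n)) : ℝ) = 1 := by
  have h1 := mm_pos hr T m n
  rw [norm_ll, Fintype.card_fin, inv_pow, Real.sq_sqrt h1.le, inv_mul_cancel₀ h1.ne']

lemma norm_ll_le (T : Finset A) (m : CS M) (n : ℕ) : ‖ll hr T m n‖ ≤ 1 := by
  have h1 := mm_ge hr T m n
  have h2 : (1 : ℝ) ≤ mm hr T m n := by exact_mod_cast (by omega : 1 ≤ mm hr T m n)
  rw [norm_ll]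
  refine inv_le_one_of_one_le₀ ?_
  rw [← Real.sqrt_one]
  exact Real.sqrt_le_sqrt h2

lemma card_II (T : Finset A) (m : CS M) (n : ℕ) : 4 ≤ Fintype.card (II T (mm hr T m n)) := by
  have h1 := mm_ge hr T m n
  rw [Fintype.card_prod, Fintype.card_option, Fintype.card_fin]
  nlinarith

/-- the approximation data; the index is `(T, n, m)` -/
noncomputable def sys : Sys M where
  ι := Finset A × ℕ × CS M
  G i := II i.1 (mm hr i.1 i.2.2 i.2.1) → Equiv.Perm (Fin 3)
  grp _ := inferInstance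
  fin _ := inferInstance
  σ i := i.1
  finσ _ := inferInstance
  J i := Fin (mm hr i.1 i.2.2 i.2.1)
  finJ _ := inferInstance
  g _ s j := gen (some s, j)
  b _ s := hr.lin s
  b_cont _ s := hr.continuous_lin s
  lam i := ll hr i.1 i.2.2 i.2.1
  eps i := 1 / ((i.2.1 : ℝ) + 1)
  eps_pos _ := by positivity
  c i h := cvec (ll hr i.1 i.2.2 i.2.1) (bb hr i.1 (mm hr i.1 i.2.2 i.2.1)) h

omit [NonUnitalRing A] [Module ℂ A] [IsScalarTower ℂ A A]
  [SMulCommClass ℂ A A] [UniformSpace A] [IsPolynormed A] [ContinuousMul A] in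
lemma inj_some {T : Finset A} {m : ℕ} (s : T) :
    Function.Injective (fun j : Fin m => ((some s, j) : II T m)) := by
  intro j j' h
  exact (Prod.mk.inj h).2

theorem sys_exact : (sys hr).Exact where
  c_one i := cvec_one (card_II hr i.1 i.2.2 i.2.1) _ _
  c_th i s := by
    change ll hr i.1 i.2.2 i.2.1 • ∑ j : Fin (mm hr i.1 i.2.2 i.2.1),
      cvec (ll hr i.1 i.2.2 i.2.1) (bb hr i.1 (mm hr i.1 i.2.2 i.2.1))
      (gen ((some s, j) : II i.1 (mm hr i.1 i.2.2 i.2.1))) = hr.lin s.1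
    simp only [cvec_gen (card_II hr i.1 i.2.2 i.2.1), bb, Option.elim_some]
    rw [Finset.sum_const, Finset.card_univ, Fintype.card_fin, ← Nat.cast_smul_eq_nsmul ℂ,
      smul_smul, smul_smul]
    have := ll_sq hr i.1 i.2.2 i.2.1
    rw [show ll hr i.1 i.2.2 i.2.1 * (mm hr i.1 i.2.2 i.2.1 : ℂ) * ll hr i.1 i.2.2 i.2.1 =
      ll hr i.1 i.2.2 i.2.1 ^ 2 * (mm hr i.1 i.2.2 i.2.1 : ℂ) by ring, this, one_smul]
  c_thth i s t := by
    change ll hr i.1 i.2.2 i.2.1 • ∑ j' : Fin (mm hr i.1 i.2.2 i.2.1),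
      ll hr i.1 i.2.2 i.2.1 • ∑ j : Fin (mm hr i.1 i.2.2 i.2.1),
      cvec (ll hr i.1 i.2.2 i.2.1) (bb hr i.1 (mm hr i.1 i.2.2 i.2.1))
      (gen ((some s, j) : II i.1 (mm hr i.1 i.2.2 i.2.1)) *
        gen ((some t, j') : II i.1 (mm hr i.1 i.2.2 i.2.1))) =
      (hr.lin t.1).comp (hr.lin s.1)
    simp only [cvec_gen_mul (card_II hr i.1 i.2.2 i.2.1), bb, Option.elim_some]
    simp only [Finset.sum_const, Finset.card_univ, Fintype.card_fin, ← Nat.cast_smul_eq_nsmul ℂ,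
      smul_smul]
    have := ll_sq hr i.1 i.2.2 i.2.1
    rw [show ll hr i.1 i.2.2 i.2.1 * ((mm hr i.1 i.2.2 i.2.1 : ℂ) * (ll hr i.1 i.2.2 i.2.1 *
      ((mm hr i.1 i.2.2 i.2.1 : ℂ) * ll hr i.1 i.2.2 i.2.1 ^ 2))) =
      (ll hr i.1 i.2.2 i.2.1 ^ 2 * (mm hr i.1 i.2.2 i.2.1 : ℂ)) *
        (ll hr i.1 i.2.2 i.2.1 ^ 2 * (mm hr i.1 i.2.2 i.2.1 : ℂ)) by ring,
      this, mul_one, one_smul]

section hyp

variable (T : Finset A) (m : CS M) (n : ℕ) (k : ℕ) (hk : k < 2) (y : M)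

lemma hyp0 : (chain hr m k).1 y ≤ (chain hr m (k + 2)).1 y :=
  (chain_mono hr m k y).trans (chain_mono hr m (k + 1) y)

include hk in
lemma hyp1 (p : II T n) : (chain hr m k).1 (bb hr T n p y) ≤
    KK hr T m * (chain hr m (k + 2)).1 y :=
  (bb_le hr T m n p k (by omega) y).trans
    (mul_le_mul_of_nonneg_left (chain_mono hr m (k + 1) y) (KK_nonneg hr T m))

include hk in
lemma hyp2 (p p' : II T n) : (chain hr m k).1 (bb hr T n p' (bb hr T n p y)) ≤
    KK hr T m ^ 2 * (chain hr m (k + 2)).1 y := by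
  refine (bb_le hr T m n p' k (by omega) _).trans ?_
  rw [sq, mul_assoc]
  exact mul_le_mul_of_nonneg_left (bb_le hr T m n p (k + 1) (by omega) y) (KK_nonneg hr T m)

end hyp

theorem sys_est (T : Finset A) (n : ℕ) (m : CS M) :
    (sys hr).Est (T, n, m) (chain hr m) (KK hr T m)
      (‖ll hr T m n‖ * (2 + 3 * KK hr T m + 5 * KK hr T m ^ 2)) where
  K_nonneg := KK_nonneg hr T m
  del_nonneg := by
    have := KK_nonneg hr T m
    positivity
  eps_le := by
    change 1 / ((n : ℝ) + 1) ≤ 1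
    rw [div_le_one (by positivity)]
    have : (0 : ℝ) ≤ n := by positivity
    linarith
  del_le := by
    rw [norm_ll]
    exact mm_le hr T m n
  mono := chain_mono hr m
  b_le k hk s y := r_le_KK hr T m s k hk y
  c_small k hk h hh y := cvec_small _ _ _ y (hyp0 hr m k y)
    (fun p => hyp1 hr T m _ k hk y p) (fun p p' => hyp2 hr T m _ k hk y p p')
    (KK_nonneg hr T m) (apply_nonneg _ _) (norm_ll_le hr T m n) hh
  c_right k hk h s hh y := cvec_right _ _ _ y (hyp0 hr m k y)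
    (fun p => hyp1 hr T m _ k hk y p) (fun p p' => hyp2 hr T m _ k hk y p p') (inj_some s)
    (KK_nonneg hr T m) (apply_nonneg _ _) (norm_ll_sq hr T m n) (norm_ll_le hr T m n) hh
  c_left k hk h s hh y := cvec_left _ _ _ y (hyp0 hr m k y)
    (fun p => hyp1 hr T m _ k hk y p) (fun p p' => hyp2 hr T m _ k hk y p p') (inj_some s)
    (KK_nonneg hr T m) (apply_nonneg _ _) (norm_ll_sq hr T m n) (norm_ll_le hr T m n) hh
  c_both k hk h s t hh y := cvec_both _ _ _ y (hyp0 hr m k y)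
    (fun p => hyp1 hr T m _ k hk y p) (fun p p' => hyp2 hr T m _ k hk y p p') (inj_some s)
    (inj_some t) (KK_nonneg hr T m) (apply_nonneg _ _) (norm_ll_sq hr T m n)
    (norm_ll_le hr T m n) hh

lemma sys_hlb (hM : IsBimodule l r) (i : (sys hM.right).ι) (s : (sys hM.right).σ i)
    (a : A) (m : M) : l a ((sys hM.right).b i s m) = (sys hM.right).b i s (l a m) :=
  hM.comm a s.1 m

lemma bb_comm (hM : IsBimodule l r) (T : Finset A) (n : ℕ) (p : II T n)
    (a : A) (m : M) : l a (bb hM.right T n p m) = bb hM.right T n p (l a m) := by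
  obtain ⟨o, j⟩ := p
  cases o with
  | none => exact (hM.left.lin a).map_zero
  | some s => exact hM.comm a s.1 m

lemma sys_hlc (hM : IsBimodule l r) (i : (sys hM.right).ι) (h : (sys hM.right).G i)
    (a : A) (m : M) : l a ((sys hM.right).c i h m) = (sys hM.right).c i h (l a m) := by
  change hM.left.lin a (cvec (ll hM.right i.1 i.2.2 i.2.1)
      (bb hM.right i.1 (mm hM.right i.1 i.2.2 i.2.1)) h m) =
    cvec (ll hM.right i.1 i.2.2 i.2.1) (bb hM.right i.1 (mm hM.right i.1 i.2.2 i.2.1)) h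
      (hM.left.lin a m)
  have hb : ∀ p m, hM.left.lin a (bb hM.right i.1 (mm hM.right i.1 i.2.2 i.2.1) p m) =
    bb hM.right i.1 (mm hM.right i.1 i.2.2 i.2.1) p (hM.left.lin a m) :=
    fun p m => bb_comm hM i.1 (mm hM.right i.1 i.2.2 i.2.1) p a m
  unfold cvec
  simp only [LinearMap.add_apply, map_add, LinearMap.sum_apply, map_sum]
  congr 1
  · congr 1
    · split_ifs
      · rfl
      · rw [LinearMap.zero_apply, map_zero, LinearMap.zero_apply]
    · refine Finset.sum_congr rfl fun p _ => ?_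
      split_ifs
      · simp only [LinearMap.smul_apply, map_smul, hb]
      · rw [LinearMap.zero_apply, map_zero, LinearMap.zero_apply]
  · refine Finset.sum_congr rfl fun p _ => ?_
    split_ifs
    · simp only [LinearMap.smul_apply, map_smul, LinearMap.comp_apply, hb]
    · rw [LinearMap.zero_apply, map_zero, LinearMap.zero_apply]

/-- core theorem: if all left modules are flat, uniformly bounded families of derivations into
duals are uniformly inner -/
theorem inner_of_flat (hflat : AllLeftModulesFlat A) (hM : IsBimodule l r) {Sf : Type u}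
    {D : Sf → A → M → ℂ} {pD : CS A} {μ : CS M} (hD : DerFam l r D pD μ) :
    ∃ (h : Sf → M →ₗ[ℂ] ℂ) (ν : CS M), (∀ s m, ‖h s m‖ ≤ ν.1 m) ∧
      ∀ s a m, D s a m = h s (r a m) - h s (l a m) := by
  classical
  let S := sys hM.right
  have hlb := sys_hlb hM
  have hlc := sys_hlc hM
  have hlX := S.isLeftModule_lX hM.left hlb
  obtain ⟨β, ζ, ρ, hβb, hβ⟩ := exists_beta hlX hM S.q hD (hflat S.X _ hlX)
  obtain ⟨C₁, hC₁, hζ⟩ := S.exists_Tz_bound hM hlb ζ
  obtain ⟨C₂, m₀, hC₂, hρ⟩ := S.exists_rho_bound ρ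
  have hC : 0 ≤ C₁ * C₂ := mul_nonneg hC₁ hC₂
  have hβC : ∀ s i o γ x, ‖β s (S.Tz hM hlb i o γ) x‖ ≤ C₁ * C₂ * (S.q m₀).1 x := by
    intro s i o γ x
    refine (hβb s _ x).trans ?_
    rw [mul_assoc]
    exact mul_le_mul (hζ i o γ) (hρ x) (apply_nonneg _ _) hC₁
  have hbd : ∀ (s : Sf) (i : Finset A × ℕ) (m : M),
      ‖S.Fav hM hlb (β s) (i.1, i.2, m₀) (Sys.J0 (i.1, i.2, m₀) m)‖ ≤
        C₁ * C₂ * (chain hM.right m₀ 4).1 m := fun s i m =>
    (S.Fav_bound hM hlb (β s) hC (hβC s) _ _).trans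
      (mul_le_mul_of_nonneg_left
        (Sys.q_J0_le (sys_exact hM.right) (sys_est hM.right i.1 i.2 m₀) m) hC)
  let U : Ultrafilter (Finset A × ℕ) := Ultrafilter.of atTop
  have hU : (U : Filter (Finset A × ℕ)) ≤ atTop := Ultrafilter.of_le _
  have hlim : ∀ (s : Sf) (m : M), ∃ z : ℂ, Tendsto (fun i : Finset A × ℕ =>
      S.Fav hM hlb (β s) (i.1, i.2, m₀) (Sys.J0 (i.1, i.2, m₀) m)) U (𝓝 z) := by
    intro s m
    have hK : IsCompact (Metric.closedBall (0 : ℂ) (C₁ * C₂ * (chain hM.right m₀ 4).1 m)) :=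
      isCompact_closedBall _ _
    obtain ⟨z, -, hz⟩ := hK.ultrafilter_le_nhds
      (U.map (fun i : Finset A × ℕ =>
        S.Fav hM hlb (β s) (i.1, i.2, m₀) (Sys.J0 (i.1, i.2, m₀) m))) (by
        rw [le_principal_iff, Ultrafilter.coe_map]
        refine Filter.mem_map.2 (Filter.univ_mem' fun i => ?_)
        simpa using hbd s i m)
    exact ⟨z, by simpa [Tendsto] using hz⟩
  choose F hF using hlim
  have hFb : ∀ s m, ‖F s m‖ ≤ C₁ * C₂ * (chain hM.right m₀ 4).1 m := fun s m =>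
    le_of_tendsto (hF s m).norm (Eventually.of_forall fun i => hbd s i m)
  let F' : Sf → M →ₗ[ℂ] ℂ := fun s =>
    { toFun := F s
      map_add' := fun m m' => tendsto_nhds_unique (hF s (m + m')) (by
        simpa using (hF s m).add (hF s m'))
      map_smul' := fun c m => tendsto_nhds_unique (hF s (c • m)) (by
        simpa using (hF s m).const_mul c) }
  refine ⟨fun s => -F' s, ⟨(Real.toNNReal (C₁ * C₂)) • (chain hM.right m₀ 4).1,
    Continuous.const_smul (chain hM.right m₀ 4).2 _⟩, fun s m => ?_, fun s a m => ?_⟩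
  · rw [LinearMap.neg_apply, norm_neg]
    change ‖F s m‖ ≤ (Real.toNNReal (C₁ * C₂) : ℝ) * (chain hM.right m₀ 4).1 m
    rw [Real.coe_toNNReal _ hC]
    exact hFb s m
  have hgoal : F s (l a m) - D s a m - F s (r a m) = 0 := by
    have ht : Tendsto (fun i : Finset A × ℕ =>
        S.Fav hM hlb (β s) (i.1, i.2, m₀) (Sys.J0 (i.1, i.2, m₀) (l a m)) - D s a m -
          S.Fav hM hlb (β s) (i.1, i.2, m₀) (Sys.J0 (i.1, i.2, m₀) (r a m))) U
        (𝓝 (F s (l a m) - D s a m - F s (r a m))) :=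
      ((hF s _).sub tendsto_const_nhds).sub (hF s _)
    have he : Tendsto (fun i : Finset A × ℕ =>
        2 * (C₁ * C₂) * (1 / ((i.2 : ℝ) + 1)) * (chain hM.right m₀ 4).1 m) U (𝓝 0) := by
      have h1 : Tendsto (fun i : Finset A × ℕ => 1 / ((i.2 : ℝ) + 1)) U (𝓝 0) :=
        (tendsto_one_div_add_atTop_nhds_zero_nat.comp
          (tendsto_snd.comp (tendsto_id.mono_right (by rw [← prod_atTop_atTop_eq])))).mono_left hU
      have h2 := (h1.const_mul (2 * (C₁ * C₂))).mul_const ((chain hM.right m₀ 4).1 m)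
      simpa using h2
    have hev : ∀ᶠ i : Finset A × ℕ in U,
        ‖S.Fav hM hlb (β s) (i.1, i.2, m₀) (Sys.J0 (i.1, i.2, m₀) (l a m)) - D s a m -
          S.Fav hM hlb (β s) (i.1, i.2, m₀) (Sys.J0 (i.1, i.2, m₀) (r a m))‖ ≤
        2 * (C₁ * C₂) * (1 / ((i.2 : ℝ) + 1)) * (chain hM.right m₀ 4).1 m := by
      have h1 : ∀ᶠ i : Finset A × ℕ in atTop, a ∈ i.1 := by
        filter_upwards [eventually_ge_atTop (({a} : Finset A), 0)] with i hi
        exact hi.1 (Finset.mem_singleton_self a)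
      filter_upwards [hU h1] with i hi
      exact Sys.approx (sys_exact hM.right) hM hlb hlc (D s) (β s) hC
        (sys_est hM.right i.1 i.2 m₀) (hβC s) (hβ s) ⟨a, hi⟩ a (fun y => rfl) m
    have h0 := le_of_tendsto_of_tendsto ht.norm he hev
    exact norm_le_zero_iff.1 h0
  simp only [LinearMap.neg_apply]
  change D s a m = -F s (r a m) - -F s (l a m)
  linear_combination -hgoal

end concrete

end Pool.Agent.Lib.MP_0546f5_an.PN
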