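import Pool.Agent.Lib.MP_0546f5_an.PN.Tensor

/-!
Exactness of completed sequences.
-/

namespace Pool.Agent.Lib.MP_0546f5_an.PN

universe u

open Filter Topology
open scoped TensorProduct

section general

open UniformSpace

variable {T₁ T₂ T₃ : Type u} [AddCommGroup T₁] [UniformSpace T₁] [IsUniformAddGroup T₁]
  [AddCommGroup T₂] [UniformSpace T₂] [IsUniformAddGroup T₂]
  [AddCommGroup T₃] [UniformSpace T₃] [IsUniformAddGroup T₃]
  (f : T₁ →+ T₂) (g : T₂ →+ T₃)

/-- completion of an exact sequence -/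
theorem isTopExact_completion (hf : IsInducing f) (hg : Continuous g)
    (hgf : ∀ t, g (f t) = 0) (hker : ∀ u, g u = 0 → ∃ t, f t = u)
    (hsurj : Function.Surjective g) (hopen : ∀ U ∈ 𝓝 (0 : T₂), g '' U ∈ 𝓝 (0 : T₃)) :
    IsTopExact (Completion.map f) (Completion.map g) := by
  have hfc : Continuous f := hf.continuous
  let F : Completion T₁ →+ Completion T₂ := f.completion hfc
  let G : Completion T₂ →+ Completion T₃ := g.completion hg
  have hF : (F : Completion T₁ → Completion T₂) = Completion.map f := rfl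
  have hG : (G : Completion T₂ → Completion T₃) = Completion.map g := rfl
  have hFc : Continuous F := AddMonoidHom.continuous_completion f hfc
  have hGc : Continuous G := AddMonoidHom.continuous_completion g hg
  have hFcoe : ∀ t : T₁, F (t : Completion T₁) = (f t : Completion T₂) :=
    fun t => AddMonoidHom.completion_coe f hfc t
  have hGcoe : ∀ t : T₂, G (t : Completion T₂) = (g t : Completion T₃) :=
    fun t => AddMonoidHom.completion_coe g hg t
  have hind₁ : IsUniformInducing f := AddMonoidHom.isUniformInducing_of_isInducing hf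
  have hembU : IsUniformEmbedding F := by
    have h1 : IsUniformInducing ((fun t : T₂ => (t : Completion T₂)) ∘ f) :=
      (Completion.isUniformInducing_coe T₂).comp hind₁
    have h2 : IsUniformInducing (Completion.extension ((fun t : T₂ => (t : Completion T₂)) ∘ f)) :=
      Completion.isUniformInducing_extension h1
    exact IsUniformInducing.isUniformEmbedding h2
  have hclosed : IsClosed (Set.range F) :=
    (hembU.isUniformInducing.isComplete_range).isClosed
  -- small elements of T₃ which come from small elements of T₂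
  have hGF : ∀ x, G (F x) = 0 := by
    intro x
    refine Completion.induction_on x (isClosed_eq (hGc.comp hFc) continuous_const) fun t => ?_
    rw [hFcoe, hGcoe, hgf]
    rfl
  have hlift : ∀ W ∈ 𝓝 (0 : Completion T₂), ∃ N : Set (Completion T₃), IsOpen N ∧ 0 ∈ N ∧
      ∀ e : T₂, (g e : Completion T₃) ∈ N → ∃ u : T₂, (u : Completion T₂) ∈ W ∧ g u = g e := by
    intro W hW
    have h1 : (fun t : T₂ => (t : Completion T₂)) ⁻¹' W ∈ 𝓝 (0 : T₂) := by
      have hc : ContinuousAt (fun t : T₂ => (t : Completion T₂)) 0 :=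
        (Completion.continuous_coe T₂).continuousAt
      exact hc (show W ∈ 𝓝 (((0 : T₂) : Completion T₂)) by rwa [Completion.coe_zero])
    have h2 := hopen _ h1
    have h3 : 𝓝 (0 : T₃) = comap (fun t : T₃ => (t : Completion T₃)) (𝓝 (0 : Completion T₃)) := by
      have := (Completion.isUniformInducing_coe T₃).isInducing.nhds_eq_comap (0 : T₃)
      rwa [Completion.coe_zero] at this
    rw [h3] at h2
    obtain ⟨N, hN, hNs⟩ := Filter.mem_comap.1 h2
    obtain ⟨N', hN'N, hN'o, hN'0⟩ := _root_.mem_nhds_iff.1 hN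
    refine ⟨N', hN'o, hN'0, fun e he => ?_⟩
    obtain ⟨u, hu, hue⟩ := hNs (a := g e) (hN'N he)
    exact ⟨u, hu, hue⟩
  -- the key statement
  have hkey : ∀ W ∈ 𝓝 (0 : Completion T₂), ∃ N : Set (Completion T₃), IsOpen N ∧ 0 ∈ N ∧
      ∀ ξ, G ξ ∈ N → ∃ t : T₁, ξ - F (t : Completion T₁) ∈ W := by
    intro W hW
    obtain ⟨W₁, hW₁, hW₁W⟩ : ∃ W₁ ∈ 𝓝 (0 : Completion T₂), ∀ v ∈ W₁, ∀ w ∈ W₁, v + w ∈ W := by
      obtain ⟨V, hVo, hV0, hVW⟩ := exists_open_nhds_zero_add_subset hW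
      exact ⟨V, hVo.mem_nhds hV0, fun v hv w hw => hVW (Set.add_mem_add hv hw)⟩
    obtain ⟨N, hNo, hN0, hN⟩ := hlift W₁ hW₁
    refine ⟨N, hNo, hN0, fun ξ hξ => ?_⟩
    have h1 : {η : Completion T₂ | ξ - η ∈ W₁} ∈ 𝓝 ξ := by
      have hc : ContinuousAt (fun η : Completion T₂ => ξ - η) ξ := by fun_prop
      exact hc (by simpa using hW₁)
    have h2 : {η : Completion T₂ | G η ∈ N} ∈ 𝓝 ξ :=
      hGc.continuousAt (hNo.mem_nhds hξ)
    obtain ⟨O, hOs, hOo, hO⟩ := _root_.mem_nhds_iff.1 (inter_mem h1 h2)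
    obtain ⟨e, he⟩ := (Completion.denseRange_coe (α := T₂)).exists_mem_open hOo ⟨ξ, hO⟩
    obtain ⟨he1, he2⟩ := hOs he
    change G (e : Completion T₂) ∈ N at he2
    rw [hGcoe] at he2
    obtain ⟨u, hu, hue⟩ := hN e he2
    obtain ⟨t, ht⟩ := hker (e - u) (by rw [map_sub, hue, sub_self])
    refine ⟨t, ?_⟩
    have : ξ - F (t : Completion T₁) = (ξ - (e : Completion T₂)) + (u : Completion T₂) := by
      rw [hFcoe, ht, Completion.coe_sub]
      abel
    rw [this]
    exact hW₁W _ he1 _ hu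
  refine ⟨?_, ?_, ?_, ?_⟩
  · rw [← hF]
    exact hembU.isEmbedding
  · rw [← hF, ← hG]
    ext ξ
    constructor
    · rintro ⟨x, rfl⟩
      exact hGF x
    · intro hξ
      have hξ0 : G ξ = 0 := hξ
      rw [← hclosed.closure_eq, mem_closure_iff_nhds]
      intro V hV
      have h1 : {w : Completion T₂ | ξ - w ∈ V} ∈ 𝓝 (0 : Completion T₂) := by
        have hc : ContinuousAt (fun w : Completion T₂ => ξ - w) 0 := by fun_prop
        exact hc (by simpa using hV)
      obtain ⟨N, -, hN0, hN⟩ := hkey _ h1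
      obtain ⟨t, ht⟩ := hN ξ (by rw [hξ0]; exact hN0)
      refine ⟨F (t : Completion T₁), ?_, ⟨_, rfl⟩⟩
      simpa using ht
  · rw [← hG]
    have h1 : DenseRange ((fun t : T₃ => (t : Completion T₃)) ∘ g) :=
      (Completion.denseRange_coe (α := T₃)).comp hsurj.denseRange (Completion.continuous_coe T₃)
    refine h1.mono ?_
    rintro _ ⟨e, rfl⟩
    exact ⟨(e : Completion T₂), hGcoe e⟩
  · rw [← hG]
    rw [IsOpenMap]
    intro O hO
    rw [isOpen_iff_mem_nhds]
    rintro _ ⟨ξ, hξ, rfl⟩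
    have h1 : {w : Completion T₂ | ξ + w ∈ O} ∈ 𝓝 (0 : Completion T₂) := by
      have hc : ContinuousAt (fun w : Completion T₂ => ξ + w) 0 := by fun_prop
      exact hc (by simpa using hO.mem_nhds hξ)
    obtain ⟨N, hNo, hN0, hN⟩ := hkey _ h1
    have h2 : {y : Set.range G | (y : Completion T₃) - G ξ ∈ N} ∈
        𝓝 (Set.rangeFactorization G ξ) := by
      have hc : ContinuousAt (fun y : Set.range G => (y : Completion T₃) - G ξ)
        (Set.rangeFactorization G ξ) := by fun_prop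
      exact hc (by simpa using hNo.mem_nhds hN0)
    refine mem_of_superset h2 ?_
    rintro ⟨_, ⟨η, rfl⟩⟩ hη
    change (G η - G ξ) ∈ N at hη
    rw [← map_sub] at hη
    obtain ⟨t, ht⟩ := hN _ hη
    refine ⟨ξ + (η - ξ - F (t : Completion T₁)), ht, ?_⟩
    apply Subtype.ext
    simp only [Set.rangeFactorization_coe]
    rw [map_add, map_sub, map_sub, hGF]
    abel

end general

section tensor

variable {Λ X Y₁ Y₂ Y₃ : Type u} [AddCommGroup X] [Module ℂ X] [UniformSpace X]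
  [AddCommGroup Y₁] [Module ℂ Y₁] [UniformSpace Y₁]
  [AddCommGroup Y₂] [Module ℂ Y₂] [UniformSpace Y₂]
  [AddCommGroup Y₃] [Module ℂ Y₃] [UniformSpace Y₃]
  {R₁ : Λ → Y₁ → Y₁} {R₂ : Λ → Y₂ → Y₂} {R₃ : Λ → Y₃ → Y₃} {L : Λ → X → X}

/-- quotients of balanced seminorms are balanced -/
lemma exists_quotient_seminorm (π : Y₂ →L[ℂ] Y₃) (s : Y₃ →L[ℂ] Y₂) (hs : ∀ y, π (s y) = y)
    (hπ : ∀ a y, π (R₂ a y) = R₃ a (π y)) {P : Seminorm ℂ (Y₂ ⊗[ℂ] X)} (hP : IsBalanced R₂ L P) :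
    ∃ Q : Seminorm ℂ (Y₃ ⊗[ℂ] X), IsBalanced R₃ L Q ∧ ∀ (t : Y₃ ⊗[ℂ] X) (ε : ℝ), Q t < ε →
      ∃ u : Y₂ ⊗[ℂ] X, P u < ε ∧
        TensorProduct.map (π : Y₂ →ₗ[ℂ] Y₃) (LinearMap.id : X →ₗ[ℂ] X) u = t := by
  let G := TensorProduct.map (π : Y₂ →ₗ[ℂ] Y₃) (LinearMap.id : X →ₗ[ℂ] X)
  let Sg := TensorProduct.map (s : Y₃ →ₗ[ℂ] Y₂) (LinearMap.id : X →ₗ[ℂ] X)
  have hGSg : ∀ t, G (Sg t) = t := by
    intro t
    have : G ∘ₗ Sg = LinearMap.id := by
      refine TensorProduct.ext' fun y x => ?_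
      simp only [G, Sg, LinearMap.comp_apply, TensorProduct.map_tmul, LinearMap.id_apply,
        ContinuousLinearMap.coe_coe, hs]
    exact congrArg (fun f => f t) this
  let q : Y₃ ⊗[ℂ] X → ℝ := fun t => ⨅ u : {u : Y₂ ⊗[ℂ] X // G u = t}, P u.1
  have hbdd : ∀ t, BddBelow (Set.range fun u : {u : Y₂ ⊗[ℂ] X // G u = t} => P u.1) := fun t =>
    ⟨0, by rintro _ ⟨u, rfl⟩; exact apply_nonneg _ _⟩
  have hne : ∀ t, Nonempty {u : Y₂ ⊗[ℂ] X // G u = t} := fun t => ⟨⟨Sg t, hGSg t⟩⟩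
  have hle : ∀ u, q (G u) ≤ P u := fun u => ciInf_le (hbdd (G u)) ⟨u, rfl⟩
  have h0 : ∀ t, 0 ≤ q t := fun t => Real.iInf_nonneg fun _ => apply_nonneg _ _
  let Q : Seminorm ℂ (Y₃ ⊗[ℂ] X) := Seminorm.ofSMulLE q
    (by
      refine le_antisymm ?_ (h0 0)
      have := hle 0
      rwa [map_zero, map_zero] at this)
    (by
      intro t t'
      have := hne t
      have := hne t'
      refine le_ciInf_add_ciInf fun u u' => ?_
      refine le_trans ?_ (map_add_le_add P u.1 u'.1)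
      have h1 := hle (u.1 + u'.1)
      rwa [map_add, u.2, u'.2] at h1)
    (by
      intro c t
      have := hne t
      rw [Real.mul_iInf_of_nonneg (norm_nonneg _)]
      refine le_ciInf fun u => ?_
      rw [← map_smul_eq_mul]
      have h1 := hle (c • u.1)
      rwa [map_smul, u.2] at h1)
  have hQle : ∀ u, Q (G u) ≤ P u := hle
  refine ⟨Q, ⟨?_, ?_⟩, ?_⟩
  · obtain ⟨p, r, hp, hr, h⟩ := hP.cont
    refine ⟨p.comp (s : Y₃ →ₗ[ℂ] Y₂), r, hp.comp s.continuous, hr, fun y x => ?_⟩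
    have h1 := hQle (s y ⊗ₜ[ℂ] x)
    have h2 : G (s y ⊗ₜ[ℂ] x) = y ⊗ₜ[ℂ] x := by
      simp only [G, TensorProduct.map_tmul, LinearMap.id_apply, ContinuousLinearMap.coe_coe, hs]
    rw [h2] at h1
    exact h1.trans (h _ _)
  · intro a y x
    refine le_antisymm ?_ (apply_nonneg _ _)
    have h1 := hQle (R₂ a (s y) ⊗ₜ[ℂ] x - s y ⊗ₜ[ℂ] L a x)
    have h2 : G (R₂ a (s y) ⊗ₜ[ℂ] x - s y ⊗ₜ[ℂ] L a x) = R₃ a y ⊗ₜ[ℂ] x - y ⊗ₜ[ℂ] L a x := by
      simp only [G, map_sub, TensorProduct.map_tmul, LinearMap.id_apply,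
        ContinuousLinearMap.coe_coe, hs, hπ]
    rw [h2, hP.bal] at h1
    exact h1
  · intro t ε ht
    have := hne t
    obtain ⟨u, hu⟩ := exists_lt_of_ciInf_lt ht
    exact ⟨u.1, hu, u.2⟩

/-- exactness from domination of seminorms -/
theorem isTopExact_of_dominated (i : Y₁ →L[ℂ] Y₂) (π : Y₂ →L[ℂ] Y₃)
    (hi : ∀ a y, i (R₁ a y) = R₂ a (i y)) (hπ : ∀ a y, π (R₂ a y) = R₃ a (π y))
    (hsplit : IsSplitExact i π)
    (hdom : ∀ P : Seminorm ℂ (Y₁ ⊗[ℂ] X), IsBalanced R₁ L P →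
      ∃ Q : Seminorm ℂ (Y₂ ⊗[ℂ] X), IsBalanced R₂ L Q ∧
      ∀ t, P t ≤ Q (TensorProduct.map (i : Y₁ →ₗ[ℂ] Y₂) (LinearMap.id : X →ₗ[ℂ] X) t)) :
    IsTopExact (ctMap R₁ R₂ L i) (ctMap R₂ R₃ L π) := by
  obtain ⟨r, s, hri, hπs, hπi, hid⟩ := hsplit
  let F := TensorProduct.map (i : Y₁ →ₗ[ℂ] Y₂) (LinearMap.id : X →ₗ[ℂ] X)
  let G := TensorProduct.map (π : Y₂ →ₗ[ℂ] Y₃) (LinearMap.id : X →ₗ[ℂ] X)
  let J := TensorProduct.map (r : Y₂ →ₗ[ℂ] Y₁) (LinearMap.id : X →ₗ[ℂ] X)
  let Sg := TensorProduct.map (s : Y₃ →ₗ[ℂ] Y₂) (LinearMap.id : X →ₗ[ℂ] X)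
  have hGF : ∀ t, G (F t) = 0 := by
    intro t
    have : G ∘ₗ F = 0 := by
      refine TensorProduct.ext' fun y x => ?_
      simp only [G, F, LinearMap.comp_apply, TensorProduct.map_tmul, LinearMap.id_apply,
        ContinuousLinearMap.coe_coe, hπi, TensorProduct.zero_tmul, LinearMap.zero_apply]
    exact congrArg (fun f => f t) this
  have hGSg : ∀ t, G (Sg t) = t := by
    intro t
    have : G ∘ₗ Sg = LinearMap.id := by
      refine TensorProduct.ext' fun y x => ?_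
      simp only [G, Sg, LinearMap.comp_apply, TensorProduct.map_tmul, LinearMap.id_apply,
        ContinuousLinearMap.coe_coe, hπs]
    exact congrArg (fun f => f t) this
  have hsum : ∀ t, F (J t) + Sg (G t) = t := by
    intro t
    have : F ∘ₗ J + Sg ∘ₗ G = LinearMap.id := by
      refine TensorProduct.ext' fun y x => ?_
      simp only [F, J, G, Sg, LinearMap.add_apply, LinearMap.comp_apply, TensorProduct.map_tmul,
        LinearMap.id_apply, ContinuousLinearMap.coe_coe, ← TensorProduct.add_tmul, hid]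
    exact congrArg (fun f => f t) this
  let f : PreTensor R₁ L →+ PreTensor R₂ L := (preMap R₁ R₂ L i).toAddMonoidHom
  let g : PreTensor R₂ L →+ PreTensor R₃ L := (preMap R₂ R₃ L π).toAddMonoidHom
  have hfind : IsInducing f := by
    rw [IsTopologicalAddGroup.isInducing_iff_nhds_zero]
    refine le_antisymm ?_ ?_
    · rw [← Filter.map_le_iff_le_comap]
      have h1 : Tendsto f (𝓝 0) (𝓝 (f 0)) := (continuous_preMap L i hi).tendsto 0
      rwa [map_zero] at h1
    · intro U hU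
      obtain ⟨p, hp, hpU⟩ := exists_ball hU
      obtain ⟨Q, hQ, hpQ⟩ := hdom p (isBalanced_of_continuous R₁ L p hp)
      have hQc := continuous_bsn R₂ L Q hQ
      refine Filter.mem_comap.2 ⟨{t | (show Seminorm ℂ (PreTensor R₂ L) from Q) t < 1}, ?_, ?_⟩
      · have h2 : Tendsto (show Seminorm ℂ (PreTensor R₂ L) from Q) (𝓝 0) (𝓝 0) := by
          have := hQc.tendsto 0
          rwa [map_zero] at this
        exact h2.eventually (gt_mem_nhds zero_lt_one)
      · intro t ht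
        exact hpU t (lt_of_le_of_lt (hpQ t) ht)
  have hopen : ∀ U ∈ 𝓝 (0 : PreTensor R₂ L), g '' U ∈ 𝓝 (0 : PreTensor R₃ L) := by
    intro U hU
    obtain ⟨p, hp, hpU⟩ := exists_ball hU
    obtain ⟨Q, hQ, hQs⟩ := exists_quotient_seminorm π s hπs hπ
      (isBalanced_of_continuous R₂ L p hp)
    have hQc := continuous_bsn R₃ L Q hQ
    have h2 : Tendsto (show Seminorm ℂ (PreTensor R₃ L) from Q) (𝓝 0) (𝓝 0) := by
      have := hQc.tendsto 0
      rwa [map_zero] at this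
    refine mem_of_superset (h2.eventually (gt_mem_nhds zero_lt_one)) fun t ht => ?_
    obtain ⟨u, hu, rfl⟩ := hQs t 1 ht
    exact ⟨u, hpU u hu, rfl⟩
  exact isTopExact_completion f g hfind (continuous_preMap L π hπ) hGF
    (fun u hu => ⟨J u, by
      have h1 := hsum u
      have h2 : G u = 0 := hu
      rw [h2, map_zero, add_zero] at h1
      exact h1⟩)
    (fun t => ⟨Sg t, hGSg t⟩) hopen

end tensor

end Pool.Agent.Lib.MP_0546f5_an.PN
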