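import Pool.Agent.Lib.MP_0546f5_an.PN.Core
import Pool.Agent.Lib.MP_0546f5_an.PN.Exact

/-!
The main theorem for polynormed algebras.
-/

namespace Pool.Agent.Lib.MP_0546f5_an.PN

universe u

open Filter Topology
open scoped TensorProduct

lemma exists_functional {E : Type u} [AddCommGroup E] [Module ℂ E] (P : Seminorm ℂ E) (t : E) :
    ∃ φ : E →ₗ[ℂ] ℂ, (∀ u, ‖φ u‖ ≤ P u) ∧ φ t = P t := by
  by_cases ht : t = 0
  · subst ht
    exact ⟨0, fun u => by simp, by simp⟩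
  · obtain ⟨g, hg, hgP⟩ := Module.Dual.exists_extension_of_le_seminorm (Submodule.span ℂ {t})
      ((P t : ℂ) • (LinearEquiv.coord ℂ E t ht : Submodule.span ℂ {t} →ₗ[ℂ] ℂ)) (p := P) (by
        intro x
        have h1 : (LinearEquiv.coord ℂ E t ht x) • t = x := LinearEquiv.coord_apply_smul ℂ E t ht x
        rw [LinearMap.smul_apply, norm_smul, Complex.norm_real,
          Real.norm_of_nonneg (apply_nonneg _ _)]
        conv_rhs => rw [← h1, map_smul_eq_mul]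
        rw [mul_comm]
        exact le_rfl)
    refine ⟨g, hgP, ?_⟩
    have := hg ⟨t, Submodule.mem_span_singleton_self t⟩
    rw [this, LinearMap.smul_apply]
    simp [LinearEquiv.coord_self]

lemma exists_sup_seminorm {Λ Y X : Type u} [AddCommGroup Y] [Module ℂ Y] [UniformSpace Y]
    [AddCommGroup X] [Module ℂ X] [UniformSpace X] {R : Λ → Y → Y} {L : Λ → X → X}
    {S : Type u} (Φ : S → Y ⊗[ℂ] X →ₗ[ℂ] ℂ) (p : CS Y) (q : CS X)
    (hb : ∀ s y x, ‖Φ s (y ⊗ₜ[ℂ] x)‖ ≤ p.1 y * q.1 x)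
    (hbal : ∀ s a y x, Φ s (R a y ⊗ₜ[ℂ] x) = Φ s (y ⊗ₜ[ℂ] L a x)) :
    ∃ Q : Seminorm ℂ (Y ⊗[ℂ] X), IsBalanced R L Q ∧ ∀ s t, ‖Φ s t‖ ≤ Q t := by
  have hbdd : ∀ t : Y ⊗[ℂ] X, BddAbove (Set.range fun s => ‖Φ s t‖) := by
    intro t
    induction t using TensorProduct.induction_on with
    | zero => exact ⟨0, by rintro _ ⟨s, rfl⟩; simp⟩
    | tmul y x => exact ⟨p.1 y * q.1 x, by rintro _ ⟨s, rfl⟩; exact hb s y x⟩
    | add t t' ht ht' =>
      obtain ⟨a, ha⟩ := ht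
      obtain ⟨b, hb⟩ := ht'
      refine ⟨a + b, ?_⟩
      rintro _ ⟨s, rfl⟩
      simp only [map_add]
      exact (norm_add_le _ _).trans (add_le_add (ha ⟨s, rfl⟩) (hb ⟨s, rfl⟩))
  let P : Seminorm ℂ (Y ⊗[ℂ] X) := Seminorm.of (fun t => ⨆ s, ‖Φ s t‖)
    (by
      intro t t'
      refine Real.iSup_le (fun s => ?_) (add_nonneg (Real.iSup_nonneg fun _ => norm_nonneg _)
        (Real.iSup_nonneg fun _ => norm_nonneg _))
      rw [map_add]
      exact (norm_add_le _ _).trans (add_le_add (le_ciSup (hbdd t) s) (le_ciSup (hbdd t') s)))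
    (by
      intro c t
      rw [Real.mul_iSup_of_nonneg (norm_nonneg _)]
      congr 1
      ext s
      rw [map_smul, norm_smul])
  refine ⟨P, ⟨⟨p.1, q.1, p.2, q.2, fun y x => ?_⟩, fun a y x => ?_⟩,
    fun s t => le_ciSup (hbdd t) s⟩
  · exact Real.iSup_le (fun s => hb s y x) (mul_nonneg (apply_nonneg _ _) (apply_nonneg _ _))
  · refine le_antisymm (Real.iSup_le (fun s => ?_) le_rfl) (apply_nonneg _ _)
    rw [map_sub, hbal, sub_self, norm_zero]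

section unit

variable {A : Type u} [NonUnitalRing A] [Module ℂ A] [IsScalarTower ℂ A A]
  [SMulCommClass ℂ A A] [UniformSpace A] [IsPolynormed A] [ContinuousMul A]
variable {Y₁ Y₂ Y₃ : Type u}
    [AddCommGroup Y₁] [Module ℂ Y₁] [UniformSpace Y₁] [IsPolynormed Y₁]
    [AddCommGroup Y₂] [Module ℂ Y₂] [UniformSpace Y₂] [IsPolynormed Y₂]
    [AddCommGroup Y₃] [Module ℂ Y₃] [UniformSpace Y₃] [IsPolynormed Y₃]
    {l₁ r₁ : A → Y₁ → Y₁} {l₂ r₂ : A → Y₂ → Y₂} {l₃ r₃ : A → Y₃ → Y₃}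

theorem dominated_unit (hflat : AllLeftModulesFlat A) (i : Y₁ →L[ℂ] Y₂) (π : Y₂ →L[ℂ] Y₃)
    (hb₂ : IsBimodule l₂ r₂) (hb₃ : IsBimodule l₃ r₃)
    (hil : ∀ a y, i (l₁ a y) = l₂ a (i y)) (hir : ∀ a y, i (r₁ a y) = r₂ a (i y))
    (hπl : ∀ a y, π (l₂ a y) = l₃ a (π y)) (hπr : ∀ a y, π (r₂ a y) = r₃ a (π y))
    (hsplit : IsSplitExact i π) (P : Seminorm ℂ (Y₁ ⊗[ℂ] (A × ℂ)))
    (hP : IsBalanced (Sum.elim r₁ l₁) (Sum.elim unitL unitR) P) :
    ∃ Q : Seminorm ℂ (Y₂ ⊗[ℂ] (A × ℂ)), IsBalanced (Sum.elim r₂ l₂) (Sum.elim unitL unitR) Q ∧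
      ∀ t, P t ≤ Q (TensorProduct.map (i : Y₁ →ₗ[ℂ] Y₂)
        (LinearMap.id : (A × ℂ) →ₗ[ℂ] (A × ℂ)) t) := by
  obtain ⟨rr, s, hri, hπs, hπi, hid⟩ := hsplit
  obtain ⟨p₁, q₁, hp₁, hq₁, hpq⟩ := hP.cont
  let Sf : Type u := {φ : Y₁ ⊗[ℂ] (A × ℂ) →ₗ[ℂ] ℂ // ∀ t, ‖φ t‖ ≤ P t}
  let e : A × ℂ := (0, 1)
  -- consequences of balancedness
  have hbr : ∀ (φ : Sf) a y, φ.1 (r₁ a y ⊗ₜ[ℂ] e) = φ.1 (y ⊗ₜ[ℂ] ((a, 0) : A × ℂ)) := by
    intro φ a y
    have h1 := hP.bal (Sum.inl a) y e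
    have h2 : Sum.elim (unitL (A := A)) unitR (Sum.inl a) e = (a, 0) := by
      simp [unitL, e]
    rw [h2] at h1
    rw [← sub_eq_zero, ← map_sub, ← norm_le_zero_iff]
    exact (φ.2 _).trans h1.le
  have hbl : ∀ (φ : Sf) a y, φ.1 (l₁ a y ⊗ₜ[ℂ] e) = φ.1 (y ⊗ₜ[ℂ] ((a, 0) : A × ℂ)) := by
    intro φ a y
    have h1 := hP.bal (Sum.inr a) y e
    have h2 : Sum.elim (unitL (A := A)) unitR (Sum.inr a) e = (a, 0) := by
      simp [unitR, e]
    rw [h2] at h1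
    rw [← sub_eq_zero, ← map_sub, ← norm_le_zero_iff]
    exact (φ.2 _).trans h1.le
  let f : Sf → Y₁ →ₗ[ℂ] ℂ := fun φ => φ.1.comp ((TensorProduct.mk ℂ Y₁ (A × ℂ)).flip e)
  have hf : ∀ φ y, f φ y = φ.1 (y ⊗ₜ[ℂ] e) := fun _ _ => rfl
  have hflr : ∀ φ a y, f φ (r₁ a y) = f φ (l₁ a y) := fun φ a y => by
    rw [hf, hf, hbr, hbl]
  let g : Sf → Y₂ →ₗ[ℂ] ℂ := fun φ => (f φ).comp (rr : Y₂ →ₗ[ℂ] Y₁)
  have hgi : ∀ φ y, g φ (i y) = f φ y := fun φ y => by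
    change f φ (rr (i y)) = _
    rw [hri]
  let n₂ : CS Y₂ := ⟨Real.toNNReal (q₁ e) • p₁.comp (rr : Y₂ →ₗ[ℂ] Y₁),
    Continuous.const_smul (hp₁.comp rr.continuous) _⟩
  have hg : ∀ φ y, ‖g φ y‖ ≤ n₂.1 y := by
    intro φ y
    change ‖φ.1 (rr y ⊗ₜ[ℂ] e)‖ ≤ (Real.toNNReal (q₁ e) : ℝ) * p₁ (rr y)
    rw [Real.coe_toNNReal _ (apply_nonneg _ _), mul_comm]
    exact (φ.2 _).trans (hpq _ _)
  obtain ⟨pr, mr, hpr, hmr, hnr⟩ := exists_bound_map r₂ hb₂.right.smul_left hb₂.right.smul_right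
    hb₂.right.continuous n₂.1 n₂.2
  obtain ⟨pl, ml, hpl, hml, hnl⟩ := exists_bound_map l₂ hb₂.left.smul_left hb₂.left.smul_right
    hb₂.left.continuous n₂.1 n₂.2
  let E : Sf → A → Y₂ → ℂ := fun φ a y => g φ (r₂ a y) - g φ (l₂ a y)
  have hE : ∀ φ a y, E φ a y = g φ (r₂ a y) - g φ (l₂ a y) := fun _ _ _ => rfl
  have hEi : ∀ φ a y, E φ a (i y) = 0 := by
    intro φ a y
    rw [hE, ← hir, ← hil, hgi, hgi, hflr, sub_self]
  have hEadd : ∀ φ a y y', E φ a (y + y') = E φ a y + E φ a y' := by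
    intro φ a y y'
    rw [hE, hE, hE, hb₂.right.add_right, hb₂.left.add_right, map_add, map_add]
    ring
  have hEsmul : ∀ φ a (c : ℂ) y, E φ a (c • y) = c * E φ a y := by
    intro φ a c y
    rw [hE, hE, hb₂.right.smul_right, hb₂.left.smul_right, map_smul, map_smul, smul_eq_mul,
      smul_eq_mul]
    ring
  have hEder : ∀ φ a b y, E φ (a * b) y = E φ b (r₂ a y) + E φ a (l₂ b y) := by
    intro φ a b y
    rw [hE, hE, hE, hb₂.right.mul, hb₂.left.mul, hb₂.comm]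
    ring
  -- decomposition
  have hdec : ∀ y : Y₂, E = E ∧ y = i (rr y) + s (π y) := fun y => ⟨rfl, (hid y).symm⟩
  have hEs : ∀ φ a y, E φ a y = E φ a (s (π y)) := by
    intro φ a y
    conv_lhs => rw [← hid y]
    rw [hEadd, hEi, zero_add]
  let D : Sf → A → Y₃ → ℂ := fun φ a y => E φ a (s y)
  have hDE : ∀ φ a y, E φ a y = D φ a (π y) := fun φ a y => hEs φ a y
  have hDer : DerFam l₃ r₃ D ⟨pr + pl, hpr.add hpl⟩
      ⟨(mr + ml).comp (s : Y₃ →ₗ[ℂ] Y₂), (hmr.add hml).comp s.continuous⟩ := by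
    refine ⟨fun φ a b y => ?_, fun φ c a y => ?_, fun φ a y y' => ?_, fun φ c a y => ?_,
      fun φ a b y => ?_, fun φ a y => ?_⟩
    · change E φ (a + b) (s y) = E φ a (s y) + E φ b (s y)
      rw [hE, hE, hE, hb₂.right.add_left, hb₂.left.add_left, map_add, map_add]
      ring
    · change E φ (c • a) (s y) = c * E φ a (s y)
      rw [hE, hE, hb₂.right.smul_left, hb₂.left.smul_left, map_smul, map_smul, smul_eq_mul,
        smul_eq_mul]
      ring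
    · change E φ a (s (y + y')) = E φ a (s y) + E φ a (s y')
      rw [map_add, hEadd]
    · change E φ a (s (c • y)) = c * E φ a (s y)
      rw [map_smul, hEsmul]
    · change E φ (a * b) (s y) = D φ b (r₃ a y) + D φ a (l₃ b y)
      rw [hEder, hDE, hDE, hπr, hπl, hπs]
    · change ‖E φ a (s y)‖ ≤ (pr a + pl a) * (mr (s y) + ml (s y))
      rw [hE]
      refine (norm_sub_le _ _).trans ?_
      have h1 := (hg φ (r₂ a (s y))).trans (hnr a (s y))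
      have h2 := (hg φ (l₂ a (s y))).trans (hnl a (s y))
      have h3 := mul_nonneg (apply_nonneg pr a) (apply_nonneg ml (s y))
      have h4 := mul_nonneg (apply_nonneg pl a) (apply_nonneg mr (s y))
      nlinarith
  obtain ⟨h, ν, hν, hDh⟩ := inner_of_flat hflat hb₃ hDer
  let F : Sf → Y₂ →ₗ[ℂ] ℂ := fun φ => g φ - (h φ).comp (π : Y₂ →ₗ[ℂ] Y₃)
  have hF : ∀ φ y, F φ y = g φ y - h φ (π y) := fun _ _ => rfl
  have hFi : ∀ φ y, F φ (i y) = f φ y := fun φ y => by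
    rw [hF, hgi, hπi, map_zero, sub_zero]
  have hFtr : ∀ φ a y, F φ (r₂ a y) = F φ (l₂ a y) := by
    intro φ a y
    have h1 := hDE φ a y
    rw [hDh, hE] at h1
    rw [hF, hF, hπr, hπl]
    linear_combination h1
  let n₃ : CS Y₂ := ⟨n₂.1 + ν.1.comp (π : Y₂ →ₗ[ℂ] Y₃), n₂.2.add (ν.2.comp π.continuous)⟩
  have hFn : ∀ φ y, ‖F φ y‖ ≤ n₃.1 y := by
    intro φ y
    rw [hF]
    exact (norm_sub_le _ _).trans (add_le_add (hg φ y) (hν φ (π y)))
  obtain ⟨p₄, m₄, hp₄, hm₄, hn₄⟩ := exists_bound_map r₂ hb₂.right.smul_left hb₂.right.smul_right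
    hb₂.right.continuous n₃.1 n₃.2
  let Φ : Sf → Y₂ ⊗[ℂ] (A × ℂ) →ₗ[ℂ] ℂ := fun φ => TensorProduct.lift
    (LinearMap.mk₂ ℂ (fun (y : Y₂) (x : A × ℂ) => F φ (r₂ x.1 y) + x.2 * F φ y)
      (fun y y' x => by rw [hb₂.right.add_right, map_add, map_add]; ring)
      (fun c y x => by
        rw [hb₂.right.smul_right, map_smul, map_smul, smul_eq_mul, smul_eq_mul, smul_eq_mul]; ring)
      (fun y x x' => by
        rw [Prod.fst_add, Prod.snd_add, hb₂.right.add_left, map_add]; ring)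
      (fun c y x => by
        rw [Prod.smul_fst, Prod.smul_snd, hb₂.right.smul_left, map_smul, smul_eq_mul, smul_eq_mul,
          smul_eq_mul]; ring))
  have hΦ : ∀ φ y (x : A × ℂ), Φ φ (y ⊗ₜ[ℂ] x) = F φ (r₂ x.1 y) + x.2 * F φ y := fun _ _ _ => rfl
  obtain ⟨Q, hQ, hΦQ⟩ := exists_sup_seminorm (R := Sum.elim r₂ l₂)
    (L := Sum.elim (unitL (A := A)) unitR) Φ ⟨n₃.1 + m₄, n₃.2.add hm₄⟩
    ⟨p₄.comp (LinearMap.fst ℂ A ℂ) + (normSeminorm ℂ ℂ).comp (LinearMap.snd ℂ A ℂ),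
      (hp₄.comp continuous_fst).add (continuous_norm.comp continuous_snd)⟩
    (by
      intro φ y x
      rw [hΦ]
      change _ ≤ (n₃.1 y + m₄ y) * (p₄ x.1 + ‖x.2‖)
      refine (norm_add_le _ _).trans ?_
      rw [norm_mul]
      have h1 := (hFn φ (r₂ x.1 y)).trans (hn₄ x.1 y)
      have h2 := mul_le_mul_of_nonneg_left (hFn φ y) (norm_nonneg x.2)
      have h3 := mul_nonneg (apply_nonneg n₃.1 y) (apply_nonneg p₄ x.1)
      have h4 := mul_nonneg (apply_nonneg m₄ y) (norm_nonneg x.2)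
      nlinarith)
    (by
      rintro φ (a | a) y x
      · change Φ φ (r₂ a y ⊗ₜ[ℂ] x) = Φ φ (y ⊗ₜ[ℂ] unitL a x)
        rw [hΦ, hΦ]
        simp only [unitL]
        rw [zero_mul, add_zero, hb₂.right.add_left, hb₂.right.smul_left, hb₂.right.mul, map_add,
          map_smul, smul_eq_mul]
      · change Φ φ (l₂ a y ⊗ₜ[ℂ] x) = Φ φ (y ⊗ₜ[ℂ] unitR a x)
        rw [hΦ, hΦ]
        simp only [unitR]
        rw [zero_mul, add_zero, hb₂.right.add_left, hb₂.right.smul_left, hb₂.right.mul, map_add,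
          map_smul, smul_eq_mul, hFtr φ a (r₂ x.1 y), hFtr φ a y, hb₂.comm])
  refine ⟨Q, hQ, fun t => ?_⟩
  obtain ⟨φ₀, hφ₀, hφt⟩ := exists_functional P t
  let φ : Sf := ⟨φ₀, hφ₀⟩
  have hcomp : ∀ u, Φ φ (TensorProduct.map (i : Y₁ →ₗ[ℂ] Y₂)
      (LinearMap.id : (A × ℂ) →ₗ[ℂ] (A × ℂ)) u) = φ₀ u := by
    intro u
    have : (Φ φ) ∘ₗ (TensorProduct.map (i : Y₁ →ₗ[ℂ] Y₂)
        (LinearMap.id : (A × ℂ) →ₗ[ℂ] (A × ℂ))) = φ₀ := by
      refine TensorProduct.ext' fun y x => ?_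
      rw [LinearMap.comp_apply, TensorProduct.map_tmul, LinearMap.id_apply,
        ContinuousLinearMap.coe_coe, hΦ, ← hir, hFi, hFi, hf, hf, hbr, ← smul_eq_mul,
        ← map_smul, ← map_add, TensorProduct.smul_tmul', TensorProduct.smul_tmul]
      change φ₀ (y ⊗ₜ[ℂ] ((x.1, 0) : A × ℂ) + y ⊗ₜ[ℂ] (x.2 • e)) = _
      rw [← TensorProduct.tmul_add]
      congr 2
      refine Prod.ext ?_ ?_
      · simp [e]
      · simp [e]
    exact congrArg (fun f => f u) this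
  have h1 := hΦQ φ (TensorProduct.map (i : Y₁ →ₗ[ℂ] Y₂)
      (LinearMap.id : (A × ℂ) →ₗ[ℂ] (A × ℂ)) t)
  rw [hcomp, hφt, Complex.norm_real, Real.norm_of_nonneg (apply_nonneg _ _)] at h1
  exact h1

/-- Main theorem: a polynormed algebra over which all left modules are flat is amenable. -/
theorem isAmenable_of_allLeftModulesFlat (hflat : AllLeftModulesFlat A) : IsAmenable A := by
  intro Y₁ Y₂ Y₃ _ _ _ _ _ _ _ _ _ _ _ _ l₁ r₁ l₂ r₂ l₃ r₃ i π hb₁ hb₂ hb₃ hil hir hπl hπr hs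
  refine isTopExact_of_dominated i π ?_ ?_ hs
    (dominated_unit hflat i π hb₂ hb₃ hil hir hπl hπr hs)
  · rintro (a | a) y
    · exact hir a y
    · exact hil a y
  · rintro (a | a) y
    · exact hπr a y
    · exact hπl a y

end unit

end Pool.Agent.Lib.MP_0546f5_an.PN
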