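import Pool.Agent.Lib.MP_0546f5_an.PN.Final

/-!
Sanity checks for the definitions: the unitization `A × ℂ` is a complete Hausdorff locally convex
space and an `A`-bimodule.
-/

namespace Pool.Agent.Lib.MP_0546f5_an.PN

universe u

section

variable {A : Type u} [NonUnitalRing A] [Module ℂ A] [IsScalarTower ℂ A A]
  [SMulCommClass ℂ A A] [UniformSpace A] [IsPolynormed A] [ContinuousMul A]

instance : IsPolynormed (A × ℂ) where

/-- `A₊ = A × ℂ` is an `A`-bimodule. -/
theorem isBimodule_unit : IsBimodule (A := A) (X := A × ℂ) unitL unitR where
  left :=
    { add_left := fun a b x => by
        refine Prod.ext ?_ ?_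
        · simp only [unitL, Prod.fst_add, add_mul, smul_add]
          abel
        · simp [unitL]
      smul_left := fun c a x => by
        refine Prod.ext ?_ ?_
        · simp only [unitL, Prod.smul_fst, smul_mul_assoc, smul_add, smul_comm x.2 c a]
        · simp [unitL]
      add_right := fun a x y => by
        refine Prod.ext ?_ ?_
        · simp only [unitL, Prod.fst_add, Prod.snd_add, mul_add, add_smul]
          abel
        · simp [unitL]
      smul_right := fun c a x => by
        refine Prod.ext ?_ ?_
        · simp only [unitL, Prod.smul_fst, Prod.smul_snd, mul_smul_comm, smul_add, smul_smul,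
            smul_eq_mul]
        · simp [unitL]
      mul := fun a b x => by
        refine Prod.ext ?_ ?_
        · simp only [unitL, mul_add, mul_assoc, mul_smul_comm, zero_smul, add_zero]
        · simp [unitL]
      continuous := by
        have hsm : ContinuousSMul ℂ A := (PolynormableSpace.withSeminorms ℂ A).continuousSMul
        unfold unitL
        exact ((continuous_fst.mul (continuous_fst.comp continuous_snd)).add
          ((continuous_snd.comp continuous_snd).smul continuous_fst)).prodMk continuous_const }
  right :=
    { add_left := fun a b x => by
        refine Prod.ext ?_ ?_
        · simp only [unitR, Prod.fst_add, mul_add, smul_add]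
          abel
        · simp [unitR]
      smul_left := fun c a x => by
        refine Prod.ext ?_ ?_
        · simp only [unitR, Prod.smul_fst, mul_smul_comm, smul_add, smul_comm x.2 c a]
        · simp [unitR]
      add_right := fun a x y => by
        refine Prod.ext ?_ ?_
        · simp only [unitR, Prod.fst_add, Prod.snd_add, add_mul, add_smul]
          abel
        · simp [unitR]
      smul_right := fun c a x => by
        refine Prod.ext ?_ ?_
        · simp only [unitR, Prod.smul_fst, Prod.smul_snd, smul_mul_assoc, smul_add, smul_smul,
            smul_eq_mul]
        · simp [unitR]
      mul := fun a b x => by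
        refine Prod.ext ?_ ?_
        · simp only [unitR, add_mul, mul_assoc, smul_mul_assoc, zero_smul, add_zero]
        · simp [unitR]
      continuous := by
        have hsm : ContinuousSMul ℂ A := (PolynormableSpace.withSeminorms ℂ A).continuousSMul
        unfold unitR
        exact (((continuous_fst.comp continuous_snd).mul continuous_fst).add
          ((continuous_snd.comp continuous_snd).smul continuous_fst)).prodMk continuous_const }
  comm := fun a b x => by
    refine Prod.ext ?_ ?_
    · simp only [unitL, unitR, mul_add, add_mul, mul_assoc, zero_smul, add_zero, smul_mul_assoc,
        mul_smul_comm]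
    · simp [unitL, unitR]

end

end Pool.Agent.Lib.MP_0546f5_an.PN
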