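import Pool.Agent.Lib.MP_0546f5_an.PN.Stmt

/-!
Seminorm estimates for jointly continuous bilinear maps; words.
-/

namespace Pool.Agent.Lib.MP_0546f5_an.PN

universe u v w

open Filter Topology

/-- continuous seminorms -/
abbrev CS (E : Type u) [AddCommGroup E] [Module ℂ E] [TopologicalSpace E] : Type u :=
  {p : Seminorm ℂ E // Continuous p}

section

variable {E : Type u} [AddCommGroup E] [Module ℂ E] [TopologicalSpace E]
variable {F : Type v} [AddCommGroup F] [Module ℂ F] [TopologicalSpace F]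
variable {G : Type w} [AddCommGroup G] [Module ℂ G] [TopologicalSpace G]

lemma exists_ball [PolynormableSpace ℂ E] {U : Set E} (hU : U ∈ 𝓝 (0 : E)) :
    ∃ p : Seminorm ℂ E, Continuous p ∧ ∀ x, p x < 1 → x ∈ U := by
  have hw := PolynormableSpace.withSeminorms ℂ E
  have := hw.topologicalAddGroup
  obtain ⟨⟨s, r⟩, hr, hs⟩ := hw.hasBasis_zero_ball.mem_iff.1 hU
  have hr' : (0 : ℝ) < r⁻¹ := inv_pos.2 hr
  refine ⟨(Real.toNNReal r⁻¹) • s.sup (fun p : CS E => p.1), ?_, fun x hx => ?_⟩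
  · exact Continuous.const_smul (Seminorm.continuous_finsetSup fun i _ => i.2) _
  · apply hs
    rw [Seminorm.mem_ball_zero]
    have h1 : (Real.toNNReal r⁻¹ : ℝ) * (s.sup (fun p : CS E => p.1)) x < 1 := hx
    rw [Real.coe_toNNReal _ hr'.le] at h1
    rwa [inv_mul_lt_iff₀ hr, mul_one] at h1

omit [TopologicalSpace E] in
/-- scaling -/
lemma homog_bound (p : Seminorm ℂ E) (f : E → ℝ) (hf : ∀ (c : ℂ) e, f (c • e) = ‖c‖ * f e)
    {K : ℝ} (hK : 0 ≤ K) (h : ∀ e, p e ≤ 1 → f e ≤ K) (e : E) : f e ≤ K * p e := by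
  rcases (apply_nonneg p e).eq_or_lt with h0 | h0
  · rw [← h0, mul_zero]
    by_contra hcon
    push Not at hcon
    have h1 : ∀ t : ℝ, 0 ≤ t → t * f e ≤ K := by
      intro t ht
      have := h ((t : ℂ) • e) (by rw [map_smul_eq_mul, ← h0, mul_zero]; exact zero_le_one)
      rwa [hf, Complex.norm_real, Real.norm_of_nonneg ht] at this
    have h2 := h1 ((K + 1) / f e) (by positivity)
    rw [div_mul_cancel₀ _ hcon.ne'] at h2
    linarith
  · have := h ((((p e)⁻¹ : ℝ) : ℂ) • e) (by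
      rw [map_smul_eq_mul, Complex.norm_real,
        Real.norm_of_nonneg (inv_nonneg.2 h0.le), inv_mul_cancel₀ h0.ne'])
    rw [hf, Complex.norm_real, Real.norm_of_nonneg (inv_nonneg.2 h0.le),
      inv_mul_le_iff₀ h0] at this
    linarith

/-- a doubly homogeneous function which is small near zero is bounded by a product of seminorms -/
lemma exists_bound₂ [PolynormableSpace ℂ E] [PolynormableSpace ℂ F] (Φ : E → F → ℝ)
    (h1 : ∀ (c : ℂ) e f, Φ (c • e) f = ‖c‖ * Φ e f) (h2 : ∀ (c : ℂ) e f, Φ e (c • f) = ‖c‖ * Φ e f)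
    (h : ∀ᶠ z : E × F in 𝓝 0, Φ z.1 z.2 < 1) :
    ∃ (p : Seminorm ℂ E) (q : Seminorm ℂ F), Continuous p ∧ Continuous q ∧
      ∀ e f, Φ e f ≤ p e * q f := by
  rw [← Prod.mk_zero_zero, nhds_prod_eq] at h
  obtain ⟨U, hU, V, hV, hUV⟩ := Filter.eventually_prod_iff.1 h
  obtain ⟨p, hp, hpU⟩ := exists_ball hU
  obtain ⟨q, hq, hqV⟩ := exists_ball hV
  have hpc : Continuous ((2 : NNReal) • p) := Continuous.const_smul hp _
  have hqc : Continuous ((2 : NNReal) • q) := Continuous.const_smul hq _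
  refine ⟨(2 : NNReal) • p, (2 : NNReal) • q, hpc, hqc, fun e f => ?_⟩
  have key : ∀ e f, ((2 : NNReal) • p) e ≤ 1 → ((2 : NNReal) • q) f ≤ 1 → Φ e f ≤ 1 := by
    intro e f he hf
    have he' : 2 * p e ≤ 1 := he
    have hf' : 2 * q f ≤ 1 := hf
    exact (hUV (hpU e (by linarith)) (hqV f (by linarith))).le
  have step : ∀ f, ((2 : NNReal) • q) f ≤ 1 → ∀ e, Φ e f ≤ 1 * ((2 : NNReal) • p) e := fun f hf e =>
    homog_bound _ (fun e => Φ e f) (fun c e => h1 c e f) zero_le_one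
      (fun e he => key e f he hf) e
  have := homog_bound ((2 : NNReal) • q) (fun f => Φ e f) (fun c f => h2 c e f)
    (apply_nonneg ((2 : NNReal) • p) e) (fun f hf => by simpa using step f hf e) f
  exact this

/-- a biadditive map with seminorm estimates is jointly continuous -/
lemma continuous_of_bound {ι : Type*} {P : SeminormFamily ℂ G ι} (hP : WithSeminorms P)
    (B : E → F → G) (hadd₁ : ∀ e e' f, B (e + e') f = B e f + B e' f)
    (hadd₂ : ∀ e f f', B e (f + f') = B e f + B e f')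
    [IsTopologicalAddGroup E] [IsTopologicalAddGroup F]
    (h : ∀ j, ∃ (p : Seminorm ℂ E) (q : Seminorm ℂ F), Continuous p ∧ Continuous q ∧
      ∀ e f, P j (B e f) ≤ p e * q f) : Continuous (fun z : E × F => B z.1 z.2) := by
  rw [continuous_iff_continuousAt]
  rintro ⟨e₀, f₀⟩
  rw [ContinuousAt, hP.tendsto_nhds]
  intro j ε hε
  obtain ⟨p, q, hp, hq, hpq⟩ := h j
  have hsub₁ : ∀ e e' f, B (e - e') f = B e f - B e' f := fun e e' f => by
    rw [eq_sub_iff_add_eq, ← hadd₁, sub_add_cancel]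
  have hsub₂ : ∀ e f f', B e (f - f') = B e f - B e f' := fun e f f' => by
    rw [eq_sub_iff_add_eq, ← hadd₂, sub_add_cancel]
  have hlim : Tendsto (fun z : E × F => p (z.1 - e₀) * q z.2 + p e₀ * q (z.2 - f₀))
      (𝓝 (e₀, f₀)) (𝓝 (p (e₀ - e₀) * q f₀ + p e₀ * q (f₀ - f₀))) := by
    apply ContinuousAt.tendsto (f := fun z : E × F => p (z.1 - e₀) * q z.2 + p e₀ * q (z.2 - f₀))
    fun_prop
  rw [sub_self, sub_self, map_zero, map_zero, zero_mul, mul_zero, add_zero] at hlim
  filter_upwards [hlim.eventually (gt_mem_nhds hε)] with z hz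
  refine lt_of_le_of_lt ?_ hz
  have : B z.1 z.2 - B e₀ f₀ = B (z.1 - e₀) z.2 + B e₀ (z.2 - f₀) := by
    rw [hsub₁, hsub₂]; abel
  rw [this]
  exact (map_add_le_add _ _ _).trans (add_le_add (hpq _ _) (hpq _ _))

/-- seminorm estimate for a jointly continuous bilinear map -/
lemma exists_bound_map [PolynormableSpace ℂ E] [PolynormableSpace ℂ F]
    (B : E → F → G) (hs₁ : ∀ (c : ℂ) e f, B (c • e) f = c • B e f)
    (hs₂ : ∀ (c : ℂ) e f, B e (c • f) = c • B e f)
    (hB : Continuous (fun z : E × F => B z.1 z.2)) (g : Seminorm ℂ G) (hg : Continuous g) :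
    ∃ (p : Seminorm ℂ E) (q : Seminorm ℂ F), Continuous p ∧ Continuous q ∧
      ∀ e f, g (B e f) ≤ p e * q f := by
  refine exists_bound₂ (fun e f => g (B e f)) (fun c e f => ?_) (fun c e f => ?_) ?_
  · simp only [hs₁, map_smul_eq_mul]
  · simp only [hs₂, map_smul_eq_mul]
  · have h1 : Tendsto (fun z : E × F => g (B z.1 z.2)) (𝓝 0) (𝓝 (g (B 0 0))) :=
      (hg.comp hB).tendsto' 0 _ rfl
    have h2 : B 0 0 = (0 : G) := by
      have := hs₁ 0 0 (0 : F)
      rwa [zero_smul, zero_smul] at this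
    rw [h2, map_zero] at h1
    exact h1.eventually (gt_mem_nhds zero_lt_one)

end

section words

variable {A : Type u} [NonUnitalRing A] [Module ℂ A] [IsScalarTower ℂ A A] [SMulCommClass ℂ A A]
  [UniformSpace A] [IsPolynormed A] [ContinuousMul A]

lemma exists_next (p : CS A) : ∃ p' : CS A, (∀ a, p.1 a ≤ p'.1 a) ∧
    ∀ a b, p.1 (a * b) ≤ p'.1 a * p'.1 b := by
  obtain ⟨q, q', hq, hq', h⟩ := exists_bound_map (fun a b : A => a * b)
    (fun c a b => smul_mul_assoc c a b) (fun c a b => mul_smul_comm c a b) continuous_mul p.1 p.2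
  refine ⟨⟨q + q' + p.1, ?_⟩, fun a => ?_, fun a b => ?_⟩
  · exact (hq.add hq').add p.2
  · change p.1 a ≤ q a + q' a + p.1 a
    have := apply_nonneg q a
    have := apply_nonneg q' a
    linarith
  · refine (h a b).trans ?_
    change q a * q' b ≤ (q a + q' a + p.1 a) * (q b + q' b + p.1 b)
    have h1 := apply_nonneg q a
    have h2 := apply_nonneg q' a
    have h3 := apply_nonneg p.1 a
    have h4 := apply_nonneg q b
    have h5 := apply_nonneg q' b
    have h6 := apply_nonneg p.1 b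
    exact mul_le_mul (by linarith) (by linarith) h5 (by linarith)

/-- a seminorm controlling products -/
noncomputable def nx (p : CS A) : CS A := Classical.choose (exists_next p)

lemma le_nx (p : CS A) (a : A) : p.1 a ≤ (nx p).1 a := (Classical.choose_spec (exists_next p)).1 a

lemma mul_le_nx (p : CS A) (a b : A) : p.1 (a * b) ≤ (nx p).1 a * (nx p).1 b :=
  (Classical.choose_spec (exists_next p)).2 a b

/-- iterates of `nx` -/
noncomputable def nxi (p : CS A) : ℕ → CS A
  | 0 => p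
  | n + 1 => nx (nxi p n)

@[simp] lemma nxi_zero (p : CS A) : nxi p 0 = p := rfl
lemma nxi_succ (p : CS A) (n : ℕ) : nxi p (n + 1) = nx (nxi p n) := rfl

/-- words with small letters -/
def W (p : CS A) : ℕ → Set (List A)
  | 0 => {[]}
  | n + 1 => {w | ∃ b w', w = b :: w' ∧ (nxi p (n + 1)).1 b ≤ 1 ∧ w' ∈ W p n}

@[simp] lemma mem_W_zero (p : CS A) (w : List A) : w ∈ W p 0 ↔ w = [] := Iff.rfl

lemma mem_W_succ (p : CS A) (n : ℕ) (w : List A) : w ∈ W p (n + 1) ↔
    ∃ b w', w = b :: w' ∧ (nxi p (n + 1)).1 b ≤ 1 ∧ w' ∈ W p n := Iff.rfl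

lemma cons_mem_W {p : CS A} {n : ℕ} {b : A} {w : List A} (hb : (nxi p (n + 1)).1 b ≤ 1)
    (hw : w ∈ W p n) : b :: w ∈ W p (n + 1) := ⟨b, w, rfl, hb, hw⟩

lemma foldl_bound (p : CS A) (n : ℕ) (w : List A) (hw : w ∈ W p n) (c : A) :
    p.1 (w.foldl (· * ·) c) ≤ (nxi p n).1 c := by
  induction n generalizing w c with
  | zero => rw [mem_W_zero] at hw; subst hw; exact le_rfl
  | succ n ih =>
    obtain ⟨b, w', rfl, hb, hw'⟩ := hw
    rw [List.foldl_cons]
    refine (ih w' hw' (c * b)).trans ((mul_le_nx _ _ _).trans ?_)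
    rw [← nxi_succ]
    exact mul_le_of_le_one_right (apply_nonneg _ _) hb

end words

end Pool.Agent.Lib.MP_0546f5_an.PN
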