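import Pool.Agent.Lib.MP_0546f5_an.PN.Sup

/-!
Right modules of functions with jointly continuous action.
-/

namespace Pool.Agent.Lib.MP_0546f5_an.PN

universe u v

open Filter Topology

/-- data for a right module of functions `K → E` -/
structure SmData (A K : Type u) (E : Type v) [NonUnitalRing A] [Module ℂ A] [IsScalarTower ℂ A A]
    [SMulCommClass ℂ A A] [UniformSpace A] [IsPolynormed A] [ContinuousMul A]
    [AddCommGroup E] [Module ℂ E] [UniformSpace E] where
  C : Submodule ℂ (K → E)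
  closed : IsClosed (C : Set (K → E))
  R : A → (K → E) →ₗ[ℂ] (K → E)
  R_cont : ∀ a, Continuous (R a)
  R_add : ∀ a b, ∀ y ∈ C, R (a + b) y = R a y + R b y
  R_smul : ∀ (c : ℂ) a, ∀ y ∈ C, R (c • a) y = c • R a y
  R_mul : ∀ a b y, R (a * b) y = R b (R a y)
  inv : ∀ a, ∀ y ∈ C, R a y ∈ C
  B : Type u
  T : B → Type u
  n : ∀ β, T β → Seminorm ℂ (K → E)
  n_cont : ∀ β t, Continuous (n β t)
  om : B → CS A
  dom : ∀ (k : K) (m : Seminorm ℂ E), Continuous m → ∃ (s : Finset B) (c : ℝ), ∀ y ∈ C,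
    (∀ β, BddAbove (Set.range fun t => n β t y)) → m (y k) ≤ c * ∑ β ∈ s, ⨆ t, n β t y

namespace SmData

variable {A K : Type u} {E : Type v} [NonUnitalRing A] [Module ℂ A] [IsScalarTower ℂ A A]
  [SMulCommClass ℂ A A] [UniformSpace A] [IsPolynormed A] [ContinuousMul A]
  [AddCommGroup E] [Module ℂ E] [UniformSpace E] (d : SmData A K E)

/-- action of a word -/
def Rw : List A → (K → E) →ₗ[ℂ] (K → E)
  | [] => LinearMap.id
  | b :: w => (Rw w).comp (d.R b)

@[simp] lemma Rw_nil (y : K → E) : d.Rw [] y = y := rfl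
@[simp] lemma Rw_cons (b : A) (w : List A) (y : K → E) : d.Rw (b :: w) y = d.Rw w (d.R b y) := rfl

lemma Rw_cont (w : List A) : Continuous (d.Rw w) := by
  induction w with
  | nil => exact continuous_id
  | cons b w ih => exact ih.comp (d.R_cont b)

/-- the function space data -/
noncomputable def sup : SupData K E where
  C := d.C
  closed := d.closed
  J := d.B × ULift.{u} ℕ
  T j := d.T j.1 × {w : List A // w ∈ W (d.om j.1) j.2.down}
  sn j t := (d.n j.1 t.1).comp (d.Rw t.2.1)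
  cont j t := (d.n_cont j.1 t.1).comp (d.Rw_cont t.2.1)
  dom := by
    intro k m hm
    obtain ⟨s, c, h⟩ := d.dom k m hm
    classical
    refine ⟨s.map ⟨fun β => (β, ULift.up 0), fun β β' h => (Prod.mk.inj h).1⟩, c,
      fun y hy hb => ?_⟩
    have h1 := h y hy (fun β => by
      obtain ⟨a, ha⟩ := hb (β, ULift.up 0)
      refine ⟨a, ?_⟩
      rintro _ ⟨t, rfl⟩
      exact ha ⟨(t, ⟨[], rfl⟩), rfl⟩)
    refine h1.trans (le_of_eq ?_)
    rw [Finset.sum_map]
    congr 1
    refine Finset.sum_congr rfl fun β _ => ?_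
    let e : d.T β ≃ d.T β × {w : List A // w ∈ W (d.om β) 0} :=
      { toFun := fun t => (t, ⟨[], rfl⟩)
        invFun := fun t => t.1
        left_inv := fun t => rfl
        right_inv := fun ⟨t, w, hw⟩ => by
          have : w = [] := hw
          subst this
          rfl }
    exact e.iSup_congr fun t => rfl

/-- the right module -/
abbrev Sp : Type (max u v) := d.sup.Sp

lemma R_zero_apply (y : K → E) (hy : y ∈ d.C) : d.R 0 y = 0 := by
  have := d.R_smul 0 0 y hy
  rwa [zero_smul, zero_smul] at this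

lemma Rw_smul_cons (c : ℂ) (b : A) (w : List A) (y : K → E) (hy : y ∈ d.C) :
    d.Rw ((c • b) :: w) y = c • d.Rw (b :: w) y := by
  rw [Rw_cons, Rw_cons, d.R_smul c b y hy, map_smul]

lemma word_bound (y : d.Sp) (β : d.B) (k : ℕ) (t : d.T β) (w : List A) (hw : w ∈ W (d.om β) k)
    (a : A) : d.n β t (d.Rw w (d.R a (d.sup.fn y))) ≤
      d.sup.p (β, ULift.up (k + 1)) y * (nxi (d.om β) (k + 1)).1 a := by
  refine homog_bound (nxi (d.om β) (k + 1)).1
    (fun a => d.n β t (d.Rw w (d.R a (d.sup.fn y)))) (fun c e => ?_) (apply_nonneg _ _)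
    (fun e he => ?_) a
  · rw [d.R_smul c e _ (d.sup.fn_mem y), map_smul, map_smul_eq_mul]
  · exact d.sup.sn_le (β, ULift.up (k + 1)) (t, ⟨e :: w, cons_mem_W he hw⟩) y

/-- the right action -/
noncomputable def act (a : A) (y : d.Sp) : d.Sp :=
  d.sup.mkSp (d.R a (d.sup.fn y)) (d.inv a _ (d.sup.fn_mem y)) (by
    rintro ⟨β, ⟨k⟩⟩
    refine ⟨d.sup.p (β, ULift.up (k + 1)) y * (nxi (d.om β) (k + 1)).1 a, ?_⟩
    rintro _ ⟨⟨t, ⟨w, hw⟩⟩, rfl⟩
    exact d.word_bound y β k t w hw a)

@[simp] lemma fn_act (a : A) (y : d.Sp) : d.sup.fn (d.act a y) = d.R a (d.sup.fn y) := rfl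

lemma p_act_le (β : d.B) (k : ℕ) (a : A) (y : d.Sp) : d.sup.p (β, ULift.up k) (d.act a y) ≤
    (nxi (d.om β) (k + 1)).1 a * d.sup.p (β, ULift.up (k + 1)) y := by
  refine d.sup.p_le (mul_nonneg (apply_nonneg _ _) (apply_nonneg _ _)) ?_
  rintro ⟨t, ⟨w, hw⟩⟩
  rw [mul_comm]
  exact d.word_bound y β k t w hw a

lemma ext' {x y : d.Sp} (h : d.sup.fn x = d.sup.fn y) : x = y := Subtype.ext h

theorem isRightModule : IsRightModule d.act where
  add_left a b y := d.ext' (by rw [fn_act, map_add, fn_act, fn_act, d.R_add a b _ (d.sup.fn_mem y)])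
  smul_left c a y := d.ext' (by rw [fn_act, map_smul, fn_act, d.R_smul c a _ (d.sup.fn_mem y)])
  add_right a y z := d.ext' (by simp)
  smul_right c a y := d.ext' (by simp)
  mul a b y := d.ext' (by simp [d.R_mul])
  continuous := by
    refine continuous_of_bound d.sup.withSeminorms d.act
      (fun a b y => d.ext' (by
        rw [fn_act, map_add, fn_act, fn_act, d.R_add a b _ (d.sup.fn_mem y)]))
      (fun a y z => d.ext' (by simp)) ?_
    rintro ⟨β, ⟨k⟩⟩
    exact ⟨_, _, (nxi (d.om β) (k + 1)).2, d.sup.continuous_p (β, ULift.up (k + 1)),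
      fun a y => d.p_act_le β k a y⟩

end SmData

end Pool.Agent.Lib.MP_0546f5_an.PN
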