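import Mathlib

/-!
Polynormed algebras and modules, completed module tensor products, flatness, amenability.
-/

namespace Pool.Agent.Lib.MP_0546f5_an.PN

universe u v

open scoped TensorProduct

/-- A complete Hausdorff locally convex space over `ℂ` (`PolynormableSpace`: the topology is
given by a family of seminorms). -/
class IsPolynormed (E : Type u) [AddCommGroup E] [Module ℂ E] [UniformSpace E] : Prop extends
  IsUniformAddGroup E, PolynormableSpace ℂ E, T2Space E, CompleteSpace E

section modules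

variable {A : Type u} {X : Type v} [NonUnitalRing A] [Module ℂ A] [UniformSpace A]
  [AddCommGroup X] [Module ℂ X] [UniformSpace X]

/-- `act a x = a • x` makes `X` a left `A`-module with jointly continuous action. -/
structure IsLeftModule (act : A → X → X) : Prop where
  add_left : ∀ a b x, act (a + b) x = act a x + act b x
  smul_left : ∀ (c : ℂ) a x, act (c • a) x = c • act a x
  add_right : ∀ a x y, act a (x + y) = act a x + act a y
  smul_right : ∀ (c : ℂ) a x, act a (c • x) = c • act a x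
  mul : ∀ a b x, act (a * b) x = act a (act b x)
  continuous : Continuous (fun p : A × X => act p.1 p.2)

/-- `act a x = x • a` makes `X` a right `A`-module with jointly continuous action. -/
structure IsRightModule (act : A → X → X) : Prop where
  add_left : ∀ a b x, act (a + b) x = act a x + act b x
  smul_left : ∀ (c : ℂ) a x, act (c • a) x = c • act a x
  add_right : ∀ a x y, act a (x + y) = act a x + act a y
  smul_right : ∀ (c : ℂ) a x, act a (c • x) = c • act a x
  mul : ∀ a b x, act (a * b) x = act b (act a x)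
  continuous : Continuous (fun p : A × X => act p.1 p.2)

/-- `l a x = a • x` and `r a x = x • a` make `X` an `A`-bimodule. -/
structure IsBimodule (l r : A → X → X) : Prop where
  left : IsLeftModule l
  right : IsRightModule r
  comm : ∀ a b x, l a (r b x) = r b (l a x)

end modules

section tensor

variable {Λ Y X : Type u} [AddCommGroup Y] [Module ℂ Y] [UniformSpace Y]
  [AddCommGroup X] [Module ℂ X] [UniformSpace X]

/-- `P` is a seminorm on the algebraic tensor product `Y ⊗ X` which is continuous for the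
projective topology and vanishes on the elements `R a y ⊗ x - y ⊗ L a x`. -/
structure IsBalanced (R : Λ → Y → Y) (L : Λ → X → X) (P : Seminorm ℂ (Y ⊗[ℂ] X)) : Prop where
  cont : ∃ (p : Seminorm ℂ Y) (q : Seminorm ℂ X), Continuous p ∧ Continuous q ∧
    ∀ y x, P (y ⊗ₜ[ℂ] x) ≤ p y * q x
  bal : ∀ a y x, P (R a y ⊗ₜ[ℂ] x - y ⊗ₜ[ℂ] L a x) = 0

/-- The algebraic tensor product `Y ⊗ X`, with the topology given by the seminorms above. Its
Hausdorff quotient is `Y ⊗ X` with the projective topology modulo the closed linear span of the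
elements `R a y ⊗ x - y ⊗ L a x`. -/
def PreTensor (_R : Λ → Y → Y) (_L : Λ → X → X) : Type u := Y ⊗[ℂ] X

variable (R : Λ → Y → Y) (L : Λ → X → X)

noncomputable instance : AddCommGroup (PreTensor R L) := inferInstanceAs (AddCommGroup (Y ⊗[ℂ] X))

noncomputable instance : Module ℂ (PreTensor R L) := inferInstanceAs (Module ℂ (Y ⊗[ℂ] X))

noncomputable instance : UniformSpace (PreTensor R L) :=
  ⨅ P : {P : Seminorm ℂ (Y ⊗[ℂ] X) // IsBalanced R L P},
    P.1.toSeminormedAddCommGroup.toUniformSpace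

/-- The completed projective tensor product of `Y` and `X` over the operators `R` and `L`: the
completion of the quotient of `Y ⊗ X` by the closed linear span of the elements
`R a y ⊗ x - y ⊗ L a x`. (`UniformSpace.Completion` is the Hausdorff completion.) For `R`, `L` the
actions of an algebra `A` this is the module tensor product of `Y` and `X` over `A`. -/
abbrev CTensor : Type u := UniformSpace.Completion (PreTensor R L)

end tensor

section maps

variable {Λ X Y₁ Y₂ Y₃ : Type u} [AddCommGroup X] [Module ℂ X] [UniformSpace X]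
  [AddCommGroup Y₁] [Module ℂ Y₁] [UniformSpace Y₁]
  [AddCommGroup Y₂] [Module ℂ Y₂] [UniformSpace Y₂]
  [AddCommGroup Y₃] [Module ℂ Y₃] [UniformSpace Y₃]

/-- The map between completed tensor products induced by `i : Y₁ → Y₂`. -/
noncomputable def ctMap (R₁ : Λ → Y₁ → Y₁) (R₂ : Λ → Y₂ → Y₂) (L : Λ → X → X) (i : Y₁ →L[ℂ] Y₂) :
    CTensor R₁ L → CTensor R₂ L :=
  UniformSpace.Completion.map
    (TensorProduct.map (i : Y₁ →ₗ[ℂ] Y₂) (LinearMap.id : X →ₗ[ℂ] X) : Y₁ ⊗[ℂ] X → Y₂ ⊗[ℂ] X)

/-- The sequence `0 → Y₁ → Y₂ → Y₃ → 0` is split exact as a sequence of locally convex spaces. -/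
def IsSplitExact (i : Y₁ →L[ℂ] Y₂) (π : Y₂ →L[ℂ] Y₃) : Prop :=
  ∃ (q : Y₂ →L[ℂ] Y₁) (s : Y₃ →L[ℂ] Y₂), (∀ y, q (i y) = y) ∧ (∀ y, π (s y) = y) ∧
    (∀ y, π (i y) = 0) ∧ ∀ y, i (q y) + s (π y) = y

end maps

/-- Topological exactness of a sequence `0 → E₁ → E₂ → E₃ → 0` of complete Hausdorff locally convex
spaces: `f` is a homeomorphism onto the kernel of `g`, and `g` is an open map onto a dense
subspace of `E₃`. In other words `f` is a kernel of `g` and `g` is a cokernel of `f` in the category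
of complete Hausdorff locally convex spaces (where the cokernel is the completion of the quotient
by the closed range). For Fréchet and Banach spaces `g` is then surjective and this is ordinary
exactness. -/
structure IsTopExact {E₁ E₂ E₃ : Type u} [TopologicalSpace E₁] [TopologicalSpace E₂]
    [TopologicalSpace E₃] [Zero E₃] (f : E₁ → E₂) (g : E₂ → E₃) : Prop where
  isEmbedding : Topology.IsEmbedding f
  range_eq : Set.range f = g ⁻¹' {0}
  denseRange : DenseRange g
  isOpen : IsOpenMap (Set.rangeFactorization g)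

/-- The left `A`-module `X` (action `act a x = a • x`) is flat: the functor `Y ↦ Y ⊗̂_A X` sends
every short exact sequence of right `A`-modules which splits as a sequence of locally convex spaces
to a topologically exact sequence. -/
def IsFlatLeft (A : Type u) [NonUnitalRing A] [Module ℂ A] [UniformSpace A]
    (X : Type u) [AddCommGroup X] [Module ℂ X] [UniformSpace X] (act : A → X → X) : Prop :=
  ∀ (Y₁ Y₂ Y₃ : Type u)
    [AddCommGroup Y₁] [Module ℂ Y₁] [UniformSpace Y₁] [IsPolynormed Y₁]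
    [AddCommGroup Y₂] [Module ℂ Y₂] [UniformSpace Y₂] [IsPolynormed Y₂]
    [AddCommGroup Y₃] [Module ℂ Y₃] [UniformSpace Y₃] [IsPolynormed Y₃]
    (r₁ : A → Y₁ → Y₁) (r₂ : A → Y₂ → Y₂) (r₃ : A → Y₃ → Y₃) (i : Y₁ →L[ℂ] Y₂) (π : Y₂ →L[ℂ] Y₃),
    IsRightModule r₁ → IsRightModule r₂ → IsRightModule r₃ →
    (∀ a y, i (r₁ a y) = r₂ a (i y)) → (∀ a y, π (r₂ a y) = r₃ a (π y)) → IsSplitExact i π →
    IsTopExact (ctMap r₁ r₂ act i) (ctMap r₂ r₃ act π)

/-- The `A`-bimodule `X` (actions `l a x = a • x`, `r a x = x • a`) is flat: the same for the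
functor `Y ↦ Y ⊗̂ X / (y a ⊗ x - y ⊗ a x, a y ⊗ x - y ⊗ x a)` on `A`-bimodules `Y`. -/
def IsFlatBimodule (A : Type u) [NonUnitalRing A] [Module ℂ A] [UniformSpace A]
    (X : Type u) [AddCommGroup X] [Module ℂ X] [UniformSpace X] (l r : A → X → X) : Prop :=
  ∀ (Y₁ Y₂ Y₃ : Type u)
    [AddCommGroup Y₁] [Module ℂ Y₁] [UniformSpace Y₁] [IsPolynormed Y₁]
    [AddCommGroup Y₂] [Module ℂ Y₂] [UniformSpace Y₂] [IsPolynormed Y₂]
    [AddCommGroup Y₃] [Module ℂ Y₃] [UniformSpace Y₃] [IsPolynormed Y₃]
    (l₁ r₁ : A → Y₁ → Y₁) (l₂ r₂ : A → Y₂ → Y₂) (l₃ r₃ : A → Y₃ → Y₃)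
    (i : Y₁ →L[ℂ] Y₂) (π : Y₂ →L[ℂ] Y₃),
    IsBimodule l₁ r₁ → IsBimodule l₂ r₂ → IsBimodule l₃ r₃ →
    (∀ a y, i (l₁ a y) = l₂ a (i y)) → (∀ a y, i (r₁ a y) = r₂ a (i y)) →
    (∀ a y, π (l₂ a y) = l₃ a (π y)) → (∀ a y, π (r₂ a y) = r₃ a (π y)) → IsSplitExact i π →
    IsTopExact (ctMap (Sum.elim r₁ l₁) (Sum.elim r₂ l₂) (Sum.elim l r) i)
      (ctMap (Sum.elim r₂ l₂) (Sum.elim r₃ l₃) (Sum.elim l r) π)

/-- All left modules over the polynormed algebra `A` are flat. -/
def AllLeftModulesFlat (A : Type u) [NonUnitalRing A] [Module ℂ A] [UniformSpace A] : Prop :=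
  ∀ (X : Type u) [AddCommGroup X] [Module ℂ X] [UniformSpace X] [IsPolynormed X]
    (act : A → X → X), IsLeftModule act → IsFlatLeft A X act

/-- Left multiplication `a (b + t 1) = a b + t a` on the unitization `A₊ = A × ℂ`. -/
def unitL {A : Type u} [NonUnitalRing A] [Module ℂ A] (a : A) (x : A × ℂ) : A × ℂ :=
  (a * x.1 + x.2 • a, 0)

/-- Right multiplication `(b + t 1) a = b a + t a` on the unitization `A₊ = A × ℂ`. -/
def unitR {A : Type u} [NonUnitalRing A] [Module ℂ A] (a : A) (x : A × ℂ) : A × ℂ :=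
  (x.1 * a + x.2 • a, 0)

/-- `A` is amenable: the unitization `A₊ = A × ℂ` is a flat `A`-bimodule. -/
def IsAmenable (A : Type u) [NonUnitalRing A] [Module ℂ A] [UniformSpace A] : Prop :=
  IsFlatBimodule A (A × ℂ) unitL unitR

end Pool.Agent.Lib.MP_0546f5_an.PN
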