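import Pool.Agent.Lib.MP_0546f5_an.PN.Semi

/-!
Complete locally convex spaces of functions defined by seminorms which are suprema.
-/

namespace Pool.Agent.Lib.MP_0546f5_an.PN

universe u v

open Filter Topology

/-- data for a space of functions `K → E` -/
structure SupData (K : Type u) (E : Type v) [AddCommGroup E] [Module ℂ E] [UniformSpace E] where
  C : Submodule ℂ (K → E)
  closed : IsClosed (C : Set (K → E))
  J : Type u
  T : J → Type u
  sn : ∀ j, T j → Seminorm ℂ (K → E)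
  cont : ∀ j t, Continuous (sn j t)
  dom : ∀ (k : K) (m : Seminorm ℂ E), Continuous m → ∃ (s : Finset J) (c : ℝ), ∀ y ∈ C,
    (∀ j, BddAbove (Set.range fun t => sn j t y)) → m (y k) ≤ c * ∑ j ∈ s, ⨆ t, sn j t y

namespace SupData

variable {K : Type u} {E : Type v} [AddCommGroup E] [Module ℂ E] [UniformSpace E]
variable (d : SupData K E)

/-- the subspace of bounded elements -/
def sub : Submodule ℂ (K → E) where
  carrier := {y | y ∈ d.C ∧ ∀ j, BddAbove (Set.range fun t => d.sn j t y)}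
  add_mem' := by
    rintro y z ⟨hy, hy'⟩ ⟨hz, hz'⟩
    refine ⟨d.C.add_mem hy hz, fun j => ?_⟩
    obtain ⟨a, ha⟩ := hy' j
    obtain ⟨b, hb⟩ := hz' j
    refine ⟨a + b, ?_⟩
    rintro _ ⟨t, rfl⟩
    exact (map_add_le_add _ _ _).trans (add_le_add (ha ⟨t, rfl⟩) (hb ⟨t, rfl⟩))
  zero_mem' := ⟨d.C.zero_mem, fun j => ⟨0, by rintro _ ⟨t, rfl⟩; simp⟩⟩
  smul_mem' := by
    rintro c y ⟨hy, hy'⟩
    refine ⟨d.C.smul_mem c hy, fun j => ?_⟩
    obtain ⟨a, ha⟩ := hy' j
    refine ⟨‖c‖ * a, ?_⟩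
    rintro _ ⟨t, rfl⟩
    simp only [map_smul_eq_mul]
    exact mul_le_mul_of_nonneg_left (ha ⟨t, rfl⟩) (norm_nonneg _)

/-- the space -/
def Sp : Type (max u v) := d.sub

instance : AddCommGroup d.Sp := inferInstanceAs (AddCommGroup d.sub)
noncomputable instance : Module ℂ d.Sp := inferInstanceAs (Module ℂ d.sub)

/-- evaluation -/
def ev (k : K) : d.Sp →ₗ[ℂ] E := (LinearMap.proj k).comp d.sub.subtype

/-- the underlying function -/
def fn : d.Sp →ₗ[ℂ] (K → E) := d.sub.subtype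

lemma fn_apply (y : d.Sp) (k : K) : d.fn y k = d.ev k y := rfl

lemma fn_mem (y : d.Sp) : d.fn y ∈ d.C := (show d.sub from y).2.1

lemma bdd (y : d.Sp) (j : d.J) : BddAbove (Set.range fun t => d.sn j t (d.fn y)) :=
  (show d.sub from y).2.2 j

/-- constructor -/
def mkSp (f : K → E) (hf : f ∈ d.C) (hb : ∀ j, BddAbove (Set.range fun t => d.sn j t f)) : d.Sp :=
  show d.sub from ⟨f, hf, hb⟩

@[simp] lemma fn_mkSp (f : K → E) (hf : f ∈ d.C)
    (hb : ∀ j, BddAbove (Set.range fun t => d.sn j t f)) : d.fn (d.mkSp f hf hb) = f := rfl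

@[simp] lemma ev_mkSp (f : K → E) (hf : f ∈ d.C)
    (hb : ∀ j, BddAbove (Set.range fun t => d.sn j t f)) (k : K) :
    d.ev k (d.mkSp f hf hb) = f k := rfl

lemma ext {x y : d.Sp} (h : ∀ k, d.ev k x = d.ev k y) : x = y :=
  Subtype.ext (funext h)

/-- the seminorms -/
noncomputable def p (j : d.J) : Seminorm ℂ d.Sp :=
  Seminorm.of (fun y => ⨆ t, d.sn j t (d.fn y))
    (by
      intro y z
      refine Real.iSup_le (fun t => ?_) (add_nonneg (Real.iSup_nonneg fun _ => apply_nonneg _ _)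
        (Real.iSup_nonneg fun _ => apply_nonneg _ _))
      rw [map_add]
      exact (map_add_le_add _ _ _).trans (add_le_add (le_ciSup (d.bdd y j) t)
        (le_ciSup (d.bdd z j) t)))
    (by
      intro c y
      rw [Real.mul_iSup_of_nonneg (norm_nonneg _)]
      congr 1
      ext t
      rw [map_smul, map_smul_eq_mul])

lemma p_apply (j : d.J) (y : d.Sp) : d.p j y = ⨆ t, d.sn j t (d.fn y) := rfl

lemma sn_le (j : d.J) (t : d.T j) (y : d.Sp) : d.sn j t (d.fn y) ≤ d.p j y :=
  le_ciSup (d.bdd y j) t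

lemma p_le {j : d.J} {y : d.Sp} {c : ℝ} (hc : 0 ≤ c) (h : ∀ t, d.sn j t (d.fn y) ≤ c) :
    d.p j y ≤ c := Real.iSup_le h hc

noncomputable instance : UniformSpace d.Sp :=
  ⨅ j, (d.p j).toSeminormedAddCommGroup.toUniformSpace

instance : IsUniformAddGroup d.Sp := isUniformAddGroup_iInf fun _ => inferInstance

lemma withSeminorms : WithSeminorms d.p :=
  (SeminormFamily.withSeminorms_iff_uniformSpace_eq_iInf d.p).2 rfl

instance : PolynormableSpace ℂ d.Sp := d.withSeminorms.toPolynormableSpace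

lemma continuous_p (j : d.J) : Continuous (d.p j) := d.withSeminorms.continuous_seminorm j

lemma ev_bound (k : K) (m : Seminorm ℂ E) (hm : Continuous m) :
    ∃ (s : Finset d.J) (c : ℝ), ∀ y : d.Sp, m (d.ev k y) ≤ c * ∑ j ∈ s, d.p j y := by
  obtain ⟨s, c, h⟩ := d.dom k m hm
  exact ⟨s, c, fun y => h _ (d.fn_mem y) (d.bdd y)⟩

variable [IsPolynormed E]

lemma continuous_ev (k : K) : Continuous (d.ev k) := by
  have hw := PolynormableSpace.withSeminorms ℂ E
  have key := continuous_of_bound (E := ℂ) (F := d.Sp) (G := E) hw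
    (fun c y => c • d.ev k y) (fun c c' y => add_smul _ _ _) (fun c y y' => by rw [map_add, smul_add])
    (fun m => by
      obtain ⟨s, c, h⟩ := d.ev_bound k m.1 m.2
      refine ⟨normSeminorm ℂ ℂ, (Real.toNNReal c) • ∑ j ∈ s, d.p j, continuous_norm, ?_,
        fun a y => ?_⟩
      · exact Continuous.const_smul (Seminorm.continuous_finsetSum fun j _ => d.continuous_p j) _
      · rw [map_smul_eq_mul]
        refine mul_le_mul_of_nonneg_left ?_ (norm_nonneg _)
        refine (h y).trans ?_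
        change c * _ ≤ (Real.toNNReal c : ℝ) * ((∑ j ∈ s, d.p j : Seminorm ℂ d.Sp) y)
        rw [sum_apply]
        exact mul_le_mul_of_nonneg_right (Real.le_coe_toNNReal c)
          (Finset.sum_nonneg fun _ _ => apply_nonneg _ _))
  have : (d.ev k : d.Sp → E) = fun y => (1 : ℂ) • d.ev k y := by ext y; simp
  rw [this]
  exact key.comp (Continuous.prodMk continuous_const continuous_id)

lemma continuous_fn : Continuous (d.fn) := continuous_pi fun k => d.continuous_ev k

instance : T2Space d.Sp :=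
  T2Space.of_injective_continuous (f := d.fn) Subtype.val_injective d.continuous_fn

instance : CompleteSpace d.Sp := by
  refine ⟨fun {f} hf => ?_⟩
  have hne : f.NeBot := hf.1
  have hfn : UniformContinuous d.fn := by
    have := uniformContinuous_addMonoidHom_of_continuous (f := d.fn.toAddMonoidHom) d.continuous_fn
    exact this
  obtain ⟨y₀, hy₀⟩ := CompleteSpace.complete (hf.map hfn)
  have hlim : Tendsto d.fn f (𝓝 y₀) := hy₀
  have hC : y₀ ∈ d.C := d.closed.mem_of_tendsto hlim (Eventually.of_forall fun y => d.fn_mem y)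
  have hsmall : ∀ j, ∀ ε > 0, ∃ t ∈ f, ∀ u ∈ t, ∀ v ∈ t, d.p j (u - v) < ε := by
    intro j ε hε
    have h1 : Tendsto (fun q : d.Sp × d.Sp => d.p j (q.2 - q.1)) (uniformity d.Sp) (𝓝 0) := by
      rw [uniformity_eq_comap_nhds_zero]
      have : Tendsto (fun x : d.Sp => d.p j x) (𝓝 0) (𝓝 0) := by
        have := (d.continuous_p j).tendsto 0
        rwa [map_zero] at this
      exact this.comp tendsto_comap
    have h2 := h1.eventually (gt_mem_nhds hε)
    have h3 := hf.2 h2
    obtain ⟨t, ht, htt⟩ := mem_prod_same_iff.1 h3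
    exact ⟨t, ht, fun u hu v hv => htt (Set.mk_mem_prod hv hu)⟩
  have hclose : ∀ j, ∀ ε > 0, ∃ t ∈ f, ∀ v ∈ t, ∀ τ, d.sn j τ (y₀ - d.fn v) ≤ ε := by
    intro j ε hε
    obtain ⟨t, ht, h⟩ := hsmall j ε hε
    refine ⟨t, ht, fun v hv τ => ?_⟩
    have h1 : Tendsto (fun u => d.sn j τ (d.fn u - d.fn v)) f (𝓝 (d.sn j τ (y₀ - d.fn v))) :=
      ((d.cont j τ).tendsto _).comp (hlim.sub_const _)
    refine le_of_tendsto h1 ?_
    filter_upwards [ht] with u hu
    rw [← map_sub]
    exact (d.sn_le j τ (u - v)).trans (h u hu v hv).le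
  have hb : ∀ j, BddAbove (Set.range fun t => d.sn j t y₀) := by
    intro j
    obtain ⟨t, ht, h⟩ := hclose j 1 one_pos
    obtain ⟨v, hv⟩ := hne.nonempty_of_mem ht
    refine ⟨1 + d.p j v, ?_⟩
    rintro _ ⟨τ, rfl⟩
    have : y₀ = (y₀ - d.fn v) + d.fn v := by abel
    calc d.sn j τ y₀ = d.sn j τ ((y₀ - d.fn v) + d.fn v) := by rw [← this]
      _ ≤ d.sn j τ (y₀ - d.fn v) + d.sn j τ (d.fn v) := map_add_le_add _ _ _
      _ ≤ 1 + d.p j v := add_le_add (h v hv τ) (d.sn_le j τ v)
  refine ⟨d.mkSp y₀ hC hb, ?_⟩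
  have key : Tendsto (fun y : d.Sp => y) f (𝓝 (d.mkSp y₀ hC hb)) := by
    rw [d.withSeminorms.tendsto_nhds]
    intro j ε hε
    obtain ⟨t, ht, h⟩ := hclose j (ε / 2) (by positivity)
    filter_upwards [ht] with v hv
    refine lt_of_le_of_lt (d.p_le (by positivity : 0 ≤ ε / 2) fun τ => ?_) (by linarith)
    rw [map_sub, fn_mkSp, ← map_neg_eq_map, neg_sub]
    exact h v hv τ
  exact key

instance : IsPolynormed d.Sp where

end SupData

end Pool.Agent.Lib.MP_0546f5_an.PN
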