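import Pool.Agent.Lib.MP_0546f5_an.PN.VZ

/-!
The twisted right module `V × Z`.
-/

namespace Pool.Agent.Lib.MP_0546f5_an.PN

universe u

open Filter Topology

variable {A : Type u} [NonUnitalRing A] [Module ℂ A] [IsScalarTower ℂ A A]
  [SMulCommClass ℂ A A] [UniformSpace A] [IsPolynormed A] [ContinuousMul A]
variable {M : Type u} [AddCommGroup M] [Module ℂ M] [UniformSpace M] [IsPolynormed M]
variable {lM rM : A → M → M}
variable {X : Type u} [AddCommGroup X] [Module ℂ X] [UniformSpace X]
variable {lX : A → X → X} (hlX : IsLeftModule lX) (hM : IsBimodule lM rM) (q : CS M → CS X)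

section words

omit [IsScalarTower ℂ A A] [SMulCommClass ℂ A A] [IsPolynormed A] [ContinuousMul A] in
/-- word acting on the left -/
lemma foldr_left (w : List A) (b : A) (x : X) (hlX : IsLeftModule lX) :
    lX (w.foldl (· * ·) b) x = lX b (w.foldr lX x) := by
  induction w generalizing b with
  | nil => rfl
  | cons c w ih => rw [List.foldl_cons, ih, hlX.mul, List.foldr_cons]

lemma vRw_apply (S : Type u) (q₀ : CS X) (pD : CS A) (w : List A) (v : S × X → ℂ) (s : S)
    (x : X) : (vData S hlX q₀ pD).Rw w v (s, x) = v (s, w.foldr lX x) := by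
  induction w generalizing v with
  | nil => rfl
  | cons b w ih =>
    rw [SmData.Rw_cons, ih]
    rfl

lemma zRw_cons_apply (w : List A) (b : A) (z : X → M) (x : X) :
    (zData lX hM q).Rw (b :: w) z x = rM (w.foldl (· * ·) b) (z x) := by
  induction w generalizing b z with
  | nil => rfl
  | cons c w ih =>
    rw [SmData.Rw_cons, ih, List.foldl_cons]
    have : w.foldl (· * ·) (b * c) = b * w.foldl (· * ·) c := by
      rw [List.foldl_assoc]
    rw [this, hM.right.mul]
    rfl

end words

/-- constructor of elements of `Z` -/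
noncomputable def zmk (T : X → M) (hT : T ∈ Zsub lX hM.left)
    (hb : ∀ (m : CS M) x, m.1 (T x) ≤ (q m).1 x) : (zData lX hM q).Sp :=
  (zData lX hM q).sup.mkSp T hT (by
    rintro ⟨m, ⟨n⟩⟩
    refine ⟨1, ?_⟩
    rintro _ ⟨⟨⟨x, hx⟩, ⟨w, hw⟩⟩, rfl⟩
    change m.1 ((zData lX hM q).Rw w T x) ≤ 1
    have h1 : (mR hM.right m).1 (T x) ≤ 1 := (hb _ x).trans hx
    cases n with
    | zero =>
      have : w = [] := hw
      subst this
      exact (le_mR hM.right m _).trans h1
    | succ n =>
      obtain ⟨b, w', rfl, hb', hw'⟩ := hw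
      rw [zRw_cons_apply]
      refine (right_le hM.right m _ _).trans ?_
      have h2 := foldl_bound (prR hM.right m) n w' hw' b
      have h3 := (h2.trans (le_nx _ b)).trans hb'
      exact mul_le_one₀ h3 (apply_nonneg _ _) h1)

@[simp] lemma zev_zmk (T : X → M) (hT : T ∈ Zsub lX hM.left)
    (hb : ∀ (m : CS M) x, m.1 (T x) ≤ (q m).1 x) (x : X) :
    zev lX hM q x (zmk hM q T hT hb) = T x := rfl

lemma zp_zmk_le (T : X → M) (hT : T ∈ Zsub lX hM.left)
    (hb : ∀ (m : CS M) x, m.1 (T x) ≤ (q m).1 x) (m : CS M) (n : ℕ) :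
    zp lX hM q m n (zmk hM q T hT hb) ≤ 1 := by
  refine (zData lX hM q).sup.p_le zero_le_one ?_
  rintro ⟨⟨x, hx⟩, ⟨w, hw⟩⟩
  change m.1 ((zData lX hM q).Rw w T x) ≤ 1
  have h1 : (mR hM.right m).1 (T x) ≤ 1 := (hb _ x).trans hx
  cases n with
  | zero =>
    have : w = [] := hw
    subst this
    exact (le_mR hM.right m _).trans h1
  | succ n =>
    obtain ⟨b, w', rfl, hb', hw'⟩ := hw
    rw [zRw_cons_apply]
    refine (right_le hM.right m _ _).trans ?_
    have h2 := foldl_bound (prR hM.right m) n w' hw' b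
    have h3 := (h2.trans (le_nx _ b)).trans hb'
    exact mul_le_one₀ h3 (apply_nonneg _ _) h1

/-- a uniformly bounded family of derivations `A → M*` -/
structure DerFam (lM rM : A → M → M) {S : Type u} (D : S → A → M → ℂ) (pD : CS A) (μ : CS M) :
    Prop where
  add_left : ∀ s a b m, D s (a + b) m = D s a m + D s b m
  smul_left : ∀ s (c : ℂ) a m, D s (c • a) m = c * D s a m
  add_right : ∀ s a m m', D s a (m + m') = D s a m + D s a m'
  smul_right : ∀ s (c : ℂ) a m, D s a (c • m) = c * D s a m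
  der : ∀ s a b m, D s (a * b) m = D s b (rM a m) + D s a (lM b m)
  bound : ∀ s a m, ‖D s a m‖ ≤ pD.1 a * μ.1 m

section delta

variable {S : Type u} {D : S → A → M → ℂ} {pD : CS A} {μ : CS M} (hD : DerFam lM rM D pD μ)

/-- the space `V` used for `D` -/
noncomputable abbrev vD (S : Type u) (hlX : IsLeftModule lX) (hM : IsBimodule lM rM)
    (q : CS M → CS X) (pD : CS A) (μ : CS M) : SmData A (S × X) ℂ :=
  vData S hlX (q (mR hM.right μ)) pD

include hD hlX in
lemma delta_bound (a : A) (z : (zData lX hM q).Sp) (n : ℕ) (s : S) (x : X)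
    (hx : (q (mR hM.right μ)).1 x ≤ 1) (w : List A) (hw : w ∈ W pD n) :
    ‖D s a (zev lX hM q (w.foldr lX x) z)‖ ≤
      ((nxi pD n).1 a + (nxi (prR hM.right μ) 1).1 a) * (zp lX hM q μ 0 z + zp lX hM q μ 1 z) := by
  have hz0 : 0 ≤ zp lX hM q μ 0 z := apply_nonneg _ _
  have hz1 : 0 ≤ zp lX hM q μ 1 z := apply_nonneg _ _
  have ha1 : 0 ≤ (nxi pD n).1 a := apply_nonneg _ _
  have ha2 : 0 ≤ (nxi (prR hM.right μ) 1).1 a := apply_nonneg _ _
  have hy : μ.1 (zev lX hM q x z) ≤ zp lX hM q μ 0 z :=
    (zev_le lX hM q μ x z).trans (mul_le_of_le_one_right hz0 hx)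
  have hy1 : μ.1 (rM a (zev lX hM q x z)) ≤ (nxi (prR hM.right μ) 1).1 a * zp lX hM q μ 1 z :=
    (zev_right_le lX hM q μ x a z).trans (mul_le_of_le_one_right (mul_nonneg ha2 hz1) hx)
  cases n with
  | zero =>
    have : w = [] := hw
    subst this
    rw [List.foldr_nil]
    refine (hD.bound s a _).trans ?_
    have h1 : pD.1 a * μ.1 (zev lX hM q x z) ≤ pD.1 a * zp lX hM q μ 0 z :=
      mul_le_mul_of_nonneg_left hy (apply_nonneg _ _)
    have h2 : (nxi pD 0).1 a = pD.1 a := rfl
    rw [h2] at ha1 ⊢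
    nlinarith [mul_nonneg ha1 hz1, mul_nonneg ha2 hz0, mul_nonneg ha2 hz1]
  | succ n =>
    obtain ⟨b, w', rfl, hb', hw'⟩ := hw
    rw [List.foldr_cons, ← foldr_left w' b x hlX, zev_left]
    set c := w'.foldl (· * ·) b with hc
    have h1 : D s a (lM c (zev lX hM q x z)) =
        D s (a * c) (zev lX hM q x z) - D s c (rM a (zev lX hM q x z)) := by
      rw [hD.der]; ring
    rw [h1]
    have hac : a * c = w'.foldl (· * ·) (a * b) := by rw [hc, List.foldl_assoc]
    have h2 : pD.1 (a * c) ≤ (nxi pD (n + 1)).1 a := by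
      rw [hac]
      refine (foldl_bound pD n w' hw' _).trans ((mul_le_nx _ _ _).trans ?_)
      rw [← nxi_succ]
      exact mul_le_of_le_one_right (apply_nonneg _ _) hb'
    have h3 : pD.1 c ≤ 1 := ((foldl_bound pD n w' hw' b).trans (le_nx _ b)).trans hb'
    have h4 : ‖D s (a * c) (zev lX hM q x z)‖ ≤ (nxi pD (n + 1)).1 a * zp lX hM q μ 0 z :=
      (hD.bound _ _ _).trans (mul_le_mul h2 hy (apply_nonneg _ _) ha1)
    have h5 : ‖D s c (rM a (zev lX hM q x z))‖ ≤
        1 * ((nxi (prR hM.right μ) 1).1 a * zp lX hM q μ 1 z) :=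
      (hD.bound _ _ _).trans (mul_le_mul h3 hy1 (apply_nonneg _ _) zero_le_one)
    refine (norm_sub_le _ _).trans ((add_le_add h4 h5).trans ?_)
    nlinarith [mul_nonneg ha1 hz1, mul_nonneg ha2 hz0]

/-- the cocycle `δ : A × Z → V` -/
noncomputable def delta (hlX : IsLeftModule lX) (hM : IsBimodule lM rM) (q : CS M → CS X)
    (hD : DerFam lM rM D pD μ) (a : A) (z : (zData lX hM q).Sp) : (vD S hlX hM q pD μ).Sp :=
  (vD S hlX hM q pD μ).sup.mkSp (fun k => D k.1 a (zev lX hM q k.2 z))
    ⟨fun s x y => by simp only [zev_add, hD.add_right],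
      fun s c x => by simp only [zev_smul, hD.smul_right]⟩
    (by
      rintro ⟨⟨⟩, ⟨n⟩⟩
      refine ⟨((nxi pD n).1 a + (nxi (prR hM.right μ) 1).1 a) *
        (zp lX hM q μ 0 z + zp lX hM q μ 1 z), ?_⟩
      rintro _ ⟨⟨⟨s, ⟨x, hx⟩⟩, ⟨w, hw⟩⟩, rfl⟩
      change ‖(vData S hlX (q (mR hM.right μ)) pD).Rw w _ (s, x)‖ ≤ _
      rw [vRw_apply]
      exact delta_bound hlX hM q hD a z n s x hx w hw)

lemma vev_delta (a : A) (z : (zData lX hM q).Sp) (s : S) (x : X) :
    vev S hlX (q (mR hM.right μ)) pD s x (delta hlX hM q hD a z) = D s a (zev lX hM q x z) := rfl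

lemma p_delta_le (n : ℕ) (a : A) (z : (zData lX hM q).Sp) :
    (vD S hlX hM q pD μ).sup.p (PUnit.unit, ULift.up n) (delta hlX hM q hD a z) ≤
      ((nxi pD n).1 a + (nxi (prR hM.right μ) 1).1 a) *
        (zp lX hM q μ 0 z + zp lX hM q μ 1 z) := by
  refine (vD S hlX hM q pD μ).sup.p_le
    (mul_nonneg (add_nonneg (apply_nonneg _ _) (apply_nonneg _ _))
      (add_nonneg (apply_nonneg _ _) (apply_nonneg _ _))) ?_
  rintro ⟨⟨s, ⟨x, hx⟩⟩, ⟨w, hw⟩⟩
  change ‖(vData S hlX (q (mR hM.right μ)) pD).Rw w _ (s, x)‖ ≤ _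
  rw [vRw_apply]
  exact delta_bound hlX hM q hD a z n s x hx w hw

lemma vext {v w : (vD S hlX hM q pD μ).Sp}
    (h : ∀ s x, vev S hlX (q (mR hM.right μ)) pD s x v = vev S hlX (q (mR hM.right μ)) pD s x w) :
    v = w := (vD S hlX hM q pD μ).sup.ext fun k => h k.1 k.2

lemma delta_add_left (a b : A) (z : (zData lX hM q).Sp) :
    delta hlX hM q hD (a + b) z = delta hlX hM q hD a z + delta hlX hM q hD b z :=
  vext hlX hM q fun s x => by simp only [vev_delta, map_add, hD.add_left]

lemma delta_smul_left (c : ℂ) (a : A) (z : (zData lX hM q).Sp) :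
    delta hlX hM q hD (c • a) z = c • delta hlX hM q hD a z :=
  vext hlX hM q fun s x => by simp only [vev_delta, map_smul, hD.smul_left, smul_eq_mul]

lemma delta_add_right (a : A) (z z' : (zData lX hM q).Sp) :
    delta hlX hM q hD a (z + z') = delta hlX hM q hD a z + delta hlX hM q hD a z' :=
  vext hlX hM q fun s x => by simp only [vev_delta, map_add, hD.add_right]

lemma delta_smul_right (c : ℂ) (a : A) (z : (zData lX hM q).Sp) :
    delta hlX hM q hD a (c • z) = c • delta hlX hM q hD a z :=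
  vext hlX hM q fun s x => by simp only [vev_delta, map_smul, hD.smul_right, smul_eq_mul]

lemma delta_mul (a b : A) (z : (zData lX hM q).Sp) :
    delta hlX hM q hD (a * b) z = (vD S hlX hM q pD μ).act b (delta hlX hM q hD a z) +
      delta hlX hM q hD b ((zData lX hM q).act a z) :=
  vext hlX hM q fun s x => by
    rw [map_add, vev_delta, vev_act, vev_delta, vev_delta, zev_left, zev_act, hD.der, add_comm]

lemma continuous_delta :
    Continuous (fun y : A × (zData lX hM q).Sp => delta hlX hM q hD y.1 y.2) := by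
  refine continuous_of_bound (vD S hlX hM q pD μ).sup.withSeminorms (delta hlX hM q hD)
    (delta_add_left hlX hM q hD) (delta_add_right hlX hM q hD) ?_
  rintro ⟨⟨⟩, ⟨n⟩⟩
  exact ⟨(nxi pD n).1 + (nxi (prR hM.right μ) 1).1, zp lX hM q μ 0 + zp lX hM q μ 1,
    (nxi pD n).2.add (nxi (prR hM.right μ) 1).2,
    (continuous_zp lX hM q μ 0).add (continuous_zp lX hM q μ 1),
    fun a z => p_delta_le hlX hM q hD n a z⟩

/-- the twisted action on `V × Z` -/
noncomputable def act2 (a : A) (y : (vD S hlX hM q pD μ).Sp × (zData lX hM q).Sp) :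
    (vD S hlX hM q pD μ).Sp × (zData lX hM q).Sp :=
  ((vD S hlX hM q pD μ).act a y.1 + delta hlX hM q hD a y.2, (zData lX hM q).act a y.2)

theorem isRightModule_act2 : IsRightModule (act2 hlX hM q hD) where
  add_left a b y := by
    have h1 := (vD S hlX hM q pD μ).isRightModule
    have h2 := (zData lX hM q).isRightModule
    unfold act2
    refine Prod.ext ?_ ?_
    · simp only [Prod.fst_add, h1.add_left, delta_add_left]; abel
    · simp only [Prod.snd_add, h2.add_left]
  smul_left c a y := by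
    have h1 := (vD S hlX hM q pD μ).isRightModule
    have h2 := (zData lX hM q).isRightModule
    unfold act2
    refine Prod.ext ?_ ?_
    · simp only [Prod.smul_fst, h1.smul_left, delta_smul_left, smul_add]
    · simp only [Prod.smul_snd, h2.smul_left]
  add_right a y z := by
    have h1 := (vD S hlX hM q pD μ).isRightModule
    have h2 := (zData lX hM q).isRightModule
    unfold act2
    refine Prod.ext ?_ ?_
    · simp only [Prod.fst_add, Prod.snd_add, h1.add_right, delta_add_right]; abel
    · simp only [Prod.snd_add, h2.add_right]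
  smul_right c a y := by
    have h1 := (vD S hlX hM q pD μ).isRightModule
    have h2 := (zData lX hM q).isRightModule
    unfold act2
    refine Prod.ext ?_ ?_
    · simp only [Prod.smul_fst, Prod.smul_snd, h1.smul_right, delta_smul_right, smul_add]
    · simp only [Prod.smul_snd, h2.smul_right]
  mul a b y := by
    have h1 := (vD S hlX hM q pD μ).isRightModule
    have h2 := (zData lX hM q).isRightModule
    unfold act2
    refine Prod.ext ?_ ?_
    · simp only [h1.mul, h1.add_right, delta_mul]; abel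
    · simp only [h2.mul]
  continuous := by
    have h1 := (vD S hlX hM q pD μ).isRightModule.continuous
    have h2 := (zData lX hM q).isRightModule.continuous
    have h3 := continuous_delta hlX hM q hD
    unfold act2
    refine Continuous.prodMk (Continuous.add ?_ ?_) ?_
    · exact h1.comp (continuous_fst.prodMk (continuous_fst.comp continuous_snd))
    · exact h3.comp (continuous_fst.prodMk (continuous_snd.comp continuous_snd))
    · exact h2.comp (continuous_fst.prodMk (continuous_snd.comp continuous_snd))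

end delta

end Pool.Agent.Lib.MP_0546f5_an.PN
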