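import Pool.Agent.Lib.MP_0546f5_an.PN.Smooth

/-!
The right modules `V` (functionals on `X`) and `Z` (module maps `X → M`).
-/

namespace Pool.Agent.Lib.MP_0546f5_an.PN

universe u

open Filter Topology

section lin

variable {A X : Type u} [NonUnitalRing A] [Module ℂ A] [UniformSpace A]
  [AddCommGroup X] [Module ℂ X] [UniformSpace X]

/-- the operator `x ↦ a • x` -/
def IsLeftModule.lin {l : A → X → X} (h : IsLeftModule l) (a : A) : X →ₗ[ℂ] X where
  toFun := l a
  map_add' := h.add_right a
  map_smul' := fun c x => h.smul_right c a x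

@[simp] lemma IsLeftModule.lin_apply {l : A → X → X} (h : IsLeftModule l) (a : A) (x : X) :
    h.lin a x = l a x := rfl

lemma IsLeftModule.continuous_lin {l : A → X → X} (h : IsLeftModule l) (a : A) :
    Continuous (h.lin a) := h.continuous.comp (Continuous.prodMk_right a)

/-- the operator `x ↦ x • a` -/
def IsRightModule.lin {r : A → X → X} (h : IsRightModule r) (a : A) : X →ₗ[ℂ] X where
  toFun := r a
  map_add' := h.add_right a
  map_smul' := fun c x => h.smul_right c a x

@[simp] lemma IsRightModule.lin_apply {r : A → X → X} (h : IsRightModule r) (a : A) (x : X) :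
    h.lin a x = r a x := rfl

lemma IsRightModule.continuous_lin {r : A → X → X} (h : IsRightModule r) (a : A) :
    Continuous (h.lin a) := h.continuous.comp (Continuous.prodMk_right a)

end lin

variable {A : Type u} [NonUnitalRing A] [Module ℂ A] [IsScalarTower ℂ A A]
  [SMulCommClass ℂ A A] [UniformSpace A] [IsPolynormed A] [ContinuousMul A]

section V

variable {X : Type u} [AddCommGroup X] [Module ℂ X] [UniformSpace X]
variable (S : Type u) {lX : A → X → X} (hl : IsLeftModule lX) (q₀ : CS X) (pD : CS A)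

/-- families of linear functionals on `X` -/
def Vsub (S X : Type u) [AddCommGroup X] [Module ℂ X] : Submodule ℂ (S × X → ℂ) where
  carrier := {v | (∀ s x y, v (s, x + y) = v (s, x) + v (s, y)) ∧
    ∀ s (c : ℂ) x, v (s, c • x) = c * v (s, x)}
  add_mem' := by
    rintro v w ⟨h1, h2⟩ ⟨h3, h4⟩
    refine ⟨fun s x y => ?_, fun s c x => ?_⟩
    · simp only [Pi.add_apply, h1, h3]; ring
    · simp only [Pi.add_apply, h2, h4]; ring
  zero_mem' := ⟨fun s x y => by simp, fun s c x => by simp⟩
  smul_mem' := by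
    rintro a v ⟨h1, h2⟩
    refine ⟨fun s x y => ?_, fun s c x => ?_⟩
    · simp only [Pi.smul_apply, h1, smul_eq_mul]; ring
    · simp only [Pi.smul_apply, h2, smul_eq_mul]; ring

lemma isClosed_Vsub (S X : Type u) [AddCommGroup X] [Module ℂ X] :
    IsClosed (Vsub S X : Set (S × X → ℂ)) := by
  have : (Vsub S X : Set (S × X → ℂ)) =
      (⋂ s, ⋂ x, ⋂ y, {v : S × X → ℂ | v (s, x + y) = v (s, x) + v (s, y)}) ∩
      ⋂ s, ⋂ (c : ℂ), ⋂ x, {v : S × X → ℂ | v (s, c • x) = c * v (s, x)} := by
    ext v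
    simp only [Set.mem_inter_iff, Set.mem_iInter]
    rfl
  rw [this]
  refine IsClosed.inter ?_ ?_
  · refine isClosed_iInter fun s => isClosed_iInter fun x => isClosed_iInter fun y =>
      isClosed_eq ?_ ?_ <;> fun_prop
  · refine isClosed_iInter fun s => isClosed_iInter fun c => isClosed_iInter fun x =>
      isClosed_eq ?_ ?_ <;> fun_prop

/-- data for `V` -/
noncomputable def vData : SmData A (S × X) ℂ where
  C := Vsub S X
  closed := isClosed_Vsub S X
  R b := LinearMap.funLeft ℂ ℂ (fun k : S × X => (k.1, lX b k.2))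
  R_cont b := continuous_pi fun k => continuous_apply _
  R_add a b v hv := by
    ext ⟨s, x⟩
    simp only [LinearMap.funLeft_apply, Pi.add_apply, hl.add_left, hv.1]
  R_smul c a v hv := by
    ext ⟨s, x⟩
    simp only [LinearMap.funLeft_apply, Pi.smul_apply, hl.smul_left, hv.2, smul_eq_mul]
  R_mul a b v := by
    ext ⟨s, x⟩
    simp only [LinearMap.funLeft_apply, hl.mul]
  inv a v hv := by
    refine ⟨fun s x y => ?_, fun s c x => ?_⟩
    · simp only [LinearMap.funLeft_apply, hl.add_right, hv.1]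
    · simp only [LinearMap.funLeft_apply, hl.smul_right, hv.2]
  B := PUnit
  T _ := S × {x : X // q₀.1 x ≤ 1}
  n _ t := (normSeminorm ℂ ℂ).comp (LinearMap.proj (t.1, t.2.1))
  n_cont _ t := by
    change Continuous (fun v : S × X → ℂ => ‖v (t.1, t.2.1)‖)
    fun_prop
  om _ := pD
  dom := by
    rintro ⟨s, x⟩ m hm
    refine ⟨{PUnit.unit}, m 1 * q₀.1 x, fun v hv hb => ?_⟩
    rw [Finset.sum_singleton]
    have h1 : m (v (s, x)) = ‖v (s, x)‖ * m 1 := by
      conv_lhs => rw [← mul_one (v (s, x)), ← smul_eq_mul, map_smul_eq_mul]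
    set K : ℝ := ⨆ t : S × {x : X // q₀.1 x ≤ 1},
      ((normSeminorm ℂ ℂ).comp (LinearMap.proj (t.1, t.2.1))) v with hKdef
    have hK : 0 ≤ K := Real.iSup_nonneg fun _ => apply_nonneg _ _
    have h2 : ‖v (s, x)‖ ≤ K * q₀.1 x := by
      refine homog_bound q₀.1 (fun x => ‖v (s, x)‖) (fun c e => ?_) hK (fun e he => ?_) x
      · rw [hv.2, norm_mul]
      · exact le_ciSup (hb PUnit.unit) (s, ⟨e, he⟩)
    rw [h1]
    have h3 : ‖v (s, x)‖ * m 1 ≤ K * q₀.1 x * m 1 :=
      mul_le_mul_of_nonneg_right h2 (apply_nonneg _ _)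
    linarith

/-- evaluation of an element of `V` -/
noncomputable def vev (s : S) (x : X) : (vData S hl q₀ pD).Sp →ₗ[ℂ] ℂ :=
  (vData S hl q₀ pD).sup.ev (s, x)

lemma vev_act (s : S) (x : X) (b : A) (v : (vData S hl q₀ pD).Sp) :
    vev S hl q₀ pD s x ((vData S hl q₀ pD).act b v) = vev S hl q₀ pD s (lX b x) v := rfl

lemma vev_add (s : S) (x y : X) (v : (vData S hl q₀ pD).Sp) :
    vev S hl q₀ pD s (x + y) v = vev S hl q₀ pD s x v + vev S hl q₀ pD s y v :=
  ((vData S hl q₀ pD).sup.fn_mem v).1 s x y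

lemma vev_smul (s : S) (c : ℂ) (x : X) (v : (vData S hl q₀ pD).Sp) :
    vev S hl q₀ pD s (c • x) v = c * vev S hl q₀ pD s x v :=
  ((vData S hl q₀ pD).sup.fn_mem v).2 s c x

/-- the basic seminorm of `V` -/
noncomputable def vp : Seminorm ℂ (vData S hl q₀ pD).Sp :=
  (vData S hl q₀ pD).sup.p (PUnit.unit, ULift.up 0)

lemma continuous_vp : Continuous (vp S hl q₀ pD) :=
  (vData S hl q₀ pD).sup.continuous_p _

lemma vev_le (s : S) (x : X) (v : (vData S hl q₀ pD).Sp) :
    ‖vev S hl q₀ pD s x v‖ ≤ vp S hl q₀ pD v * q₀.1 x := by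
  refine homog_bound q₀.1 (fun x => ‖vev S hl q₀ pD s x v‖) (fun c e => ?_)
    (apply_nonneg _ _) (fun e he => ?_) x
  · rw [vev_smul, norm_mul]
  · exact (vData S hl q₀ pD).sup.sn_le (PUnit.unit, ULift.up 0) ((s, ⟨e, he⟩), ⟨[], rfl⟩) v

end V

section Z

variable {M : Type u} [AddCommGroup M] [Module ℂ M] [UniformSpace M] [IsPolynormed M]
variable {lM rM : A → M → M}

omit [IsScalarTower ℂ A A] [SMulCommClass ℂ A A] [ContinuousMul A] in
lemma exists_right (hr : IsRightModule rM) (m : CS M) : ∃ (p : CS A) (m' : CS M),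
    (∀ x, m.1 x ≤ m'.1 x) ∧ ∀ a x, m.1 (rM a x) ≤ p.1 a * m'.1 x := by
  obtain ⟨p, q, hp, hq, h⟩ := exists_bound_map rM hr.smul_left hr.smul_right hr.continuous m.1 m.2
  refine ⟨⟨p, hp⟩, ⟨m.1 + q, m.2.add hq⟩, fun x => ?_, fun a x => ?_⟩
  · change m.1 x ≤ m.1 x + q x
    have := apply_nonneg q x
    linarith
  · refine (h a x).trans (mul_le_mul_of_nonneg_left ?_ (apply_nonneg _ _))
    change q x ≤ m.1 x + q x
    have := apply_nonneg m.1 x
    linarith

/-- the seminorm on `A` controlling the right action -/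
noncomputable def prR (hr : IsRightModule rM) (m : CS M) : CS A :=
  Classical.choose (exists_right hr m)

/-- the seminorm on `M` controlling the right action -/
noncomputable def mR (hr : IsRightModule rM) (m : CS M) : CS M :=
  Classical.choose (Classical.choose_spec (exists_right hr m))

lemma le_mR (hr : IsRightModule rM) (m : CS M) (x : M) : m.1 x ≤ (mR hr m).1 x :=
  (Classical.choose_spec (Classical.choose_spec (exists_right hr m))).1 x

lemma right_le (hr : IsRightModule rM) (m : CS M) (a : A) (x : M) :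
    m.1 (rM a x) ≤ (prR hr m).1 a * (mR hr m).1 x :=
  (Classical.choose_spec (Classical.choose_spec (exists_right hr m))).2 a x

variable {X : Type u} [AddCommGroup X] [Module ℂ X] [UniformSpace X]
variable (lX : A → X → X) (hM : IsBimodule lM rM) (q : CS M → CS X)

/-- module maps `X → M` -/
def Zsub (hl : IsLeftModule lM) : Submodule ℂ (X → M) where
  carrier := {z | (∀ x y, z (x + y) = z x + z y) ∧ (∀ (c : ℂ) x, z (c • x) = c • z x) ∧
    ∀ a x, z (lX a x) = lM a (z x)}
  add_mem' := by
    rintro v w ⟨h1, h2, h3⟩ ⟨h4, h5, h6⟩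
    refine ⟨fun x y => ?_, fun c x => ?_, fun a x => ?_⟩
    · simp only [Pi.add_apply, h1, h4]; abel
    · simp only [Pi.add_apply, h2, h5, smul_add]
    · simp only [Pi.add_apply, h3, h6, hl.add_right]
  zero_mem' := ⟨fun x y => by simp, fun c x => by simp,
    fun a x => ((hl.lin a).map_zero).symm⟩
  smul_mem' := by
    rintro b v ⟨h1, h2, h3⟩
    refine ⟨fun x y => ?_, fun c x => ?_, fun a x => ?_⟩
    · simp only [Pi.smul_apply, h1, smul_add]
    · simp only [Pi.smul_apply, h2, smul_comm b c]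
    · simp only [Pi.smul_apply, h3, hl.smul_right]

omit [IsPolynormed A] [ContinuousMul A] [IsScalarTower ℂ A A] [SMulCommClass ℂ A A]
  [UniformSpace X] in
lemma isClosed_Zsub (hl : IsLeftModule lM) :
    IsClosed (Zsub lX hl : Set (X → M)) := by
  have : (Zsub lX hl : Set (X → M)) =
      ((⋂ x, ⋂ y, {z : X → M | z (x + y) = z x + z y}) ∩
      ⋂ (c : ℂ), ⋂ x, {z : X → M | z (c • x) = c • z x}) ∩
      ⋂ a, ⋂ x, {z : X → M | z (lX a x) = lM a (z x)} := by
    ext z
    simp only [Set.mem_inter_iff, Set.mem_iInter]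
    exact ⟨fun h => ⟨⟨h.1, h.2.1⟩, h.2.2⟩, fun h => ⟨h.1.1, h.1.2, h.2⟩⟩
  have hsm : ContinuousSMul ℂ M := (PolynormableSpace.withSeminorms ℂ M).continuousSMul
  rw [this]
  refine IsClosed.inter (IsClosed.inter ?_ ?_) ?_
  · refine isClosed_iInter fun x => isClosed_iInter fun y => isClosed_eq ?_ ?_ <;> fun_prop
  · refine isClosed_iInter fun c => isClosed_iInter fun x => isClosed_eq ?_ ?_ <;> fun_prop
  · refine isClosed_iInter fun a => isClosed_iInter fun x => isClosed_eq ?_ ?_
    · fun_prop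
    · exact (hl.continuous_lin a).comp (continuous_apply x)

/-- data for `Z` -/
noncomputable def zData : SmData A X M where
  C := Zsub lX hM.left
  closed := isClosed_Zsub lX hM.left
  R a := (hM.right.lin a).compLeft X
  R_cont a := continuous_pi fun x => (hM.right.continuous_lin a).comp (continuous_apply x)
  R_add a b z _ := by
    ext x
    simp only [LinearMap.compLeft_apply, Function.comp_apply, IsRightModule.lin_apply,
      Pi.add_apply, hM.right.add_left]
  R_smul c a z _ := by
    ext x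
    simp only [LinearMap.compLeft_apply, Function.comp_apply, IsRightModule.lin_apply,
      Pi.smul_apply, hM.right.smul_left]
  R_mul a b z := by
    ext x
    simp only [LinearMap.compLeft_apply, Function.comp_apply, IsRightModule.lin_apply,
      hM.right.mul]
  inv a z hz := by
    refine ⟨fun x y => ?_, fun c x => ?_, fun b x => ?_⟩
    · simp only [LinearMap.compLeft_apply, Function.comp_apply, hz.1, map_add]
    · simp only [LinearMap.compLeft_apply, Function.comp_apply, hz.2.1, map_smul]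
    · simp only [LinearMap.compLeft_apply, Function.comp_apply, IsRightModule.lin_apply, hz.2.2,
        hM.comm]
  B := CS M
  T m := {x : X // (q (mR hM.right m)).1 x ≤ 1}
  n m t := m.1.comp (LinearMap.proj t.1)
  n_cont m t := m.2.comp (continuous_apply t.1)
  om m := prR hM.right m
  dom := by
    intro x m hm
    refine ⟨{⟨m, hm⟩}, (q (mR hM.right ⟨m, hm⟩)).1 x, fun z hz hb => ?_⟩
    rw [Finset.sum_singleton]
    set K : ℝ := ⨆ t : {x : X // (q (mR hM.right ⟨m, hm⟩)).1 x ≤ 1},
      (m.comp (LinearMap.proj t.1)) z with hKdef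
    have hK : 0 ≤ K := Real.iSup_nonneg fun _ => apply_nonneg _ _
    have h2 : m (z x) ≤ K * (q (mR hM.right ⟨m, hm⟩)).1 x := by
      refine homog_bound (q (mR hM.right ⟨m, hm⟩)).1 (fun x => m (z x)) (fun c e => ?_) hK
        (fun e he => ?_) x
      · rw [hz.2.1, map_smul_eq_mul]
      · exact le_ciSup (hb ⟨m, hm⟩) ⟨e, he⟩
    linarith

/-- evaluation of an element of `Z` -/
noncomputable def zev (x : X) : (zData lX hM q).Sp →ₗ[ℂ] M := (zData lX hM q).sup.ev x

lemma zev_act (x : X) (b : A) (z : (zData lX hM q).Sp) :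
    zev lX hM q x ((zData lX hM q).act b z) = rM b (zev lX hM q x z) := rfl

lemma zev_add (x y : X) (z : (zData lX hM q).Sp) :
    zev lX hM q (x + y) z = zev lX hM q x z + zev lX hM q y z :=
  ((zData lX hM q).sup.fn_mem z).1 x y

lemma zev_smul (c : ℂ) (x : X) (z : (zData lX hM q).Sp) :
    zev lX hM q (c • x) z = c • zev lX hM q x z :=
  ((zData lX hM q).sup.fn_mem z).2.1 c x

lemma zev_left (a : A) (x : X) (z : (zData lX hM q).Sp) :
    zev lX hM q (lX a x) z = lM a (zev lX hM q x z) :=
  ((zData lX hM q).sup.fn_mem z).2.2 a x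

/-- the seminorms of `Z` -/
noncomputable def zp (m : CS M) (n : ℕ) : Seminorm ℂ (zData lX hM q).Sp :=
  (zData lX hM q).sup.p (m, ULift.up n)

lemma continuous_zp (m : CS M) (n : ℕ) : Continuous (zp lX hM q m n) :=
  (zData lX hM q).sup.continuous_p _

lemma zev_le (m : CS M) (x : X) (z : (zData lX hM q).Sp) :
    m.1 (zev lX hM q x z) ≤ zp lX hM q m 0 z * (q (mR hM.right m)).1 x := by
  refine homog_bound (q (mR hM.right m)).1 (fun x => m.1 (zev lX hM q x z)) (fun c e => ?_)
    (apply_nonneg _ _) (fun e he => ?_) x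
  · rw [zev_smul, map_smul_eq_mul]
  · exact (zData lX hM q).sup.sn_le (m, ULift.up 0) (⟨e, he⟩, ⟨[], rfl⟩) z

lemma zev_right_le (m : CS M) (x : X) (a : A) (z : (zData lX hM q).Sp) :
    m.1 (rM a (zev lX hM q x z)) ≤
      (nxi (prR hM.right m) 1).1 a * zp lX hM q m 1 z * (q (mR hM.right m)).1 x := by
  have h1 := zev_le lX hM q m x ((zData lX hM q).act a z)
  rw [zev_act] at h1
  refine h1.trans (mul_le_mul_of_nonneg_right ?_ (apply_nonneg _ _))
  exact (zData lX hM q).p_act_le m 0 a z

end Z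

end Pool.Agent.Lib.MP_0546f5_an.PN
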